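import Pool.Statements.S03779
import Pool.Agent.SqF.GP
import Pool.Agent.SqF.SEM
import Pool.Agent.SqF.VDC
import Pool.Agent.SqF.LIN
import Pool.Agent.SqF.PETA
import Pool.Agent.SqF.PETB
import Pool.Agent.SqF.PET
import Pool.Agent.SqF.WIN
import Pool.Agent.SqF.TAY
import Pool.Agent.SqF.H1W
import Pool.Agent.SqF.H1
import Pool.Agent.SqF.CUBEALG
import Pool.Agent.SqF.BOX
import Pool.Agent.SqF.CUBE
import Pool.Agent.SqF.EXPS
import Pool.Agent.SqF.TRIG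
import Pool.Agent.SqF.WBOX
import Pool.Agent.SqF.CELL
import Pool.Agent.SqF.B0C
import Pool.Agent.SqF.B0
import Pool.Agent.SqF.U2
import Pool.Agent.SqF.NB
import Pool.Agent.SqF.RAT
import Pool.Agent.SqF.WLIM
import Pool.Agent.SqF.DL1
import Pool.Agent.SqF.DL
import Pool.Agent.SqF.DRAT
import Pool.Agent.SqF.DEG
import Pool.Agent.SqF.PASTEP
import Pool.Agent.SqF.PBSTEP
import Pool.Agent.SqF.PCSTEP
import Pool.Agent.SqF.IND
import Pool.Agent.SqF.ERGD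
import Pool.Agent.SqF.ERGRED
import Pool.Agent.SqF.EXT
import Pool.Agent.SqF.FINAL

set_option autoImplicit false
open Pool Pool.MP_0b2319_an

namespace Pool.Agent.S03779

/-- For distinct positive non-integers c_i, any measure-preserving T on a probability space and bounded measurable f_i, the averages (1/N)∑_{n≤N} ∏_i f_i(T^{⌊n^{c_i}⌋²}x) converge in L² to some L² function. -/
theorem result :
    ∀ (k : ℕ) (c : Fin k → ℝ), Function.Injective c →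
      (∀ i, 0 < c i ∧ ∀ m : ℤ, c i ≠ (m : ℝ)) →
      ∀ (X : Type) [MeasurableSpace X] (μ : MeasureTheory.Measure X)
        [MeasureTheory.IsProbabilityMeasure μ] (T : X → X),
        MeasureTheory.MeasurePreserving T μ μ →
        ∀ f : Fin k → X → ℝ, (∀ i, Measurable (f i)) →
          (∀ i, ∃ C : ℝ, ∀ x, |f i x| ≤ C) →
          ∃ g : X → ℝ, MeasureTheory.MemLp g 2 μ ∧
            Filter.Tendsto
              (fun N : ℕ => MeasureTheory.eLpNorm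
                (fun x => (1 / (N : ℝ)) * ∑ n ∈ Finset.Icc 1 N,
                    ∏ i : Fin k, f i (T^[⌊(n : ℝ) ^ c i⌋₊ ^ 2] x) - g x) 2 μ)
              Filter.atTop (nhds 0) := by
  have hPET : Pool.Agent.SqF.T_PET := Pool.Agent.SqF.pet Pool.Agent.SqF.vdc
    (Pool.Agent.SqF.lin Pool.Agent.SqF.vdc Pool.Agent.SqF.v_bd Pool.Agent.SqF.v_shift
      Pool.Agent.SqF.v_lin)
    (Pool.Agent.SqF.peta Pool.Agent.SqF.gp_mono Pool.Agent.SqF.gp_shift Pool.Agent.SqF.gp_neg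
      Pool.Agent.SqF.gp_add Pool.Agent.SqF.gp_poly Pool.Agent.SqF.gp_dmono)
    (Pool.Agent.SqF.petb Pool.Agent.SqF.gp_mono Pool.Agent.SqF.gp_shift Pool.Agent.SqF.gp_neg
      Pool.Agent.SqF.gp_add Pool.Agent.SqF.gp_poly Pool.Agent.SqF.gp_dmono)
    Pool.Agent.SqF.v_conj
  have hH1 : Pool.Agent.SqF.T_H1 := Pool.Agent.SqF.h1
    (Pool.Agent.SqF.h1w hPET Pool.Agent.SqF.tay Pool.Agent.SqF.rl Pool.Agent.SqF.gp_mono
      Pool.Agent.SqF.gp_neg Pool.Agent.SqF.gp_add Pool.Agent.SqF.gp_mul Pool.Agent.SqF.gp_floor)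
    Pool.Agent.SqF.wsh
  have hCELL : Pool.Agent.SqF.T_CELL := Pool.Agent.SqF.cell
    (Pool.Agent.SqF.wbox Pool.Agent.SqF.wsh) Pool.Agent.SqF.lowc Pool.Agent.SqF.cube
    Pool.Agent.SqF.acb_poly Pool.Agent.SqF.cb_vtx Pool.Agent.SqF.cb_fac Pool.Agent.SqF.cb_mul
    Pool.Agent.SqF.cb_e Pool.Agent.SqF.TRIG Pool.Agent.SqF.exps
  have hB0 : Pool.Agent.SqF.T_B0 := Pool.Agent.SqF.b0
    (Pool.Agent.SqF.b0c hCELL Pool.Agent.SqF.TRIG) Pool.Agent.SqF.tay Pool.Agent.SqF.rl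
  have hNB : Pool.Agent.SqF.T_NB := Pool.Agent.SqF.nb Pool.Agent.SqF.v_bd Pool.Agent.SqF.v_tendsto
  have hDL : Pool.Agent.SqF.T_DL := Pool.Agent.SqF.dl hNB Pool.Agent.SqF.u2
    (Pool.Agent.SqF.dl1 Pool.Agent.SqF.box_cs Pool.Agent.SqF.cb_mul Pool.Agent.SqF.cb_e)
    Pool.Agent.SqF.cb_mul Pool.Agent.SqF.cb_conj Pool.Agent.SqF.cb_e Pool.Agent.SqF.cb_fac
    Pool.Agent.SqF.cb_vtx Pool.Agent.SqF.box_cs Pool.Agent.SqF.v_bd
  have hDEG : Pool.Agent.SqF.T_DEG := Pool.Agent.SqF.DEG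
    (Pool.Agent.SqF.DRAT hDL Pool.Agent.SqF.u2 Pool.Agent.SqF.rat Pool.Agent.SqF.v_lip
      Pool.Agent.SqF.v_bd) Pool.Agent.SqF.wlim
  have hPA := Pool.Agent.SqF.pa_step hDEG hH1 Pool.Agent.SqF.RES Pool.Agent.SqF.gauss hB0
  have hPB := Pool.Agent.SqF.pb_step Pool.Agent.SqF.rat Pool.Agent.SqF.RES hB0
  have hPC := Pool.Agent.SqF.pc_step Pool.Agent.SqF.rat Pool.Agent.SqF.RES hB0
  have hWC : ∀ m, Pool.Agent.SqF.T_WC m := Pool.Agent.SqF.ind hB0 hPA hPB hPC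
    (Pool.Agent.SqF.ergred Pool.Agent.SqF.ergd)
  exact Pool.Agent.SqF.final hWC Pool.Agent.SqF.ext Pool.Agent.SqF.block

end Pool.Agent.S03779
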