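import Pool.Statements.S16580

set_option autoImplicit false
open Filter
open Pool Pool.MP_37fc1f_nt

namespace Pool.Agent.S16580

open MeasureTheory Set

/-! ### Outline

The recurrence is `441 (n+1)(n+2) u (n+2) = 81 (n+1)(2n+3) u (n+1) - (3n+2)(3n+4) u n`, with
characteristic roots `(9 ± 4√2)/49`.  Its minimal solution is the moment sequence
`J n = ∫₀^∞ f(t)^(n+1) dt` with `f(t) = t³/((t³+1)(t³+8))`, and `J 1 = (2/49) J 0`, because
the substitution `t ↦ 2 t` exchanges the two cubes. -/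

/-- The weight function `t³/((t³+1)(t³+8))`. -/
noncomputable def f (t : ℝ) : ℝ := t ^ 3 / ((t ^ 3 + 1) * (t ^ 3 + 8))

/-- The moments `∫₀^∞ f(t)^(n+1) dt`. -/
noncomputable def J (n : ℕ) : ℝ := ∫ t in Ioi (0 : ℝ), f t ^ (n + 1)

lemma f_pos {t : ℝ} (ht : 0 < t) : 0 < f t := by
  unfold f; positivity

lemma f_nonneg {t : ℝ} (ht : 0 ≤ t) : 0 ≤ f t := by
  unfold f; positivity

/-- `f ≤ 1/14`. -/
lemma f_le {t : ℝ} (ht : 0 ≤ t) : f t ≤ 1 / 14 := by
  unfold f
  have h3 : 0 ≤ t ^ 3 := by positivity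
  rw [div_le_div_iff₀ (by positivity) (by norm_num)]
  nlinarith [sq_nonneg (t ^ 3 - 5 / 2)]

lemma f_le_inv {t : ℝ} (ht : 0 ≤ t) : f t ≤ (1 + t ^ 2)⁻¹ := by
  unfold f
  rw [inv_eq_one_div, div_le_div_iff₀ (by positivity) (by positivity)]
  have h1 : 0 ≤ t ^ 3 := by positivity
  have h2 : 0 ≤ t ^ 5 := by positivity
  nlinarith [sq_nonneg (t ^ 3 - t ^ 2), sq_nonneg (t ^ 2 - 1), sq_nonneg (t ^ 3 - 1),
    mul_nonneg ht (sq_nonneg (t ^ 2 - t)), sq_nonneg (t^2), sq_nonneg (t^3 - t^2/2),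
    mul_nonneg h1 (sq_nonneg (t-1))]

lemma f_measurable : Measurable f := by
  unfold f; fun_prop

lemma integrableOn_of_bound (g : ℝ → ℝ) (hg : Measurable g) (C : ℝ)
    (hb : ∀ t : ℝ, 0 < t → |g t| ≤ C * (1 + t ^ 2)⁻¹) : IntegrableOn g (Ioi 0) := by
  have h1 : IntegrableOn (fun t : ℝ => C * (1 + t ^ 2)⁻¹) (Ioi 0) :=
    (integrable_inv_one_add_sq.const_mul C).integrableOn
  refine Integrable.mono' h1 hg.aestronglyMeasurable ?_
  refine (ae_restrict_iff' measurableSet_Ioi).2 (ae_of_all _ ?_)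
  intro t ht
  simpa [Real.norm_eq_abs] using hb t ht

lemma f_pow_integrable (n : ℕ) : IntegrableOn (fun t => f t ^ (n + 1)) (Ioi 0) := by
  refine integrableOn_of_bound _ (f_measurable.pow_const _) 1 ?_
  intro t ht
  have h0 := f_nonneg ht.le
  have h1 : f t ≤ 1 := (f_le ht.le).trans (by norm_num)
  rw [abs_of_nonneg (by positivity), one_mul]
  calc f t ^ (n + 1) ≤ f t ^ 1 := pow_le_pow_of_le_one h0 h1 (by omega)
    _ = f t := pow_one _
    _ ≤ _ := f_le_inv ht.le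

lemma J_pos (n : ℕ) : 0 < J n := by
  unfold J
  rw [setIntegral_pos_iff_support_of_nonneg_ae]
  · have : Function.support (fun t => f t ^ (n + 1)) ∩ Ioi 0 = Ioi (0 : ℝ) := by
      ext t
      simp only [mem_inter_iff, Function.mem_support, mem_Ioi, and_iff_right_iff_imp]
      intro ht
      have := f_pos ht
      positivity
    rw [this]
    simp
  · refine (ae_restrict_iff' measurableSet_Ioi).2 (ae_of_all _ ?_)
    intro t ht
    have := f_pos ht
    simp only [Pi.zero_apply]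
    positivity
  · exact f_pow_integrable n

lemma J_succ_le (n : ℕ) : J (n + 1) ≤ 1 / 14 * J n := by
  unfold J
  rw [← integral_const_mul]
  refine setIntegral_mono_on (f_pow_integrable _) ((f_pow_integrable _).const_mul _)
    measurableSet_Ioi ?_
  intro t ht
  have h0 := f_nonneg (le_of_lt ht)
  have h1 := f_le (le_of_lt ht)
  have h2 : 0 ≤ f t ^ (n + 1) := by positivity
  calc f t ^ (n + 1 + 1) = f t * f t ^ (n + 1) := by ring
    _ ≤ 1 / 14 * f t ^ (n + 1) := mul_le_mul_of_nonneg_right h1 h2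

/-- log-convexity of the moments -/
lemma J_logconvex (n : ℕ) : J (n + 1) ^ 2 ≤ J n * J (n + 2) := by
  have key : ∀ c : ℝ, 0 ≤ J (n + 2) - 2 * c * J (n + 1) + c ^ 2 * J n := by
    intro c
    have h : J (n + 2) - 2 * c * J (n + 1) + c ^ 2 * J n =
        ∫ t in Ioi (0 : ℝ), f t ^ (n + 1) * (f t - c) ^ 2 := by
      unfold J
      rw [← integral_const_mul, ← integral_const_mul, ← integral_sub, ← integral_add]
      · refine integral_congr_ae (ae_of_all _ fun t => ?_)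
        simp only
        ring
      · exact (f_pow_integrable (n + 2)).sub ((f_pow_integrable (n + 1)).const_mul _)
      · exact (f_pow_integrable n).const_mul _
      · exact f_pow_integrable (n + 2)
      · exact (f_pow_integrable (n + 1)).const_mul _
    rw [h]
    refine setIntegral_nonneg measurableSet_Ioi fun t ht => ?_
    have := f_nonneg (le_of_lt ht)
    positivity
  have h0 := J_pos n
  have h1 := key (J (n + 1) / J n)
  have h2 : J (n + 2) - 2 * (J (n + 1) / J n) * J (n + 1) + (J (n + 1) / J n) ^ 2 * J n =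
      (J n * J (n + 2) - J (n + 1) ^ 2) / J n := by
    field_simp
    ring
  rw [h2] at h1
  have h3 := (div_nonneg_iff.1 h1)
  rcases h3 with h3 | h3
  · linarith [h3.1]
  · linarith [h3.2]


/-- The primitive used for the recurrence. -/
noncomputable def F (n : ℕ) (t : ℝ) : ℝ :=
  t * (-(3 * n + 4) * (t ^ 3) ^ 2 - 9 * t ^ 3 + 8 * (3 * n + 2)) / ((t ^ 3 + 1) * (t ^ 3 + 8)) *
    f t ^ (n + 1)

lemma hasDerivAt_f {t : ℝ} (ht : 0 ≤ t) :
    HasDerivAt f (3 * t ^ 2 * (8 - (t ^ 3) ^ 2) / ((t ^ 3 + 1) * (t ^ 3 + 8)) ^ 2) t := by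
  have h3 : 0 ≤ t ^ 3 := by positivity
  have hQ : (t ^ 3 + 1) * (t ^ 3 + 8) ≠ 0 := by positivity
  have h1 : HasDerivAt (fun t : ℝ => t ^ 3) (3 * t ^ 2) t := by
    simpa using hasDerivAt_pow 3 t
  have h2 := h1.div ((h1.add_const 1).mul (h1.add_const 8)) hQ
  refine h2.congr_deriv ?_
  simp only [Pi.mul_apply]
  congr 1
  ring

lemma hasDerivAt_F (n : ℕ) {t : ℝ} (ht : 0 ≤ t) :
    HasDerivAt (F n) (441 * (n + 1) * (n + 2) * f t ^ (n + 2 + 1)
      - 81 * (n + 1) * (2 * n + 3) * f t ^ (n + 1 + 1)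
      + (3 * n + 2) * (3 * n + 4) * f t ^ (n + 1)) t := by
  have h3 : 0 ≤ t ^ 3 := by positivity
  have hQ : (t ^ 3 + 1) * (t ^ 3 + 8) ≠ 0 := by positivity
  have hQ1 : (t ^ 3 + 1) ≠ 0 := by positivity
  have hQ8 : (t ^ 3 + 8) ≠ 0 := by positivity
  have h1 : HasDerivAt (fun t : ℝ => t ^ 3) (3 * t ^ 2) t := by
    simpa using hasDerivAt_pow 3 t
  have hf := (hasDerivAt_f ht).pow (n + 1)
  have hN : HasDerivAt (fun t : ℝ => t * (-(3 * n + 4) * (t ^ 3) ^ 2 - 9 * t ^ 3 + 8 * (3 * n + 2)))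
      (1 * (-(3 * n + 4) * (t ^ 3) ^ 2 - 9 * t ^ 3 + 8 * (3 * n + 2)) +
        t * (-(3 * n + 4) * (2 * (t ^ 3) * (3 * t ^ 2)) - 9 * (3 * t ^ 2))) t := by
    have ha := ((h1.pow 2).const_mul (-(3 * (n:ℝ) + 4))).sub (h1.const_mul 9)
    have hb := (hasDerivAt_id t).mul (ha.add_const (8 * (3 * (n:ℝ) + 2)))
    refine hb.congr_deriv ?_
    simp
  have hR := hN.div ((h1.add_const 1).mul (h1.add_const 8)) hQ
  have hF := hR.mul hf
  refine hF.congr_deriv ?_
  simp only [Nat.add_sub_cancel, Pi.mul_apply, Pi.div_apply, Pi.pow_apply]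
  have hfdef : f t = t ^ 3 / ((t ^ 3 + 1) * (t ^ 3 + 8)) := rfl
  have e1 : f t ^ (n + 2 + 1) = f t ^ n * (f t) ^ 3 := by ring
  have e2 : f t ^ (n + 1 + 1) = f t ^ n * (f t) ^ 2 := by ring
  have e3 : f t ^ (n + 1) = f t ^ n * (f t) := by ring
  rw [e1, e2, e3]
  generalize f t ^ n = Z
  rw [hfdef]
  push_cast
  field_simp
  ring


lemma tendsto_F (n : ℕ) : Tendsto (F n) atTop (nhds 0) := by
  have hlim : Tendsto (fun t : ℝ => (27 * n + 29) * t⁻¹) atTop (nhds 0) := by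
    simpa using (tendsto_inv_atTop_zero (𝕜 := ℝ)).const_mul (27 * (n:ℝ) + 29)
  refine squeeze_zero_norm' ?_ hlim
  filter_upwards [eventually_ge_atTop 1] with t ht
  have ht0 : 0 < t := by linarith
  have hs : 1 ≤ t ^ 3 := one_le_pow₀ ht
  have hQ : 0 < (t ^ 3 + 1) * (t ^ 3 + 8) := by positivity
  have hf0 := f_nonneg ht0.le
  have hf1 := f_le ht0.le
  have hf2 : f t ≤ (t ^ 2)⁻¹ := (f_le_inv ht0.le).trans (by
    apply inv_anti₀ (by positivity) (by linarith))
  have hpow : f t ^ (n + 1) ≤ (t ^ 2)⁻¹ := by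
    calc f t ^ (n + 1) ≤ f t ^ 1 :=
          pow_le_pow_of_le_one hf0 (hf1.trans (by norm_num)) (by omega)
      _ = f t := pow_one _
      _ ≤ _ := hf2
  have hN : |(-(3 * (n:ℝ) + 4) * (t ^ 3) ^ 2 - 9 * t ^ 3 + 8 * (3 * n + 2))| ≤
      (27 * n + 29) * ((t ^ 3 + 1) * (t ^ 3 + 8)) := by
    have hn : (0:ℝ) ≤ n := Nat.cast_nonneg n
    generalize t ^ 3 = s at hs
    rw [abs_le]
    constructor
    · nlinarith [mul_nonneg hn (sub_nonneg.2 hs), mul_nonneg hn (sq_nonneg s),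
        mul_nonneg hn (mul_nonneg (sub_nonneg.2 hs) (sub_nonneg.2 hs))]
    · nlinarith [mul_nonneg hn (sub_nonneg.2 hs), mul_nonneg hn (sq_nonneg s),
        mul_nonneg hn (mul_nonneg (sub_nonneg.2 hs) (sub_nonneg.2 hs))]
  rw [Real.norm_eq_abs]
  unfold F
  rw [abs_mul, abs_div, abs_mul, abs_of_pos ht0, abs_of_pos hQ,
    abs_of_nonneg (pow_nonneg hf0 _)]
  have h1 : t * |(-(3 * (n:ℝ) + 4) * (t ^ 3) ^ 2 - 9 * t ^ 3 + 8 * (3 * n + 2))| /
      ((t ^ 3 + 1) * (t ^ 3 + 8)) ≤ t * (27 * n + 29) := by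
    rw [div_le_iff₀ hQ]
    calc _ ≤ t * ((27 * n + 29) * ((t ^ 3 + 1) * (t ^ 3 + 8))) :=
          mul_le_mul_of_nonneg_left hN ht0.le
      _ = _ := by ring
  calc _ ≤ t * (27 * n + 29) * (t ^ 2)⁻¹ := by
        apply mul_le_mul h1 hpow (by positivity) (by positivity)
    _ = (27 * n + 29) * t⁻¹ := by field_simp

lemma J_rec (n : ℕ) :
    441 * (n + 1) * (n + 2) * J (n + 2) - 81 * (n + 1) * (2 * n + 3) * J (n + 1)
      + (3 * n + 2) * (3 * n + 4) * J n = 0 := by
  have h := integral_Ioi_of_hasDerivAt_of_tendsto' (a := (0:ℝ)) (f := F n)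
    (fun x hx => hasDerivAt_F n (t := x) hx)
    ((((f_pow_integrable (n + 2)).const_mul _).sub ((f_pow_integrable (n + 1)).const_mul _)).add
      ((f_pow_integrable n).const_mul _)) (tendsto_F n)
  have h0 : F n 0 = 0 := by simp [F]
  rw [h0, sub_zero] at h
  refine Eq.trans ?_ h
  unfold J
  rw [← integral_const_mul, ← integral_const_mul, ← integral_const_mul, ← integral_sub,
    ← integral_add]
  · exact ((f_pow_integrable (n + 2)).const_mul _).sub ((f_pow_integrable (n + 1)).const_mul _)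
  · exact (f_pow_integrable n).const_mul _
  · exact (f_pow_integrable (n + 2)).const_mul _
  · exact (f_pow_integrable (n + 1)).const_mul _

/-! ### The base ratio -/

/-- `t³/(t³+1)²` -/
noncomputable def g (t : ℝ) : ℝ := t ^ 3 / (t ^ 3 + 1) ^ 2

/-- `t³/(t³+8)²` -/
noncomputable def g8 (t : ℝ) : ℝ := t ^ 3 / (t ^ 3 + 8) ^ 2

lemma g8_eq (t : ℝ) : g8 (2 * t) = (1 / 8) * g t := by
  unfold g8 g
  have : ((2 * t) ^ 3 + 8) = 8 * (t ^ 3 + 1) := by ring
  rw [this]
  by_cases h : t ^ 3 + 1 = 0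
  · simp [h]
  · field_simp
    ring

lemma g_integrable : IntegrableOn g (Ioi 0) := by
  refine integrableOn_of_bound _ (by unfold g; fun_prop) 2 ?_
  intro t ht
  unfold g
  have h3 : 0 < t ^ 3 := by positivity
  rw [abs_of_nonneg (by positivity), ← div_eq_mul_inv, div_le_div_iff₀ (by positivity)
    (by positivity)]
  nlinarith [sq_nonneg (t ^ 3 - t ^ 2), sq_nonneg (t ^ 2 - 1), sq_nonneg (t ^ 3 - 1),
    mul_nonneg ht.le (sq_nonneg (t ^ 2 - t)), sq_nonneg (t^2),
    mul_nonneg h3.le (sq_nonneg (t-1))]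

lemma g8_integrable : IntegrableOn g8 (Ioi 0) := by
  refine integrableOn_of_bound _ (by unfold g8; fun_prop) 2 ?_
  intro t ht
  unfold g8
  have h3 : 0 < t ^ 3 := by positivity
  rw [abs_of_nonneg (by positivity), ← div_eq_mul_inv, div_le_div_iff₀ (by positivity)
    (by positivity)]
  nlinarith [sq_nonneg (t ^ 3 - t ^ 2), sq_nonneg (t ^ 2 - 1), sq_nonneg (t ^ 3 - 1),
    mul_nonneg ht.le (sq_nonneg (t ^ 2 - t)), sq_nonneg (t^2),
    mul_nonneg h3.le (sq_nonneg (t-1))]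

/-- scaling: `∫ t³/(t³+8)² = (1/4) ∫ t³/(t³+1)²`. -/
lemma g8_scale : ∫ t in Ioi (0 : ℝ), g8 t = (1 / 4) * ∫ t in Ioi (0 : ℝ), g t := by
  have h := integral_comp_mul_left_Ioi g8 0 (b := 2) (by norm_num)
  simp only [g8_eq, mul_zero, smul_eq_mul] at h
  rw [integral_const_mul] at h
  linarith

lemma tendsto_G : Tendsto (fun t : ℝ => t * f t) atTop (nhds 0) := by
  refine squeeze_zero_norm' ?_ (tendsto_inv_atTop_zero (𝕜 := ℝ))
  filter_upwards [eventually_ge_atTop 1] with t ht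
  have ht0 : 0 < t := by linarith
  have hf0 := f_nonneg ht0.le
  have hf2 : f t ≤ (t ^ 2)⁻¹ := (f_le_inv ht0.le).trans (by
    apply inv_anti₀ (by positivity) (by linarith))
  rw [Real.norm_eq_abs, abs_of_nonneg (by positivity)]
  calc t * f t ≤ t * (t ^ 2)⁻¹ := mul_le_mul_of_nonneg_left hf2 ht0.le
    _ = t⁻¹ := by field_simp

lemma hasDerivAt_G {t : ℝ} (ht : 0 ≤ t) :
    HasDerivAt (fun t : ℝ => 7 * (t * f t)) (7 * f t + 3 * g t - 24 * g8 t) t := by
  have h3 : 0 ≤ t ^ 3 := by positivity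
  have hQ1 : (t ^ 3 + 1) ≠ 0 := by positivity
  have hQ8 : (t ^ 3 + 8) ≠ 0 := by positivity
  have h := ((hasDerivAt_id t).mul (hasDerivAt_f ht)).const_mul 7
  refine h.congr_deriv ?_
  unfold f g g8
  simp only [id]
  field_simp
  ring

/-- `7 J 0 = 3 ∫ g`. -/
lemma J_zero_eq : 7 * J 0 = 3 * ∫ t in Ioi (0 : ℝ), g t := by
  have hJ : J 0 = ∫ t in Ioi (0 : ℝ), f t := by
    unfold J; simp
  have hfi : IntegrableOn f (Ioi 0) := by simpa using f_pow_integrable 0
  have h := integral_Ioi_of_hasDerivAt_of_tendsto' (a := (0:ℝ))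
    (fun x hx => hasDerivAt_G (t := x) hx)
    (((hfi.const_mul 7).add (g_integrable.const_mul 3)).sub (g8_integrable.const_mul 24))
    (by simpa using tendsto_G.const_mul 7)
  have hs : ∫ t in Ioi (0:ℝ), (7 * f t + 3 * g t - 24 * g8 t) =
      7 * (∫ t in Ioi (0:ℝ), f t) + 3 * (∫ t in Ioi (0:ℝ), g t)
        - 24 * (∫ t in Ioi (0:ℝ), g8 t) := by
    rw [integral_sub, integral_add, integral_const_mul, integral_const_mul, integral_const_mul]
    · exact hfi.const_mul 7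
    · exact g_integrable.const_mul 3
    · exact (hfi.const_mul 7).add (g_integrable.const_mul 3)
    · exact g8_integrable.const_mul 24
  rw [hs, g8_scale] at h
  rw [hJ]
  have h0 : (7:ℝ) * (0 * f 0) = 0 := by ring
  rw [h0] at h
  linarith

/-- `J 1 = (2/49) J 0`. -/
lemma J_one_eq : J 1 = 2 / 49 * J 0 := by
  have hJ : J 0 = ∫ t in Ioi (0 : ℝ), f t := by
    unfold J; simp
  have hfi : IntegrableOn f (Ioi 0) := by simpa using f_pow_integrable 0
  have h1 : J 1 = ∫ t in Ioi (0:ℝ), (9 / 49 * f t - 1 / 49 * g t - 8 / 49 * g8 t) := by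
    unfold J
    refine setIntegral_congr_fun measurableSet_Ioi ?_
    intro t ht
    have ht0 : 0 < t := ht
    have hQ1 : (t ^ 3 + 1) ≠ 0 := by positivity
    have hQ8 : (t ^ 3 + 8) ≠ 0 := by positivity
    show f t ^ 2 = _
    unfold f g g8
    simp only
    field_simp
    ring
  have hs : ∫ t in Ioi (0:ℝ), (9 / 49 * f t - 1 / 49 * g t - 8 / 49 * g8 t) =
      9 / 49 * (∫ t in Ioi (0:ℝ), f t) - 1 / 49 * (∫ t in Ioi (0:ℝ), g t)
        - 8 / 49 * (∫ t in Ioi (0:ℝ), g8 t) := by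
    rw [integral_sub, integral_sub, integral_const_mul, integral_const_mul, integral_const_mul]
    · exact hfi.const_mul _
    · exact g_integrable.const_mul _
    · exact (hfi.const_mul _).sub (g_integrable.const_mul _)
    · exact g8_integrable.const_mul _
  rw [h1, hs, g8_scale, ← hJ]
  have := J_zero_eq
  linarith


/-! ### The rational solutions -/

/-- The solution of the recurrence with initial values `x, y`. -/
def sol (x y : ℚ) : ℕ → ℚ
  | 0 => x
  | 1 => y
  | (n + 2) => (81 * (n + 1) * (2 * n + 3) * sol x y (n + 1)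
      - (3 * n + 2) * (3 * n + 4) * sol x y n) / (441 * (n + 1) * (n + 2))

lemma sol_rec (x y : ℚ) (n : ℕ) :
    sol x y (n + 2) = (81 * (n + 1) * (2 * n + 3) * sol x y (n + 1)
      - (3 * n + 2) * (3 * n + 4) * sol x y n) / (441 * (n + 1) * (n + 2)) := by
  rw [sol]

/-- the minimal solution is proportional to `J`. -/
lemma sol_J (n : ℕ) : (sol 1 (2 / 49) n : ℝ) * J 0 = J n ∧
    (sol 1 (2 / 49) (n + 1) : ℝ) * J 0 = J (n + 1) := by
  induction n with
  | zero =>
    refine ⟨by simp [sol], ?_⟩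
    rw [J_one_eq]
    simp [sol]
  | succ n ih =>
    refine ⟨ih.2, ?_⟩
    have h := J_rec n
    rw [← ih.1, ← ih.2] at h
    rw [show n + 1 + 1 = n + 2 from rfl, sol_rec]
    push_cast
    have h1 : ((n:ℝ) + 1) ≠ 0 := by positivity
    have h2 : ((n:ℝ) + 2) ≠ 0 := by positivity
    field_simp
    linarith

lemma quad_root {L : ℝ} (h : 49 * L ^ 2 - 18 * L + 1 = 0) :
    L = (9 - 4 * Real.sqrt 2) / 49 ∨ L = (9 + 4 * Real.sqrt 2) / 49 := by
  have h2 : Real.sqrt 2 ^ 2 = 2 := Real.sq_sqrt (by norm_num)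
  have h3 : (L - (9 - 4 * Real.sqrt 2) / 49) * (L - (9 + 4 * Real.sqrt 2) / 49) = 0 := by
    nlinarith
  rcases mul_eq_zero.1 h3 with h4 | h4
  · left; linarith
  · right; linarith

lemma sqrt_two_bounds : (1.4 : ℝ) < Real.sqrt 2 ∧ Real.sqrt 2 < 1.5 := by
  constructor
  · rw [Real.lt_sqrt (by norm_num)]; norm_num
  · rw [Real.sqrt_lt' (by norm_num)]; norm_num

/-- limit of the coefficient `b`. -/
lemma tendsto_b : Tendsto (fun n : ℕ => 9 * (2 * (n:ℝ) + 3) / (49 * (n + 2))) atTop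
    (nhds (18 / 49)) := by
  have h : (fun n : ℕ => 9 * (2 * (n:ℝ) + 3) / (49 * (n + 2))) =
      fun n : ℕ => 18 / 49 - 9 / 49 * (1 / ((n:ℝ) + 1 + 1)) := by
    funext n
    have h2 : ((n:ℝ) + 2) ≠ 0 := by positivity
    have h3 : ((n:ℝ) + 1 + 1) ≠ 0 := by positivity
    field_simp
    ring
  rw [h]
  have h1 : Tendsto (fun n : ℕ => 1 / ((n:ℝ) + 1 + 1)) atTop (nhds 0) := by
    have := (tendsto_one_div_add_atTop_nhds_zero_nat (𝕜 := ℝ)).comp (tendsto_add_atTop_nat 1)
    refine this.congr fun n => ?_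
    simp
  simpa using (h1.const_mul (9 / 49)).const_sub (18 / 49)

/-- limit of the coefficient `a`. -/
lemma tendsto_a : Tendsto (fun n : ℕ => (3 * (n:ℝ) + 2) * (3 * n + 4) / (441 * (n + 1) * (n + 2)))
    atTop (nhds (1 / 49)) := by
  have h : (fun n : ℕ => (3 * (n:ℝ) + 2) * (3 * n + 4) / (441 * (n + 1) * (n + 2))) =
      fun n : ℕ => (3 - 1 / ((n:ℝ) + 1)) * (3 - 2 * (1 / ((n:ℝ) + 1 + 1))) / 441 := by
    funext n
    have h1 : ((n:ℝ) + 1) ≠ 0 := by positivity
    have h2 : ((n:ℝ) + 2) ≠ 0 := by positivity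
    have h3 : ((n:ℝ) + 1 + 1) ≠ 0 := by positivity
    field_simp
    ring
  rw [h]
  have h0 : Tendsto (fun n : ℕ => 1 / ((n:ℝ) + 1)) atTop (nhds 0) :=
    tendsto_one_div_add_atTop_nhds_zero_nat (𝕜 := ℝ)
  have h1 : Tendsto (fun n : ℕ => 1 / ((n:ℝ) + 1 + 1)) atTop (nhds 0) := by
    have := (tendsto_one_div_add_atTop_nhds_zero_nat (𝕜 := ℝ)).comp (tendsto_add_atTop_nat 1)
    refine this.congr fun n => ?_
    simp
  have := ((h0.const_sub 3).mul ((h1.const_mul 2).const_sub 3)).div_const 441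
  convert this using 2
  norm_num

/-- If a positive real sequence satisfies the recurrence and its ratios converge, then the limit
is a root of the characteristic polynomial. -/
lemma limit_quad (u : ℕ → ℝ) (hu : ∀ n, 0 < u n)
    (hrec : ∀ n : ℕ, u (n + 2) = 9 * (2 * (n:ℝ) + 3) / (49 * (n + 2)) * u (n + 1)
      - (3 * (n:ℝ) + 2) * (3 * n + 4) / (441 * (n + 1) * (n + 2)) * u n)
    (L : ℝ) (hL : Tendsto (fun n => u (n + 1) / u n) atTop (nhds L)) :
    49 * L ^ 2 - 18 * L + 1 = 0 := by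
  have h1 : Tendsto (fun n => u (n + 2) / u (n + 1)) atTop (nhds L) :=
    hL.comp (tendsto_add_atTop_nat 1)
  have h2 : ∀ n, u (n + 2) / u (n + 1) * (u (n + 1) / u n) =
      9 * (2 * (n:ℝ) + 3) / (49 * (n + 2)) * (u (n + 1) / u n)
      - (3 * (n:ℝ) + 2) * (3 * n + 4) / (441 * (n + 1) * (n + 2)) := by
    intro n
    have ha := (hu n).ne'
    have hb := (hu (n + 1)).ne'
    rw [div_mul_div_cancel₀ hb, hrec n]
    generalize 9 * (2 * (n:ℝ) + 3) / (49 * (n + 2)) = B
    generalize (3 * (n:ℝ) + 2) * (3 * n + 4) / (441 * (n + 1) * (n + 2)) = A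
    field_simp
  have h3 := h1.mul hL
  have h4 := (tendsto_b.mul hL).sub tendsto_a
  have h5 := tendsto_nhds_unique (h3.congr h2) h4
  nlinarith


/-- the ratios of the minimal solution -/
lemma J_ratio_tendsto : Tendsto (fun n => J (n + 1) / J n) atTop
    (nhds ((9 - 4 * Real.sqrt 2) / 49)) := by
  have hmono : Monotone (fun n => J (n + 1) / J n) := by
    refine monotone_nat_of_le_succ fun n => ?_
    rw [div_le_div_iff₀ (J_pos n) (J_pos (n + 1))]
    have := J_logconvex n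
    have e : J (n + 1 + 1) = J (n + 2) := rfl
    rw [e]
    nlinarith
  have hbd : ∀ n, J (n + 1) / J n ≤ 1 / 14 := by
    intro n
    rw [div_le_iff₀ (J_pos n)]
    exact J_succ_le n
  have hlim := tendsto_atTop_ciSup hmono ⟨1 / 14, by rintro x ⟨n, rfl⟩; exact hbd n⟩
  set L := ⨆ n, J (n + 1) / J n with hLdef
  have hLle : L ≤ 1 / 14 := ciSup_le hbd
  have hq := limit_quad J J_pos (by
    intro n
    have h := J_rec n
    have h1 : ((n:ℝ) + 1) ≠ 0 := by positivity
    have h2 : ((n:ℝ) + 2) ≠ 0 := by positivity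
    field_simp
    linarith) L hlim
  rcases quad_root hq with h | h
  · rw [← h]; exact hlim
  · exfalso
    have := sqrt_two_bounds
    rw [h] at hLle
    linarith [this.1]

/-- properties of the dominant solution -/
lemma W_props (n : ℕ) : 0 < (sol 5 1 n : ℝ) ∧ 0 < (sol 5 1 (n + 1) : ℝ) ∧
    1 / 5 ≤ (sol 5 1 (n + 1) : ℝ) / sol 5 1 n ∧
    (sol 5 1 (n + 1) : ℝ) / sol 5 1 n ≤ (sol 5 1 (n + 2) : ℝ) / sol 5 1 (n + 1) := by
  induction n with
  | zero =>
    simp only [sol]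
    norm_num
  | succ n ih =>
    obtain ⟨h0, h1, h2, h3⟩ := ih
    have e3 : n + 1 + 2 = n + 3 := rfl
    have e2 : n + 1 + 1 = n + 2 := rfl
    rw [e3, e2]
    have hrec2 : (sol 5 1 (n + 2) : ℝ) = 9 * (2 * (n:ℝ) + 3) / (49 * (n + 2)) * sol 5 1 (n + 1)
        - (3 * (n:ℝ) + 2) * (3 * n + 4) / (441 * (n + 1) * (n + 2)) * sol 5 1 n := by
      rw [sol_rec]
      push_cast
      have h1 : ((n:ℝ) + 1) ≠ 0 := by positivity
      have h2 : ((n:ℝ) + 2) ≠ 0 := by positivity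
      field_simp
      ring
    have hrec3 : (sol 5 1 (n + 3) : ℝ) = 9 * (2 * (n:ℝ) + 5) / (49 * (n + 3)) * sol 5 1 (n + 2)
        - (3 * (n:ℝ) + 5) * (3 * n + 7) / (441 * (n + 2) * (n + 3)) * sol 5 1 (n + 1) := by
      rw [show n + 3 = (n + 1) + 2 from rfl, sol_rec]
      push_cast
      have h1 : ((n:ℝ) + 1 + 1) ≠ 0 := by positivity
      have h2 : ((n:ℝ) + 1 + 2) ≠ 0 := by positivity
      have h3 : ((n:ℝ) + 2) ≠ 0 := by positivity
      have h4 : ((n:ℝ) + 3) ≠ 0 := by positivity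
      field_simp
      ring
    generalize (sol 5 1 (n + 3) : ℝ) = u3 at *
    generalize (sol 5 1 (n + 2) : ℝ) = u2 at *
    generalize (sol 5 1 (n + 1) : ℝ) = u1 at *
    generalize (sol 5 1 n : ℝ) = u0 at *
    have hn : (0:ℝ) ≤ n := Nat.cast_nonneg n
    have h2pos : 0 < u2 := by
      have : 1 / 5 ≤ u2 / u1 := h2.trans h3
      rw [le_div_iff₀ h1] at this
      linarith
    refine ⟨h1, h2pos, h2.trans h3, ?_⟩
    -- ratios
    set r1 := u1 / u0 with hr1
    set r2 := u2 / u1 with hr2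
    have hr2' : r2 = 9 * (2 * (n:ℝ) + 3) / (49 * (n + 2))
        - (3 * (n:ℝ) + 2) * (3 * n + 4) / (441 * (n + 1) * (n + 2)) / r1 := by
      rw [hr2, hrec2, hr1]
      field_simp
    have hr3' : u3 / u2 = 9 * (2 * (n:ℝ) + 5) / (49 * (n + 3))
        - (3 * (n:ℝ) + 5) * (3 * n + 7) / (441 * (n + 2) * (n + 3)) / r2 := by
      rw [hrec3, hr2]
      field_simp
    have hr1pos : 0 < r1 := by linarith
    have hr2pos : 0 < r2 := by linarith
    have hA : (3 * (n:ℝ) + 2) * (3 * n + 4) / (441 * (n + 1) * (n + 2)) / r2 ≤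
        (3 * (n:ℝ) + 2) * (3 * n + 4) / (441 * (n + 1) * (n + 2)) / r1 :=
      div_le_div_of_nonneg_left (by positivity) hr1pos h3
    have hr2inv : 1 / r2 ≤ 5 := by
      rw [div_le_iff₀ hr2pos]; linarith
    have hdiff : 0 ≤ 9 * (2 * (n:ℝ) + 5) / (49 * (n + 3)) - 9 * (2 * (n:ℝ) + 3) / (49 * (n + 2)) -
        5 * ((3 * (n:ℝ) + 5) * (3 * n + 7) / (441 * (n + 2) * (n + 3)) -
        (3 * (n:ℝ) + 2) * (3 * n + 4) / (441 * (n + 1) * (n + 2))) := by
      have : 9 * (2 * (n:ℝ) + 5) / (49 * (n + 3)) - 9 * (2 * (n:ℝ) + 3) / (49 * (n + 2)) -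
        5 * ((3 * (n:ℝ) + 5) * (3 * n + 7) / (441 * (n + 2) * (n + 3)) -
        (3 * (n:ℝ) + 2) * (3 * n + 4) / (441 * (n + 1) * (n + 2))) =
        (36 * n + 26) / (441 * (n + 1) * (n + 2) * (n + 3)) := by
        have h1 : ((n:ℝ) + 1) ≠ 0 := by positivity
        have h3 : ((n:ℝ) + 2) ≠ 0 := by positivity
        have h4 : ((n:ℝ) + 3) ≠ 0 := by positivity
        field_simp
        ring
      rw [this]
      positivity
    have hdA : 0 ≤ (3 * (n:ℝ) + 5) * (3 * n + 7) / (441 * (n + 2) * (n + 3)) -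
        (3 * (n:ℝ) + 2) * (3 * n + 4) / (441 * (n + 1) * (n + 2)) := by
      have : (3 * (n:ℝ) + 5) * (3 * n + 7) / (441 * (n + 2) * (n + 3)) -
        (3 * (n:ℝ) + 2) * (3 * n + 4) / (441 * (n + 1) * (n + 2)) =
        (9 * n + 11) / (441 * (n + 1) * (n + 2) * (n + 3)) := by
        have h1 : ((n:ℝ) + 1) ≠ 0 := by positivity
        have h3 : ((n:ℝ) + 2) ≠ 0 := by positivity
        have h4 : ((n:ℝ) + 3) ≠ 0 := by positivity
        field_simp
        ring
      rw [this]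
      positivity
    rw [hr3']
    have hmul := mul_le_mul_of_nonneg_left hr2inv hdA
    have e : ∀ x : ℝ, x / r2 = x * (1 / r2) := fun x => by ring
    rw [e] at hA
    rw [e]
    linarith

lemma W_ratio_tendsto : Tendsto (fun n => (sol 5 1 (n + 1) : ℝ) / sol 5 1 n) atTop
    (nhds ((9 + 4 * Real.sqrt 2) / 49)) := by
  have hrec : ∀ n : ℕ, (sol 5 1 (n + 2) : ℝ) =
      9 * (2 * (n:ℝ) + 3) / (49 * (n + 2)) * sol 5 1 (n + 1)
        - (3 * (n:ℝ) + 2) * (3 * n + 4) / (441 * (n + 1) * (n + 2)) * sol 5 1 n := by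
    intro n
    rw [sol_rec]
    push_cast
    have h1 : ((n:ℝ) + 1) ≠ 0 := by positivity
    have h2 : ((n:ℝ) + 2) ≠ 0 := by positivity
    field_simp
    ring
  have hmono : Monotone (fun n => (sol 5 1 (n + 1) : ℝ) / sol 5 1 n) :=
    monotone_nat_of_le_succ fun n => (W_props n).2.2.2
  have hbd : ∀ n, (sol 5 1 (n + 1) : ℝ) / sol 5 1 n ≤ 18 / 49 := by
    intro n
    refine (W_props n).2.2.2.trans ?_
    have h0 := (W_props n).1
    have h1 := (W_props n).2.1
    rw [div_le_iff₀ h1, hrec n]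
    have hb : 9 * (2 * (n:ℝ) + 3) / (49 * (n + 2)) ≤ 18 / 49 := by
      rw [div_le_div_iff₀ (by positivity) (by norm_num)]
      have hn : (0:ℝ) ≤ n := Nat.cast_nonneg n
      linarith
    have h2 := mul_le_mul_of_nonneg_right hb h1.le
    have h3 : 0 ≤ (3 * (n:ℝ) + 2) * (3 * n + 4) / (441 * (n + 1) * (n + 2)) * sol 5 1 n := by
      positivity
    linarith
  have hlim := tendsto_atTop_ciSup hmono ⟨18 / 49, by rintro x ⟨n, rfl⟩; exact hbd n⟩
  set L := ⨆ n, (sol 5 1 (n + 1) : ℝ) / sol 5 1 n with hLdef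
  have hLge : 1 / 5 ≤ L := ge_of_tendsto' hlim fun n => (W_props n).2.2.1
  have hq := limit_quad (fun n => (sol 5 1 n : ℝ)) (fun n => (W_props n).1) hrec L hlim
  rcases quad_root hq with h | h
  · exfalso
    have := sqrt_two_bounds
    rw [h] at hLge
    linarith [this.1]
  · rw [← h]; exact hlim


/-! ### Rational function coefficients -/

lemma ratFunc_eval_div (p q : Polynomial ℚ) (x : ℚ) (hx : q.eval x ≠ 0) :
    RatFunc.eval (RingHom.id ℚ) x
      (algebraMap (Polynomial ℚ) (RatFunc ℚ) p / algebraMap (Polynomial ℚ) (RatFunc ℚ) q) =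
      p.eval x / q.eval x := by
  have hq : q ≠ 0 := by
    rintro rfl
    simp at hx
  set r := algebraMap (Polynomial ℚ) (RatFunc ℚ) p / algebraMap (Polynomial ℚ) (RatFunc ℚ) q
    with hr
  have h1 := (RatFunc.num_mul_eq_mul_denom_iff (x := r) hq).2 hr
  have h2 : r.denom ∣ q := RatFunc.denom_div_dvd p q
  have h3 : r.denom.eval x ≠ 0 := by
    obtain ⟨c, hc⟩ := h2
    intro h
    apply hx
    rw [hc, Polynomial.eval_mul, h, zero_mul]
  have h4 := congrArg (Polynomial.eval x) h1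
  rw [Polynomial.eval_mul, Polynomial.eval_mul] at h4
  unfold RatFunc.eval
  rw [Polynomial.eval₂_id, Polynomial.eval₂_id]
  rw [div_eq_div_iff h3 hx]
  exact h4

open Polynomial in
/-- numerator of the coefficient `a`. -/
noncomputable def pa : Polynomial ℚ := -(C 9 * (X - 1) ^ 2 - 1)

open Polynomial in
/-- denominator of the coefficient `a`. -/
noncomputable def qa : Polynomial ℚ := C 441 * X * (X - 1)

open Polynomial in
/-- numerator of the coefficient `b`. -/
noncomputable def pb : Polynomial ℚ := C 9 * (C 2 * X - 1)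

open Polynomial in
/-- denominator of the coefficient `b`. -/
noncomputable def qb : Polynomial ℚ := C 49 * X

/-- The rational function `a = -(9(n-1)²-1)/(441 n(n-1))`. -/
noncomputable def aR : RatFunc ℚ :=
  algebraMap (Polynomial ℚ) (RatFunc ℚ) pa / algebraMap (Polynomial ℚ) (RatFunc ℚ) qa

/-- The rational function `b = 9(2n-1)/(49 n)`. -/
noncomputable def bR : RatFunc ℚ :=
  algebraMap (Polynomial ℚ) (RatFunc ℚ) pb / algebraMap (Polynomial ℚ) (RatFunc ℚ) qb

lemma eval_aR (n : ℕ) : RatFunc.eval (RingHom.id ℚ) ((n + 2 : ℕ) : ℚ) aR =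
    -((3 * (n:ℚ) + 2) * (3 * n + 4) / (441 * (n + 1) * (n + 2))) := by
  have h1 : ((n:ℚ) + 1) ≠ 0 := by positivity
  have h2 : ((n:ℚ) + 2) ≠ 0 := by positivity
  have hq : qa.eval ((n + 2 : ℕ) : ℚ) = 441 * (n + 1) * (n + 2) := by
    simp only [qa, Polynomial.eval_mul, Polynomial.eval_C, Polynomial.eval_X,
      Polynomial.eval_sub, Polynomial.eval_one]
    push_cast
    ring
  have hp : pa.eval ((n + 2 : ℕ) : ℚ) = -((3 * (n:ℚ) + 2) * (3 * n + 4)) := by
    simp only [pa, Polynomial.eval_mul, Polynomial.eval_C, Polynomial.eval_X,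
      Polynomial.eval_sub, Polynomial.eval_one, Polynomial.eval_neg, Polynomial.eval_pow]
    push_cast
    ring
  unfold aR
  rw [ratFunc_eval_div _ _ _ (by rw [hq]; positivity), hp, hq, neg_div]

lemma eval_bR (n : ℕ) : RatFunc.eval (RingHom.id ℚ) ((n + 2 : ℕ) : ℚ) bR =
    9 * (2 * (n:ℚ) + 3) / (49 * (n + 2)) := by
  have h2 : ((n:ℚ) + 2) ≠ 0 := by positivity
  have hq : qb.eval ((n + 2 : ℕ) : ℚ) = 49 * (n + 2) := by
    simp only [qb, Polynomial.eval_mul, Polynomial.eval_C, Polynomial.eval_X]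
    push_cast
    ring
  have hp : pb.eval ((n + 2 : ℕ) : ℚ) = 9 * (2 * (n:ℚ) + 3) := by
    simp only [pb, Polynomial.eval_mul, Polynomial.eval_C, Polynomial.eval_X,
      Polynomial.eval_sub, Polynomial.eval_one]
    push_cast
    ring
  unfold bR
  rw [ratFunc_eval_div _ _ _ (by rw [hq]; positivity), hp, hq]

lemma sol_eq (x y : ℚ) (n : ℕ) : sol x y (n + 2) =
    RatFunc.eval (RingHom.id ℚ) ((n + 2 : ℕ) : ℚ) bR * sol x y (n + 1) +
    RatFunc.eval (RingHom.id ℚ) ((n + 2 : ℕ) : ℚ) aR * sol x y n := by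
  rw [eval_aR, eval_bR, sol_rec]
  have h1 : ((n:ℚ) + 1) ≠ 0 := by positivity
  have h2 : ((n:ℚ) + 2) ≠ 0 := by positivity
  field_simp
  ring

/-- The negation of the preceding statement: If rational-function coefficients a_n, b_n tend to α, β, the roots λ, Λ of x²−βx−α satisfy 0<∣λ∣<∣Λ∣, and two independent rational solutions of u_n=b_n u_{n−1}+a_n u_{n−2} have ratios tending to λ and Λ, then λ, Λ are rational. -/
theorem result :
    ¬ (∀ (a b : RatFunc ℚ) (α β lam Lam : ℝ) (v w : ℕ → ℚ),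
      Tendsto (fun n : ℕ => ((RatFunc.eval (RingHom.id ℚ) (n : ℚ) a : ℚ) : ℝ)) atTop (nhds α) →
      Tendsto (fun n : ℕ => ((RatFunc.eval (RingHom.id ℚ) (n : ℚ) b : ℚ) : ℝ)) atTop (nhds β) →
      lam + Lam = β →
      lam * Lam = -α →
      0 < |lam| →
      |lam| < |Lam| →
      (∀ᶠ n in atTop, v (n + 2) =
          RatFunc.eval (RingHom.id ℚ) ((n + 2 : ℕ) : ℚ) b * v (n + 1) +
          RatFunc.eval (RingHom.id ℚ) ((n + 2 : ℕ) : ℚ) a * v n) →
      (∀ᶠ n in atTop, w (n + 2) =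
          RatFunc.eval (RingHom.id ℚ) ((n + 2 : ℕ) : ℚ) b * w (n + 1) +
          RatFunc.eval (RingHom.id ℚ) ((n + 2 : ℕ) : ℚ) a * w n) →
      (∀ c d : ℚ, (∀ᶠ n in atTop, c * v n + d * w n = 0) → c = 0 ∧ d = 0) →
      Tendsto (fun n : ℕ => ((v (n + 1) : ℝ) / (v n : ℝ))) atTop (nhds lam) →
      Tendsto (fun n : ℕ => ((w (n + 1) : ℝ) / (w n : ℝ))) atTop (nhds Lam) →
      (∃ q : ℚ, (q : ℝ) = lam) ∧ (∃ r : ℚ, (r : ℝ) = Lam)) := by
  intro H
  have hs2 : Real.sqrt 2 ^ 2 = 2 := Real.sq_sqrt (by norm_num)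
  have hsb := sqrt_two_bounds
  -- positivity of the minimal solution
  have hvpos : ∀ n, 0 < (sol 1 (2 / 49) n : ℝ) := by
    intro n
    have h1 := (sol_J n).1
    have h2 := J_pos n
    have h3 := J_pos 0
    rw [← h1] at h2
    exact (pos_iff_pos_of_mul_pos h2).2 h3
  have hvratio : Tendsto (fun n : ℕ => ((sol 1 (2 / 49) (n + 1) : ℝ) / (sol 1 (2 / 49) n : ℝ)))
      atTop (nhds ((9 - 4 * Real.sqrt 2) / 49)) := by
    refine J_ratio_tendsto.congr fun n => ?_
    rw [← (sol_J n).1, ← (sol_J n).2]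
    exact mul_div_mul_right _ _ (J_pos 0).ne'
  have hlim1 : (9 - 4 * Real.sqrt 2) / 49 ≠ (9 + 4 * Real.sqrt 2) / 49 := by
    intro h
    have := hsb.1
    linarith
  obtain ⟨⟨q, hq⟩, -⟩ := H aR bR (-(1 / 49)) (18 / 49) ((9 - 4 * Real.sqrt 2) / 49)
    ((9 + 4 * Real.sqrt 2) / 49) (sol 1 (2 / 49)) (sol 5 1)
    (by
      rw [← tendsto_add_atTop_iff_nat 2]
      refine tendsto_a.neg.congr fun n => ?_
      rw [eval_aR]
      push_cast
      ring)
    (by
      rw [← tendsto_add_atTop_iff_nat 2]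
      refine tendsto_b.congr fun n => ?_
      rw [eval_bR]
      push_cast
      ring)
    (by ring)
    (by nlinarith)
    (by
      rw [abs_pos]
      intro h
      linarith [hsb.2])
    (by
      rw [abs_of_pos (by linarith [hsb.2]), abs_of_pos (by linarith [hsb.1])]
      linarith [hsb.1])
    (Eventually.of_forall (sol_eq _ _))
    (Eventually.of_forall (sol_eq _ _))
    (by
      intro c d hcd
      -- if `c` and `d` are both nonzero the two ratios would agree eventually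
      have key : ∀ n, c * sol 1 (2 / 49) n + d * sol 5 1 n = 0 →
          ((c:ℝ) * sol 1 (2 / 49) n + d * sol 5 1 n = 0) := by
        intro n hn
        exact_mod_cast hn
      have hc : c = 0 := by
        by_contra hc
        apply hlim1
        refine tendsto_nhds_unique (hvratio.congr' ?_) W_ratio_tendsto
        filter_upwards [hcd, (tendsto_add_atTop_nat 1).eventually hcd] with n h1 h2
        have h1' := key n h1
        have h2' := key (n + 1) h2
        have hc' : (c:ℝ) ≠ 0 := by exact_mod_cast hc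
        have hv0 := (hvpos n).ne'
        have hw0 := (W_props n).1.ne'
        rw [div_eq_div_iff hv0 hw0]
        have e1 : (c:ℝ) * sol 1 (2 / 49) n = - (d * sol 5 1 n) := by linarith
        have e2 : (c:ℝ) * sol 1 (2 / 49) (n + 1) = - (d * sol 5 1 (n + 1)) := by linarith
        apply mul_left_cancel₀ hc'
        calc (c:ℝ) * (sol 1 (2 / 49) (n + 1) * sol 5 1 n)
            = (c * sol 1 (2 / 49) (n + 1)) * sol 5 1 n := by ring
          _ = - (d * sol 5 1 n) * sol 5 1 (n + 1) := by rw [e2]; ring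
          _ = (c * sol 1 (2 / 49) n) * sol 5 1 (n + 1) := by rw [e1]
          _ = c * (sol 5 1 (n + 1) * sol 1 (2 / 49) n) := by ring
      refine ⟨hc, ?_⟩
      obtain ⟨n, hn⟩ := hcd.exists
      have h1 := key n hn
      rw [hc] at h1
      have hw0 := (W_props n).1.ne'
      have : (d:ℝ) * sol 5 1 n = 0 := by
        simpa using h1
      rcases mul_eq_zero.1 this with h | h
      · exact_mod_cast h
      · exact absurd h hw0)
    hvratio
    W_ratio_tendsto
  have hirr := irrational_sqrt_two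
  apply hirr
  refine ⟨(9 - 49 * q) / 4, ?_⟩
  push_cast
  rw [hq]
  ring

end Pool.Agent.S16580
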