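import Mathlib

/-!
# Shift pairs: uniform labels from `Fin q` and a rule on triples (`MP_a60f11_co`)
-/

set_option autoImplicit false

open Finset

namespace Pool.Agent.ShiftThree

variable {q : ℕ} [NeZero q]

/-- Fibres of restriction to four distinct points all have the same size. -/
theorem fibre {n : ℕ} (g : Fin 4 → Fin n) (hg : Function.Injective g)
    (y : Fin 4 → Fin q) :
    (Finset.univ.filter (fun x : Fin n → Fin q => x ∘ g = y)).card =
      (Finset.univ.filter (fun x : Fin n → Fin q => x ∘ g = 0)).card := by
  symm
  let x0 : Fin n → Fin q := Function.extend g y 0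
  have hx0 : x0 ∘ g = y := by
    funext i
    simp [x0, hg.extend_apply]
  refine Finset.card_bij (fun x _ => x + x0) ?_ ?_ ?_
  · intro x hx
    simp only [Finset.mem_filter, Finset.mem_univ, true_and] at hx ⊢
    funext i
    have h1 := congrFun hx i
    have h2 := congrFun hx0 i
    simp only [Function.comp_apply, Pi.zero_apply, Pi.add_apply] at h1 h2 ⊢
    rw [h1, h2, zero_add]
  · intro x _ x' _ h
    exact add_right_cancel h
  · intro x hx
    simp only [Finset.mem_filter, Finset.mem_univ, true_and] at hx
    refine ⟨x - x0, ?_, by simp⟩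
    simp only [Finset.mem_filter, Finset.mem_univ, true_and]
    funext i
    have h1 := congrFun hx i
    have h2 := congrFun hx0 i
    simp only [Function.comp_apply, Pi.zero_apply, Pi.sub_apply] at h1 h2 ⊢
    rw [h1, h2, sub_self]

theorem count_gen {n : ℕ} (g : Fin 4 → Fin n) (hg : Function.Injective g)
    (Q : (Fin 4 → Fin q) → Prop) [DecidablePred Q] :
    (Finset.univ.filter (fun x : Fin n → Fin q => Q (x ∘ g))).card * q ^ 4 =
      (Finset.univ.filter Q).card * q ^ n := by
  set N := (Finset.univ.filter (fun x : Fin n → Fin q => x ∘ g = 0)).card with hN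
  have h1 : (Finset.univ.filter (fun x : Fin n → Fin q => Q (x ∘ g))).card =
      (Finset.univ.filter Q).card * N := by
    rw [Finset.card_eq_sum_card_fiberwise (f := fun x : Fin n → Fin q => x ∘ g)
      (t := Finset.univ.filter Q)]
    · rw [Finset.sum_const_nat (m := N)]
      intro y hy
      simp only [Finset.mem_filter, Finset.mem_univ, true_and] at hy
      rw [Finset.filter_filter, hN, ← fibre g hg y]
      congr 1
      ext x
      simp only [Finset.mem_filter, Finset.mem_univ, true_and]
      constructor
      · rintro ⟨_, h⟩; exact h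
      · intro h; exact ⟨by rw [h]; exact hy, h⟩
    · intro x hx
      simpa using hx
  have h2 : q ^ n = q ^ 4 * N := by
    have h3 : (Finset.univ : Finset (Fin n → Fin q)).card =
        ∑ y ∈ (Finset.univ : Finset (Fin 4 → Fin q)),
          (Finset.univ.filter (fun x : Fin n → Fin q => x ∘ g = y)).card :=
      Finset.card_eq_sum_card_fiberwise (fun _ _ => Finset.mem_coe.2 (Finset.mem_univ _))
    rw [Finset.sum_congr rfl (fun y _ => fibre g hg y)] at h3
    simpa using h3
  rw [h1, h2]; ring

omit [NeZero q] in
/-- The number of words of length four with the rule true on the first three letters and false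
on the last three, as a sum over the middle. -/
theorem count_mid (W : Fin q → Fin q → Fin q → Bool) :
    (Finset.univ.filter (fun y : Fin 4 → Fin q =>
      W (y 0) (y 1) (y 2) = true ∧ ¬ W (y 1) (y 2) (y 3) = true)).card =
    ∑ b : Fin q, ∑ c : Fin q, (∑ a : Fin q, if W a b c = true then 1 else 0) *
      (∑ d : Fin q, if W b c d = true then 0 else 1) := by
  have h1 : (Finset.univ.filter (fun y : Fin 4 → Fin q =>
      W (y 0) (y 1) (y 2) = true ∧ ¬ W (y 1) (y 2) (y 3) = true)).card =
      ∑ y : Fin 4 → Fin q, (if W (y 0) (y 1) (y 2) = true then 1 else 0) *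
        (if W (y 1) (y 2) (y 3) = true then 0 else 1) := by
    rw [Finset.card_filter]
    refine Finset.sum_congr rfl fun y _ => ?_
    by_cases p1 : W (y 0) (y 1) (y 2) = true <;> by_cases p2 : W (y 1) (y 2) (y 3) = true <;>
      simp [p1, p2]
  rw [h1]
  have h2 : ∑ y : Fin 4 → Fin q, (if W (y 0) (y 1) (y 2) = true then 1 else 0) *
        (if W (y 1) (y 2) (y 3) = true then 0 else 1) =
      ∑ p : Fin q × Fin q × Fin q × Fin q, (if W p.2.2.1 p.1 p.2.1 = true then 1 else 0) *
        (if W p.1 p.2.1 p.2.2.2 = true then 0 else 1) := by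
    refine Fintype.sum_equiv
      { toFun := fun y => (y 1, y 2, y 0, y 3)
        invFun := fun p => ![p.2.2.1, p.1, p.2.1, p.2.2.2]
        left_inv := by
          intro y; funext i; fin_cases i <;> rfl
        right_inv := by
          rintro ⟨b, c, a, d⟩; rfl } _ _ (fun y => rfl)
  rw [h2, Fintype.sum_prod_type]
  refine Finset.sum_congr rfl fun b _ => ?_
  rw [Fintype.sum_prod_type]
  refine Finset.sum_congr rfl fun c _ => ?_
  rw [Fintype.sum_prod_type, Finset.sum_mul_sum]

end Pool.Agent.ShiftThree
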