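import Pool.Statements.S00015
import Pool.Agent.SCF.PartIII

set_option autoImplicit false
open Pool Pool.MP_0c25eb_ag

namespace Pool.Agent.S00015

/-- For any Schubert problem in Gr(k,n) and flags secant to the rational normal curve at non-interlacing real point sets, the intersection is finite, reaches the maximal finite count (i.e. is transverse), and every solution plane is real. -/
theorem result :
  ∀ (k n r : ℕ) (lam : Fin r → Fin k → ℕ),
    k ≤ n →
    (∀ j, Antitone (lam j)) →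
    (∀ j i, lam j i ≤ n - k) →
    (∑ j, ∑ i, lam j i) = k * (n - k) →
    ∀ Sch : (Fin r → Fin n → Fin n → ℂ) → Set (Submodule ℂ (Fin n → ℂ)),
      (∀ G, Sch G = {H : Submodule ℂ (Fin n → ℂ) |
          Module.finrank ℂ H = k ∧
          ∀ (j : Fin r) (i : Fin k), (i : ℕ) + 1 ≤
            Module.finrank ℂ ↥(H ⊓ Submodule.span ℂ
              (G j '' {a : Fin n | (a : ℕ) < n - k + (i : ℕ) + 1 - lam j i}))}) →
    ∀ t : Fin r → Fin n → ℝ,
      (∀ j, Function.Injective (t j)) →
      (∀ j j', j ≠ j' → (∀ a b, t j a < t j' b) ∨ (∀ a b, t j' a < t j b)) →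
      ((Sch (fun j a b => ((t j a : ℂ)) ^ (b : ℕ))).Finite ∧
        (∀ G : Fin r → Fin n → Fin n → ℂ, (∀ j, LinearIndependent ℂ (G j)) →
          (Sch G).Finite →
          (Sch G).ncard ≤ (Sch (fun j a b => ((t j a : ℂ)) ^ (b : ℕ))).ncard) ∧
        ∀ H ∈ Sch (fun j a b => ((t j a : ℂ)) ^ (b : ℕ)), ∀ v ∈ H, star v ∈ H) :=
  SCF.s15_of SCF.q_FIN SCF.q_GSEC SCF.p_SECI SCF.q_REAL SCF.q_MAX

end Pool.Agent.S00015
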