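import Pool.Statements.S00062
import Pool.Agent.H89.PdOne

set_option autoImplicit false
open Pool Pool.MP_1cfa24_ag

namespace Pool.Agent.S00062

open MvPolynomial Pool.Agent.H89

/-- The polynomial ring `k[x,y,z]` over the rationals. -/
abbrev S3 := MvPolynomial (Fin 3) ℚ

/-- `x ^ 2`. -/
noncomputable def XX : S3 := X 0 ^ 2
/-- `y`. -/
noncomputable def YY : S3 := X 1
/-- `z`. -/
noncomputable def ZZ : S3 := X 2

theorem prime_YY : Prime YY := X_prime
theorem YY_ne : YY ≠ 0 := X_ne_zero _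
theorem ZZ_ne : ZZ ≠ 0 := X_ne_zero _
theorem XX_ne : XX ≠ 0 := pow_ne_zero _ (X_ne_zero _)

theorem X0_dvd {b : S3} {n m : ℕ} (h : (X 0 : S3) ^ n ∣ YY ^ m * b) : (X 0 : S3) ^ n ∣ b := by
  refine (X_prime (R := ℚ) (i := (0 : Fin 3))).pow_dvd_of_dvd_mul_left n ?_ h
  intro h1
  have h2 := (X_prime (R := ℚ) (i := (0 : Fin 3))).dvd_of_dvd_pow h1
  rw [YY, X_dvd_X] at h2
  exact absurd h2 (by decide)

theorem XXpow_dvd {b : S3} {n m : ℕ} (h : XX ^ n ∣ YY ^ m * b) : XX ^ n ∣ b := by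
  rw [XX, ← pow_mul] at *
  exact X0_dvd h

theorem YYpow_dvd {b c : S3} {n : ℕ} (hc : ¬ YY ∣ c) (h : YY ^ n ∣ c * b) : YY ^ n ∣ b :=
  prime_YY.pow_dvd_of_dvd_mul_left n hc h

theorem YY_not_dvd_XXpow (n : ℕ) : ¬ YY ∣ XX ^ n := by
  intro h
  rw [XX, ← pow_mul] at h
  have h2 := prime_YY.dvd_of_dvd_pow h
  rw [YY, X_dvd_X] at h2
  exact absurd h2 (by decide)

theorem YY_not_dvd_lin : ¬ YY ∣ XX + ZZ * YY := by
  intro h
  have h2 : YY ∣ XX := (dvd_add_left (Dvd.intro_left _ rfl)).1 h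
  have := YY_not_dvd_XXpow 1
  rw [pow_one] at this
  exact this h2

/-- the ideal `(X, Y)` -/
noncomputable def M : Ideal S3 := Ideal.span {XX, YY}

theorem XX_mem : XX ∈ M := Ideal.subset_span (by simp)
theorem YY_mem : YY ∈ M := Ideal.subset_span (by simp)

theorem M_succ (n : ℕ) : M ^ (n + 1) = Ideal.span {YY ^ (n + 1)} ⊔ Ideal.span {XX} * M ^ n := by
  apply le_antisymm
  · induction n with
    | zero =>
      rw [pow_zero, zero_add, pow_one, pow_one, Ideal.one_eq_top, Ideal.mul_top, M,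
        Ideal.span_insert, sup_comm]
    | succ n ih =>
      have hM : M = Ideal.span {XX} ⊔ Ideal.span {YY} := by
        rw [M, Ideal.span_insert]
      rw [pow_succ M (n + 1)]
      calc M ^ (n + 1) * M = M ^ (n + 1) * (Ideal.span {XX} ⊔ Ideal.span {YY}) := by
            rw [← hM]
        _ = M ^ (n + 1) * Ideal.span {XX} ⊔ M ^ (n + 1) * Ideal.span {YY} := Ideal.mul_sup _ _ _
        _ ≤ _ := ?_
      apply sup_le
      · rw [mul_comm]
        exact le_sup_right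
      · calc M ^ (n + 1) * Ideal.span {YY}
            ≤ (Ideal.span {YY ^ (n + 1)} ⊔ Ideal.span {XX} * M ^ n) * Ideal.span {YY} :=
              Ideal.mul_mono_left ih
          _ ≤ _ := by
              rw [Ideal.sup_mul]
              apply sup_le
              · rw [Ideal.span_singleton_mul_span_singleton, ← pow_succ]
                exact le_sup_left
              · rw [mul_assoc, pow_succ M n]
                refine le_sup_of_le_right (Ideal.mul_mono_right (Ideal.mul_mono_right ?_))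
                rw [Ideal.span_singleton_le_iff_mem]
                exact YY_mem
  · apply sup_le
    · rw [Ideal.span_singleton_le_iff_mem]
      exact Ideal.pow_mem_pow YY_mem _
    · rw [pow_succ']
      apply Ideal.mul_mono_left
      rw [Ideal.span_singleton_le_iff_mem]
      exact XX_mem

theorem pd_M (n : ℕ) : PdLeOne S3 (M ^ n) := by
  induction n with
  | zero => rw [pow_zero, Ideal.one_eq_top]; exact pdLeOne_top _
  | succ n ih =>
    refine pdLeOne_step (g := YY ^ (n + 1)) (h := XX) ?_ XX_ne ?_ (M_succ n) ih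
    · rw [pow_succ]
      exact Ideal.mul_mem_right _ _ (Ideal.pow_mem_pow YY_mem _)
    · intro b hb
      have := XXpow_dvd (n := 1) (by rw [pow_one]; exact hb)
      rwa [pow_one] at this

/-- a criterion for `M ^ n ≤ J` -/
theorem M_pow_le (n : ℕ) : ∀ (J : Ideal S3), (∀ i j, i + j = n → XX ^ i * YY ^ j ∈ J) →
    M ^ n ≤ J := by
  induction n with
  | zero =>
    intro J hJ
    have := hJ 0 0 rfl
    rw [pow_zero, pow_zero, mul_one] at this
    rw [(Ideal.eq_top_iff_one J).2 this]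
    exact le_top
  | succ n ih =>
    intro J hJ
    rw [M_succ]
    apply sup_le
    · rw [Ideal.span_singleton_le_iff_mem]
      have := hJ 0 (n + 1) (by simp)
      rwa [pow_zero, one_mul] at this
    · have h1 : M ^ n ≤ Submodule.comap (LinearMap.mulLeft S3 XX) J := by
        apply ih
        intro i j hij
        have := hJ (i + 1) j (by omega)
        rw [Submodule.mem_comap, LinearMap.mulLeft_apply]
        rwa [pow_succ', mul_assoc] at this
      intro p hp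
      obtain ⟨q, hq, rfl⟩ := Ideal.mem_span_singleton_mul.1 hp
      exact h1 hq

/-- the polynomial `f = X^4 Y + z X^3 Y^2` -/
noncomputable def ff : S3 := XX ^ 4 * YY + ZZ * (XX ^ 3 * YY ^ 2)

/-- the counterexample -/
noncomputable def Q : Ideal S3 :=
  Ideal.span {YY ^ 5, XX * YY ^ 4, XX ^ 3 * YY ^ 3, ff, XX ^ 5}

theorem g1 : YY ^ 5 ∈ Q := Ideal.subset_span (by simp)
theorem g2 : XX * YY ^ 4 ∈ Q := Ideal.subset_span (by simp)
theorem g3 : XX ^ 3 * YY ^ 3 ∈ Q := Ideal.subset_span (by simp)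
theorem g4 : ff ∈ Q := Ideal.subset_span (by simp)
theorem g5 : XX ^ 5 ∈ Q := Ideal.subset_span (by simp)

theorem pd_Q : PdLeOne S3 Q := by
  have h1 : PdLeOne S3 (Ideal.span {XX + ZZ * YY, YY ^ 2}) := by
    refine pdLeOne_step (I' := ⊤) (g := XX + ZZ * YY) (h := YY ^ 2) trivial
      (pow_ne_zero _ YY_ne) (fun b hb => YYpow_dvd YY_not_dvd_lin hb) ?_ (pdLeOne_top _)
    rw [Ideal.mul_top, Ideal.span_insert]
  have h2 : PdLeOne S3 (Ideal.span {XX ^ 2, YY * (XX + ZZ * YY), YY ^ 3}) := by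
    refine pdLeOne_step (g := XX ^ 2) (h := YY) ?_ YY_ne ?_ ?_ h1
    · rw [Ideal.mem_span_pair]
      exact ⟨XX - ZZ * YY, ZZ ^ 2, by ring⟩
    · intro b hb
      have := YYpow_dvd (n := 1) (YY_not_dvd_XXpow 2) (by rw [pow_one]; exact hb)
      rwa [pow_one] at this
    · rw [Ideal.span_mul_span', Set.singleton_mul, Set.image_insert_eq, Set.image_singleton,
        Ideal.span_insert, ← pow_succ']
  have h3 : PdLeOne S3 (Ideal.span {YY ^ 4, XX ^ 2 * XX ^ 2, XX ^ 2 * (YY * (XX + ZZ * YY)),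
      XX ^ 2 * YY ^ 3}) := by
    refine pdLeOne_step (g := YY ^ 4) (h := XX ^ 2) ?_ (pow_ne_zero _ XX_ne) ?_ ?_ h2
    · rw [show YY ^ 4 = YY ^ 3 * YY by ring]
      exact Ideal.mul_mem_right _ _ (Ideal.subset_span
        (Set.mem_insert_of_mem _ (Set.mem_insert_of_mem _ rfl)))
    · intro b hb
      exact XXpow_dvd hb
    · rw [Ideal.span_mul_span', Set.singleton_mul, Set.image_insert_eq, Set.image_insert_eq,
        Set.image_singleton, Ideal.span_insert]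
  have h4 : PdLeOne S3 (Ideal.span {YY ^ 5, XX * YY ^ 4, XX * (XX ^ 2 * XX ^ 2),
      XX * (XX ^ 2 * (YY * (XX + ZZ * YY))), XX * (XX ^ 2 * YY ^ 3)}) := by
    refine pdLeOne_step (g := YY ^ 5) (h := XX) ?_ XX_ne ?_ ?_ h3
    · rw [show YY ^ 5 = YY ^ 4 * YY by ring]
      exact Ideal.mul_mem_right _ _ (Ideal.subset_span (Set.mem_insert _ _))
    · intro b hb
      have := XXpow_dvd (n := 1) (by rw [pow_one]; exact hb)
      rwa [pow_one] at this
    · rw [Ideal.span_mul_span', Set.singleton_mul, Set.image_insert_eq, Set.image_insert_eq,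
        Set.image_insert_eq, Set.image_singleton, Ideal.span_insert]
  rw [show XX * (XX ^ 2 * XX ^ 2) = XX ^ 5 by ring,
    show XX * (XX ^ 2 * (YY * (XX + ZZ * YY))) = ff by rw [ff]; ring,
    show XX * (XX ^ 2 * YY ^ 3) = XX ^ 3 * YY ^ 3 by ring] at h4
  convert h4 using 1
  rw [Q]
  congr 1
  ext p
  simp only [Set.mem_insert_iff, Set.mem_singleton_iff]
  tauto

theorem Q_le : Q ≤ M ^ 5 := by
  rw [Q, Ideal.span_le]
  have hm : ∀ i j, i + j = 5 → XX ^ i * YY ^ j ∈ M ^ 5 := by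
    intro i j hij
    rw [← hij, pow_add]
    exact Ideal.mul_mem_mul (Ideal.pow_mem_pow XX_mem _) (Ideal.pow_mem_pow YY_mem _)
  rintro p (rfl | rfl | rfl | rfl | rfl)
  · simpa using hm 0 5 rfl
  · simpa using hm 1 4 rfl
  · have : XX ^ 3 * YY ^ 3 = (XX ^ 3 * YY ^ 2) * YY := by ring
    rw [this]
    exact Ideal.mul_mem_right _ _ (hm 3 2 rfl)
  · rw [ff]
    refine Ideal.add_mem _ ?_ (Ideal.mul_mem_left _ _ (hm 3 2 rfl))
    simpa using hm 4 1 rfl
  · simpa using hm 5 0 rfl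

theorem Q3 : Q ^ 3 = M ^ 15 := by
  apply le_antisymm
  · calc Q ^ 3 ≤ (M ^ 5) ^ 3 := Ideal.pow_right_mono Q_le 3
      _ = M ^ 15 := by rw [← pow_mul]
  · have h3 : ∀ a b c, a ∈ Q → b ∈ Q → c ∈ Q → a * b * c ∈ Q ^ 3 := by
      intro a b c ha hb hc
      rw [pow_succ, pow_two]
      exact Ideal.mul_mem_mul (Ideal.mul_mem_mul ha hb) hc
    have m0 : YY ^ 15 ∈ Q ^ 3 := by
      rw [show YY ^ 15 = YY ^ 5 * YY ^ 5 * YY ^ 5 by ring]; exact h3 _ _ _ g1 g1 g1
    have m1 : XX * YY ^ 14 ∈ Q ^ 3 := by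
      rw [show XX * YY ^ 14 = XX * YY ^ 4 * YY ^ 5 * YY ^ 5 by ring]; exact h3 _ _ _ g2 g1 g1
    have m2 : XX ^ 2 * YY ^ 13 ∈ Q ^ 3 := by
      rw [show XX ^ 2 * YY ^ 13 = XX * YY ^ 4 * (XX * YY ^ 4) * YY ^ 5 by ring]
      exact h3 _ _ _ g2 g2 g1
    have m3 : XX ^ 3 * YY ^ 12 ∈ Q ^ 3 := by
      rw [show XX ^ 3 * YY ^ 12 = XX * YY ^ 4 * (XX * YY ^ 4) * (XX * YY ^ 4) by ring]
      exact h3 _ _ _ g2 g2 g2
    have m4 : XX ^ 4 * YY ^ 11 ∈ Q ^ 3 := by
      rw [show XX ^ 4 * YY ^ 11 = YY ^ 5 * YY ^ 5 * ff - ZZ * (XX ^ 3 * YY ^ 12) by rw [ff]; ring]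
      exact Ideal.sub_mem _ (h3 _ _ _ g1 g1 g4) (Ideal.mul_mem_left _ _ m3)
    have m5 : XX ^ 5 * YY ^ 10 ∈ Q ^ 3 := by
      rw [show XX ^ 5 * YY ^ 10 = XX ^ 5 * YY ^ 5 * YY ^ 5 by ring]; exact h3 _ _ _ g5 g1 g1
    have m6 : XX ^ 6 * YY ^ 9 ∈ Q ^ 3 := by
      rw [show XX ^ 6 * YY ^ 9 = XX ^ 5 * (XX * YY ^ 4) * YY ^ 5 by ring]
      exact h3 _ _ _ g5 g2 g1
    have m7 : XX ^ 7 * YY ^ 8 ∈ Q ^ 3 := by
      rw [show XX ^ 7 * YY ^ 8 = XX ^ 5 * (XX * YY ^ 4) * (XX * YY ^ 4) by ring]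
      exact h3 _ _ _ g5 g2 g2
    have m8 : XX ^ 8 * YY ^ 7 ∈ Q ^ 3 := by
      rw [show XX ^ 8 * YY ^ 7 = ff * ff * YY ^ 5 - (2 * ZZ) * (XX ^ 7 * YY ^ 8)
        - ZZ ^ 2 * (XX ^ 6 * YY ^ 9) by rw [ff]; ring]
      exact Ideal.sub_mem _ (Ideal.sub_mem _ (h3 _ _ _ g4 g4 g1) (Ideal.mul_mem_left _ _ m7))
        (Ideal.mul_mem_left _ _ m6)
    have m9 : XX ^ 9 * YY ^ 6 ∈ Q ^ 3 := by
      rw [show XX ^ 9 * YY ^ 6 = ff * ff * (XX * YY ^ 4) - (2 * ZZ) * (XX ^ 8 * YY ^ 7)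
        - ZZ ^ 2 * (XX ^ 7 * YY ^ 8) by rw [ff]; ring]
      exact Ideal.sub_mem _ (Ideal.sub_mem _ (h3 _ _ _ g4 g4 g2) (Ideal.mul_mem_left _ _ m8))
        (Ideal.mul_mem_left _ _ m7)
    have m10 : XX ^ 10 * YY ^ 5 ∈ Q ^ 3 := by
      rw [show XX ^ 10 * YY ^ 5 = XX ^ 5 * XX ^ 5 * YY ^ 5 by ring]; exact h3 _ _ _ g5 g5 g1
    have m11 : XX ^ 11 * YY ^ 4 ∈ Q ^ 3 := by
      rw [show XX ^ 11 * YY ^ 4 = XX ^ 5 * XX ^ 5 * (XX * YY ^ 4) by ring]
      exact h3 _ _ _ g5 g5 g2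
    have m12 : XX ^ 12 * YY ^ 3 ∈ Q ^ 3 := by
      rw [show XX ^ 12 * YY ^ 3 = ff * ff * ff - (3 * ZZ) * (XX ^ 11 * YY ^ 4)
        - (3 * ZZ ^ 2) * (XX ^ 10 * YY ^ 5) - ZZ ^ 3 * (XX ^ 9 * YY ^ 6) by rw [ff]; ring]
      exact Ideal.sub_mem _ (Ideal.sub_mem _ (Ideal.sub_mem _ (h3 _ _ _ g4 g4 g4)
        (Ideal.mul_mem_left _ _ m11)) (Ideal.mul_mem_left _ _ m10)) (Ideal.mul_mem_left _ _ m9)
    have m13 : XX ^ 13 * YY ^ 2 ∈ Q ^ 3 := by
      rw [show XX ^ 13 * YY ^ 2 = ff * ff * XX ^ 5 - (2 * ZZ) * (XX ^ 12 * YY ^ 3)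
        - ZZ ^ 2 * (XX ^ 11 * YY ^ 4) by rw [ff]; ring]
      exact Ideal.sub_mem _ (Ideal.sub_mem _ (h3 _ _ _ g4 g4 g5) (Ideal.mul_mem_left _ _ m12))
        (Ideal.mul_mem_left _ _ m11)
    have m14 : XX ^ 14 * YY ∈ Q ^ 3 := by
      rw [show XX ^ 14 * YY = ff * XX ^ 5 * XX ^ 5 - ZZ * (XX ^ 13 * YY ^ 2) by rw [ff]; ring]
      exact Ideal.sub_mem _ (h3 _ _ _ g4 g5 g5) (Ideal.mul_mem_left _ _ m13)
    have m15 : XX ^ 15 ∈ Q ^ 3 := by
      rw [show XX ^ 15 = XX ^ 5 * XX ^ 5 * XX ^ 5 by ring]; exact h3 _ _ _ g5 g5 g5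
    apply M_pow_le
    intro i j hij
    have hi : i ≤ 15 := by omega
    obtain rfl : j = 15 - i := by omega
    interval_cases i
    · simpa using m0
    · simpa using m1
    · simpa using m2
    · simpa using m3
    · simpa using m4
    · simpa using m5
    · simpa using m6
    · simpa using m7
    · simpa using m8
    · simpa using m9
    · simpa using m10
    · simpa using m11
    · simpa using m12
    · simpa using m13
    · simpa using m14
    · simpa using m15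

theorem Q_mul (n : ℕ) (hn : 4 ≤ n) : Q * M ^ n = M ^ (n + 5) := by
  apply le_antisymm
  · rw [add_comm, pow_add]
    exact Ideal.mul_mono_left Q_le
  · apply M_pow_le
    intro i j hij
    have hm : ∀ i j, i + j = n → XX ^ i * YY ^ j ∈ M ^ n := by
      intro i j hij
      rw [← hij, pow_add]
      exact Ideal.mul_mem_mul (Ideal.pow_mem_pow XX_mem _) (Ideal.pow_mem_pow YY_mem _)
    by_cases h5 : 5 ≤ i
    · obtain ⟨i', rfl⟩ := Nat.exists_eq_add_of_le h5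
      rw [pow_add, mul_assoc]
      exact Ideal.mul_mem_mul g5 (hm _ _ (by omega))
    · have h6 : 5 ≤ j := by omega
      obtain ⟨j', rfl⟩ := Nat.exists_eq_add_of_le h6
      rw [pow_add, mul_left_comm]
      exact Ideal.mul_mem_mul g1 (hm _ _ (by omega))

theorem Q_pow (t : ℕ) (ht : 3 ≤ t) : Q ^ t = M ^ (5 * t) := by
  induction t, ht using Nat.le_induction with
  | base => exact Q3
  | succ t ht ih =>
    rw [pow_succ', ih, Q_mul _ (by omega)]
    congr 1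

theorem M_ne_top : M ≠ ⊤ := by
  intro h
  have h1 : (1 : S3) ∈ M := by rw [h]; trivial
  rw [M, Ideal.mem_span_pair] at h1
  obtain ⟨a, b, hab⟩ := h1
  have := congrArg (MvPolynomial.eval (0 : Fin 3 → ℚ)) hab
  simp [XX, YY] at this

theorem not_proj {I : Ideal S3} {a b : ℕ} (hI : I ≤ M) (ha : XX ^ a ∈ I) (hb : YY ^ b ∈ I) :
    ¬ Module.Projective S3 I := by
  refine not_projective ha hb (pow_ne_zero _ XX_ne) (fun v hv => XXpow_dvd hv) ?_
  intro h
  apply M_ne_top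
  rw [eq_top_iff, ← h]
  exact hI

/-- the exponent of `x^7 y^7 z` -/
noncomputable def e1 : Fin 3 →₀ ℕ := Finsupp.equivFunOnFinite.symm ![7, 7, 1]
/-- the exponent of `x^9 y^6` -/
noncomputable def e2 : Fin 3 →₀ ℕ := Finsupp.equivFunOnFinite.symm ![9, 6, 0]

/-- the ideal of all `p` such that the two coefficients agree for all multiples of `p` -/
noncomputable def KK : Ideal S3 where
  carrier := {p | ∀ q, coeff e1 (q * p) = coeff e2 (q * p)}
  add_mem' := by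
    intro a b ha hb q
    rw [mul_add, coeff_add, coeff_add, ha q, hb q]
  zero_mem' := by intro q; simp
  smul_mem' := by
    intro c p hp q
    rw [smul_eq_mul, ← mul_assoc]
    exact hp _

theorem coeff_e (e : Fin 3 →₀ ℕ) (q : S3) (a b c : ℕ) :
    coeff e (q * (X 0 ^ a * X 1 ^ b * X 2 ^ c)) =
      if a ≤ e 0 ∧ b ≤ e 1 ∧ c ≤ e 2 then
        coeff (e - Finsupp.equivFunOnFinite.symm ![a, b, c]) q else 0 := by
  have h : (X 0 ^ a * X 1 ^ b * X 2 ^ c : S3) =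
      monomial (Finsupp.equivFunOnFinite.symm ![a, b, c]) 1 := by
    rw [X_pow_eq_monomial, X_pow_eq_monomial, X_pow_eq_monomial, monomial_mul, monomial_mul]
    have h3 : (Finsupp.single 0 a + Finsupp.single 1 b + Finsupp.single 2 c : Fin 3 →₀ ℕ) =
        Finsupp.equivFunOnFinite.symm ![a, b, c] := by
      refine Finsupp.ext (fun i => ?_)
      fin_cases i <;> simp
    rw [h3, one_mul, one_mul]
  rw [h, coeff_mul_monomial']
  have h2 : (Finsupp.equivFunOnFinite.symm ![a, b, c] ≤ e) ↔ (a ≤ e 0 ∧ b ≤ e 1 ∧ c ≤ e 2) := by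
    rw [Finsupp.le_def]
    constructor
    · intro h
      exact ⟨h 0, h 1, h 2⟩
    · rintro ⟨h0, h1, h2⟩ i
      fin_cases i
      · exact h0
      · exact h1
      · exact h2
  simp only [h2, mul_one]

theorem e1_0 : e1 0 = 7 := rfl
theorem e1_1 : e1 1 = 7 := rfl
theorem e1_2 : e1 2 = 1 := rfl
theorem e2_0 : e2 0 = 9 := rfl
theorem e2_1 : e2 1 = 6 := rfl
theorem e2_2 : e2 2 = 0 := rfl

theorem sub_eq : e1 - Finsupp.equivFunOnFinite.symm ![6, 7, 1] =
    e2 - Finsupp.equivFunOnFinite.symm ![8, 6, 0] := by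
  ext i
  fin_cases i <;> rfl

theorem mem_KK {p : S3} (a b c : ℕ) (r : S3) (h1 : 7 < a ∨ 7 < b ∨ 1 < c)
    (h2 : 9 < a ∨ 6 < b ∨ 0 < c) (hp : p = r * (X 0 ^ a * X 1 ^ b * X 2 ^ c)) : p ∈ KK := by
  rw [hp]
  intro q
  rw [← mul_assoc, coeff_e, coeff_e, e1_0, e1_1, e1_2, e2_0, e2_1, e2_2, if_neg (by omega),
    if_neg (by omega)]

theorem special : YY ^ 5 * ff ∈ KK := by
  intro q
  have h : q * (YY ^ 5 * ff) = q * (X 0 ^ 8 * X 1 ^ 6 * X 2 ^ 0) +
      q * (X 0 ^ 6 * X 1 ^ 7 * X 2 ^ 1) := by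
    rw [ff, XX, YY, ZZ]; ring
  rw [h, coeff_add, coeff_add, coeff_e, coeff_e, coeff_e, coeff_e, e1_0, e1_1, e1_2, e2_0, e2_1,
    e2_2, if_neg (by omega), if_pos (by omega), if_pos (by omega), if_neg (by omega), zero_add,
    add_zero, sub_eq]

theorem Q2_le : Q ^ 2 ≤ KK := by
  have k11 : YY ^ 5 * YY ^ 5 ∈ KK :=
    mem_KK 0 10 0 1 (by omega) (by omega) (by rw [YY]; ring)
  have k12 : YY ^ 5 * (XX * YY ^ 4) ∈ KK :=
    mem_KK 2 9 0 1 (by omega) (by omega) (by rw [YY, XX]; ring)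
  have k13 : YY ^ 5 * (XX ^ 3 * YY ^ 3) ∈ KK :=
    mem_KK 6 8 0 1 (by omega) (by omega) (by rw [YY, XX]; ring)
  have k14 : YY ^ 5 * ff ∈ KK := special
  have k15 : YY ^ 5 * XX ^ 5 ∈ KK :=
    mem_KK 10 5 0 1 (by omega) (by omega) (by rw [YY, XX]; ring)
  have k22 : XX * YY ^ 4 * (XX * YY ^ 4) ∈ KK :=
    mem_KK 4 8 0 1 (by omega) (by omega) (by rw [YY, XX]; ring)
  have k23 : XX * YY ^ 4 * (XX ^ 3 * YY ^ 3) ∈ KK :=
    mem_KK 8 7 0 1 (by omega) (by omega) (by rw [YY, XX]; ring)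
  have k24 : XX * YY ^ 4 * ff ∈ KK := by
    have : XX * YY ^ 4 * ff = X 0 ^ 10 * X 1 ^ 5 * X 2 ^ 0 + X 0 ^ 8 * X 1 ^ 6 * X 2 ^ 1 := by
      rw [ff, XX, YY, ZZ]; ring
    rw [this]
    exact Ideal.add_mem _ (mem_KK 10 5 0 1 (by omega) (by omega) (by ring))
      (mem_KK 8 6 1 1 (by omega) (by omega) (by ring))
  have k25 : XX * YY ^ 4 * XX ^ 5 ∈ KK :=
    mem_KK 12 4 0 1 (by omega) (by omega) (by rw [YY, XX]; ring)
  have k33 : XX ^ 3 * YY ^ 3 * (XX ^ 3 * YY ^ 3) ∈ KK :=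
    mem_KK 12 6 0 1 (by omega) (by omega) (by rw [YY, XX]; ring)
  have k34 : XX ^ 3 * YY ^ 3 * ff ∈ KK :=
    mem_KK 12 4 0 (XX + ZZ * YY) (by omega) (by omega) (by rw [ff, ZZ, YY, XX]; ring)
  have k35 : XX ^ 3 * YY ^ 3 * XX ^ 5 ∈ KK :=
    mem_KK 16 3 0 1 (by omega) (by omega) (by rw [YY, XX]; ring)
  have k44 : ff * ff ∈ KK :=
    mem_KK 12 2 0 ((XX + ZZ * YY) ^ 2) (by omega) (by omega) (by rw [ff, ZZ, YY, XX]; ring)
  have k45 : ff * XX ^ 5 ∈ KK :=
    mem_KK 16 1 0 (XX + ZZ * YY) (by omega) (by omega) (by rw [ff, ZZ, YY, XX]; ring)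
  have k55 : XX ^ 5 * XX ^ 5 ∈ KK :=
    mem_KK 20 0 0 1 (by omega) (by omega) (by rw [XX]; ring)
  have hc : ∀ {a b : S3}, a * b ∈ KK → b * a ∈ KK := fun {a b} h => by rwa [mul_comm]
  have key : ∀ a b : S3,
      (a = YY ^ 5 ∨ a = XX * YY ^ 4 ∨ a = XX ^ 3 * YY ^ 3 ∨ a = ff ∨ a = XX ^ 5) →
      (b = YY ^ 5 ∨ b = XX * YY ^ 4 ∨ b = XX ^ 3 * YY ^ 3 ∨ b = ff ∨ b = XX ^ 5) →
      a * b ∈ KK := by
    rintro a b (rfl | rfl | rfl | rfl | rfl) (rfl | rfl | rfl | rfl | rfl)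
    · exact k11
    · exact k12
    · exact k13
    · exact k14
    · exact k15
    · exact hc k12
    · exact k22
    · exact k23
    · exact k24
    · exact k25
    · exact hc k13
    · exact hc k23
    · exact k33
    · exact k34
    · exact k35
    · exact hc k14
    · exact hc k24
    · exact hc k34
    · exact k44
    · exact k45
    · exact hc k15
    · exact hc k25
    · exact hc k35
    · exact hc k45
    · exact k55
  rw [pow_two, Q, Ideal.span_mul_span', Ideal.span_le]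
  intro p hp
  obtain ⟨a, ha, b, hb, hab⟩ := Set.mem_mul.1 hp
  rw [← hab]
  simp only [Set.mem_insert_iff, Set.mem_singleton_iff] at ha hb
  exact key a b ha hb

/-- the socle element -/
noncomputable def ww : S3 := X 0 ^ 7 * X 1 ^ 7 * X 2 ^ 1

theorem ww_not_mem : ww ∉ Q ^ 2 := by
  intro h
  have h1 := Q2_le h 1
  rw [ww, coeff_e, coeff_e, e1_0, e1_1, e1_2, e2_0, e2_1, e2_2, if_pos (by omega),
    if_neg (by omega)] at h1
  have h2 : e1 - Finsupp.equivFunOnFinite.symm ![7, 7, 1] = 0 := by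
    ext i
    fin_cases i <;> rfl
  rw [h2] at h1
  simp at h1

theorem Q2_not_pd : ¬ PdLeOne S3 (Q ^ 2) := by
  intro hpd
  apply ww_not_mem
  have h2 : ∀ a b, a ∈ Q → b ∈ Q → a * b ∈ Q ^ 2 := by
    intro a b ha hb
    rw [pow_two]
    exact Ideal.mul_mem_mul ha hb
  have hn : ∀ i j : Fin 3, i ≠ j → ∀ a b : S3, X j * a = X i * b → (X i : S3) ∣ a := by
    intro i j hij a b hab
    have h3 : (X i : S3) ∣ X j * a := ⟨b, hab⟩
    rcases (X_prime (R := ℚ) (i := i)).dvd_or_dvd h3 with h | h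
    · rw [X_dvd_X] at h
      exact absurd h hij
    · exact h
  refine mem_of_pdLeOne (x := X 0) (y := X 1) (z := X 2) (X_ne_zero _) (X_ne_zero _)
    (hn 0 1 (by decide)) (hn 2 1 (by decide)) ?_ hpd ?_ ?_ ?_
  · intro a b c habc
    have h3 : (X 0 : S3) * a ∈ Ideal.span (X '' ({1, 2} : Set (Fin 3))) := by
      rw [Set.image_pair, Ideal.mem_span_pair]
      exact ⟨-b, -c, by linear_combination -habc⟩
    have h4 : a ∈ Ideal.span (X '' ({1, 2} : Set (Fin 3))) := by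
      rw [mem_ideal_span_X_image] at h3 ⊢
      intro m hm
      obtain ⟨i, hi, hmi⟩ := h3 (Finsupp.single 0 1 + m) (by
        rw [mem_support_iff] at hm ⊢
        rwa [coeff_X_mul])
      refine ⟨i, hi, ?_⟩
      rcases hi with rfl | rfl
      · simpa using hmi
      · simpa using hmi
    rw [Set.image_pair, Ideal.mem_span_pair] at h4
    obtain ⟨p, q, hpq⟩ := h4
    exact ⟨q, -p, by linear_combination -hpq⟩
  · have : (X 0 : S3) * ww = ZZ * (YY * (YY ^ 5 * ff) - ZZ * (YY ^ 5 * (XX ^ 3 * YY ^ 3))) := by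
      rw [ww, ff, XX, YY, ZZ]; ring
    rw [this]
    exact Ideal.mul_mem_left _ _ (Ideal.sub_mem _ (Ideal.mul_mem_left _ _ (h2 _ _ g1 g4))
      (Ideal.mul_mem_left _ _ (h2 _ _ g1 g3)))
  · have : (X 1 : S3) * ww = (ZZ * X 0) * (YY ^ 5 * (XX ^ 3 * YY ^ 3)) := by
      rw [ww, XX, YY, ZZ]; ring
    rw [this]
    exact Ideal.mul_mem_left _ _ (h2 _ _ g1 g3)
  · have : (X 2 : S3) * ww = X 0 * (ZZ * (YY ^ 5 * ff) - XX * YY ^ 4 * ff + XX ^ 5 * YY ^ 5) := by
      rw [ww, ff, XX, YY, ZZ]; ring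
    rw [this]
    exact Ideal.mul_mem_left _ _ (Ideal.add_mem _ (Ideal.sub_mem _
      (Ideal.mul_mem_left _ _ (h2 _ _ g1 g4)) (h2 _ _ g2 g4)) (h2 _ _ g5 g1))

theorem hX (i : Fin 3) (n : ℕ) : ((X i : S3) ^ n).IsHomogeneous n := by
  have := (isHomogeneous_X ℚ i).pow n
  rwa [one_mul] at this

/-- The negation of the preceding statement: For a homogeneous ideal Q of a polynomial ring over a field: if pd Q = 1 and pd Q^t = 1 for all large t, then pd Q^t = 1 for every t ≥ 1 (pd = 1 means a finite free cover with projective kernel exists and the module is not projective). -/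
theorem result :
    ¬ (∀ (k : Type) [Field k] (n : ℕ) (Q : Ideal (MvPolynomial (Fin n) k)),
      (∃ s : Set (MvPolynomial (Fin n) k),
          (∀ p ∈ s, ∃ d : ℕ, MvPolynomial.IsHomogeneous p d) ∧ Q = Ideal.span s) →
      ((∃ (m : ℕ) (f : (Fin m → MvPolynomial (Fin n) k) →ₗ[MvPolynomial (Fin n) k] ↥Q),
            Function.Surjective f ∧
              Module.Projective (MvPolynomial (Fin n) k) ↥(LinearMap.ker f)) ∧
          ¬ Module.Projective (MvPolynomial (Fin n) k) ↥Q) →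
      (∃ t₀ : ℕ, ∀ t : ℕ, t₀ ≤ t →
          (∃ (m : ℕ) (f : (Fin m → MvPolynomial (Fin n) k) →ₗ[MvPolynomial (Fin n) k] ↥(Q ^ t)),
              Function.Surjective f ∧
                Module.Projective (MvPolynomial (Fin n) k) ↥(LinearMap.ker f)) ∧
            ¬ Module.Projective (MvPolynomial (Fin n) k) ↥(Q ^ t)) →
      ∀ t : ℕ, 1 ≤ t →
        (∃ (m : ℕ) (f : (Fin m → MvPolynomial (Fin n) k) →ₗ[MvPolynomial (Fin n) k] ↥(Q ^ t)),
            Function.Surjective f ∧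
              Module.Projective (MvPolynomial (Fin n) k) ↥(LinearMap.ker f)) ∧
          ¬ Module.Projective (MvPolynomial (Fin n) k) ↥(Q ^ t)) := by
  intro H
  have hQM : Q ≤ M := Q_le.trans (Ideal.pow_le_self (by norm_num))
  refine Q2_not_pd (H ℚ 3 Q ⟨_, ?_, rfl⟩ ⟨pd_Q, not_proj hQM g5 g1⟩ ⟨3, ?_⟩ 2 (by norm_num)).1
  · rintro p (rfl | rfl | rfl | rfl | rfl)
    · exact ⟨5, hX 1 5⟩
    · refine ⟨2 + 4, ?_⟩
      exact (hX 0 2).mul (hX 1 4)
    · refine ⟨6 + 3, ?_⟩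
      rw [XX, ← pow_mul]
      exact (hX 0 6).mul (hX 1 3)
    · refine ⟨9, ?_⟩
      rw [ff, XX, YY, ZZ, ← pow_mul, ← pow_mul]
      refine IsHomogeneous.add ?_ ?_
      · have := (hX 0 8).mul (hX 1 1)
        rwa [pow_one] at this
      · have := (hX 2 1).mul ((hX 0 6).mul (hX 1 2))
        rwa [pow_one] at this
    · refine ⟨10, ?_⟩
      rw [XX, ← pow_mul]
      exact hX 0 10
  · intro t ht
    refine ⟨?_, ?_⟩
    · have := pd_M (5 * t)
      rw [← Q_pow t ht] at this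
      exact this
    · refine not_proj (a := 5 * t) (b := 5 * t) ?_ ?_ ?_
      · rw [Q_pow t ht]
        exact Ideal.pow_le_self (by omega)
      · rw [pow_mul]
        exact Ideal.pow_mem_pow g5 _
      · rw [pow_mul]
        exact Ideal.pow_mem_pow g1 _

end Pool.Agent.S00062
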