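import Pool.Statements.S00422
import Pool.Agent.AM.Final

set_option autoImplicit false
open Matrix
open scoped ENNReal
open Pool Pool.MP_becd93_ag

namespace Pool.Agent.S00422

/-- The negation of the preceding statement: There exist g and k with k ≤ g−2 such that, for every period matrix τ, the singular locus of the theta divisor has dimension ≥ k exactly when it has dimension ≥ k+1 (dimension measured as half the Hausdorff dimension, empty set excluded). -/
theorem result :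
    ¬ (∃ g k : ℕ, k + 2 ≤ g ∧
      ∀ τ : Matrix (Fin g) (Fin g) ℂ, τ.transpose = τ → (τ.map Complex.im).PosDef →
        ∀ θ : (Fin g → ℂ) → ℂ,
          θ = (fun w : Fin g → ℂ => ∑' n : Fin g → ℤ,
                Complex.exp ((Real.pi : ℂ) * Complex.I *
                    ((fun i => (n i : ℂ)) ⬝ᵥ (τ *ᵥ (fun i => (n i : ℂ)))) +
                  2 * (Real.pi : ℂ) * Complex.I * ((fun i => (n i : ℂ)) ⬝ᵥ w))) →
          ∀ S : Set (Fin g → ℂ),
            S = {z : Fin g → ℂ | θ z = 0 ∧ fderiv ℂ θ z = 0} →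
            (((∃ z : Fin g → ℂ, z ∈ S) ∧ (((2 * k : ℕ) : ℝ≥0∞) ≤ dimH S)) ↔
              ((∃ z : Fin g → ℂ, z ∈ S) ∧ (((2 * (k + 1) : ℕ) : ℝ≥0∞) ≤ dimH S)))) := by
  rintro ⟨g, k, hk, h⟩
  obtain ⟨τ, h1, h2, h3, h4⟩ := Pool.Agent.AM.all_cases g k hk
  have h5 := h τ h1 h2 (Pool.Agent.AM.rth g τ) rfl
    {z : Fin g → ℂ | Pool.Agent.AM.rth g τ z = 0 ∧ fderiv ℂ (Pool.Agent.AM.rth g τ) z = 0} rfl
  have h6 := (h5.mp ⟨h3, h4.ge⟩).2
  rw [h4] at h6
  have h7 : 2 * (k + 1) ≤ 2 * k := by exact_mod_cast h6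
  omega

end Pool.Agent.S00422
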