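import Pool.Statements.S00561
import Pool.Agent.FCV.ALL

set_option autoImplicit false
open Pool Pool.MP_f9bf63_ag

namespace Pool.Agent.S00561

/-- Over the function field of a curve over an algebraically closed field of characteristic p, every smooth degree-d hypersurface in P^n with 1≤d, d²≤n has its rational points dense in the product of its local points at any finitely many distinct places. -/
theorem result :
    ∀ (p : ℕ) [Fact p.Prime] (k : Type) [Field k] [IsAlgClosed k] [CharP k p]
      (K : Type) [Field K] [Algebra (RatFunc k) K] [FiniteDimensional (RatFunc k) K]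
      (n d : ℕ) (F : MvPolynomial (Fin (n + 1)) K),
      1 ≤ d → d ^ 2 ≤ n → F.IsHomogeneous d →
      (∀ x : Fin (n + 1) → AlgebraicClosure K, x ≠ 0 → MvPolynomial.aeval x F = 0 →
        ∃ i, MvPolynomial.aeval x (MvPolynomial.pderiv i F) ≠ 0) →
      ∀ (m : ℕ) (v : Fin m → Valuation K (WithZero (Multiplicative ℤ))),
      (∀ j, ∃ a : K, v j a ≠ 0 ∧ v j a ≠ 1) →
      (∀ j (c : k), c ≠ 0 → v j (algebraMap (RatFunc k) K (RatFunc.C c)) = 1) →
      (∀ i j, i ≠ j → ¬ (v i).IsEquiv (v j)) →
      ∀ (x : ∀ j, Fin (n + 1) → UniformSpace.Completion (WithVal (v j))),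
      (∀ j, x j ≠ 0 ∧
        MvPolynomial.eval₂
          ((UniformSpace.Completion.coeRingHom : WithVal (v j) →+* _).comp
            (WithVal.equiv (v j)).symm.toRingHom) (x j) F = 0) →
      ∀ (U : ∀ j, Set (Fin (n + 1) → UniformSpace.Completion (WithVal (v j)))),
      (∀ j, IsOpen (U j) ∧ x j ∈ U j) →
      ∃ y : Fin (n + 1) → K, y ≠ 0 ∧ MvPolynomial.eval y F = 0 ∧
        ∀ j, ∃ c : UniformSpace.Completion (WithVal (v j)), c ≠ 0 ∧
          (fun i => c * ((UniformSpace.Completion.coeRingHom : WithVal (v j) →+* _).comp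
            (WithVal.equiv (v j)).symm.toRingHom) (y i)) ∈ U j := by
  intro p _ k _ _ _ K _ _ _ n d F hd hn hF hsm m v hnt htr hne x hx U hU
  exact Pool.Agent.FCV.frozen_of_targets Pool.Agent.FCV.f_WAC Pool.Agent.WL.a_WA2
    Pool.Agent.WL.p_FIN Pool.Agent.WL.p_ONE k K n d F hd hn hF hsm m v hnt htr hne x hx U hU

end Pool.Agent.S00561
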