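import Pool.Statements.S01227
import Pool.Agent.TK.MainFree
import Pool.Agent.TK.MainKill
import Pool.Agent.TK.AB5

set_option autoImplicit false
open Pool Pool.MP_3ae405_al

namespace Pool.Agent.S01227

/-- For every k ≥ 1 there is an infinite countable group that has a faithful k-transitive action on a set of at least k points, but no faithful (k+1)-transitive action on any set of at least k+1 points. -/
theorem result :
    ∀ k : ℕ, 1 ≤ k →
      ∃ (G : Type) (_ : Group G), Infinite G ∧ Countable G ∧
        (∃ (X : Type) (_ : MulAction G X),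
            Nonempty (Fin k ↪ X) ∧
            (∀ g : G, (∀ x : X, g • x = x) → g = 1) ∧
            ∀ x y : Fin k ↪ X, ∃ g : G, ∀ i, g • x i = y i) ∧
        ∀ (X : Type) (_ : MulAction G X),
            Nonempty (Fin (k + 1) ↪ X) →
            (∀ g : G, (∀ x : X, g • x = x) → g = 1) →
            ¬ ∀ x y : Fin (k + 1) ↪ X, ∃ g : G, ∀ i, g • x i = y i := by
  intro k hk
  by_cases h5 : k = 5
  · subst h5
    exact TK.m_K5_of TK.m_KILL
  · rcases Nat.lt_or_ge k 4 with h4 | h4
    · have h : k = 1 ∨ k = 2 ∨ k = 3 := by omega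
      rcases h with rfl | rfl | rfl
      · exact TK.p_K1
      · exact TK.p_K2
      · exact TK.p_K3
    · obtain ⟨G, iG, hinf, hc, ⟨X, iX, hX, hf, hne, htr⟩, hno, -⟩ :=
        TK.AB5.result k h4 h5
      refine ⟨G, iG, hinf, hc, ⟨X, iX, hne, hf, htr⟩, ?_⟩
      intro Y iY hY _ hall
      exact hno (k + 1) (Nat.lt_succ_self k) Y iY ⟨hY, hall⟩

end Pool.Agent.S01227
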