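import Pool.Statements.S01761
import Pool.Agent.MP67f4ab.Main

set_option autoImplicit false
open Pool Pool.MP_67f4ab_al

namespace Pool.Agent.S01761

/-- For every free group and every homogeneous quasimorphism φ on it with defect D, there is a function ψ within bounded distance of φ whose defect is at most D/2, hence exactly D/2. -/
theorem result :
    ∀ (α : Type) (φ : FreeGroup α → ℝ) (D : ℝ),
      (∀ g h : FreeGroup α, |φ (g * h) - φ g - φ h| ≤ D) →
      (∀ D' : ℝ, (∀ g h : FreeGroup α, |φ (g * h) - φ g - φ h| ≤ D') → D ≤ D') →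
      (∀ (g : FreeGroup α) (n : ℕ), φ (g ^ n) = (n : ℝ) * φ g) →
      ∃ ψ : FreeGroup α → ℝ,
        (∃ C : ℝ, ∀ g : FreeGroup α, |ψ g - φ g| ≤ C) ∧
        ∀ g h : FreeGroup α, |ψ (g * h) - ψ g - ψ h| ≤ D / 2 := by
  intro α φ D hq _ hh
  obtain ⟨ψ, h1, h2⟩ := Pool.Agent.MP67f4ab.exists_half_defect hq hh
  exact ⟨ψ, ⟨D / 2, h1⟩, h2⟩

end Pool.Agent.S01761
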