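import Pool.Statements.S02417
import Pool.Agent.MP984e59.Final
import Pool.Agent.MP984e59.Pairs
import Pool.Agent.RPoset.Stab

set_option autoImplicit false
open Pool Pool.MP_984e59_al

namespace Pool.Agent.S02417

/-- For the countable universal homogeneous poset, every subgroup of its automorphism group that has fewer than continuum many cosets and acts transitively on the points is the whole automorphism group. -/
theorem result :
    ∀ (Ω : Type) [PartialOrder Ω] [Countable Ω],
      (∀ (α : Type) [Finite α] [PartialOrder α], Nonempty (α ↪o Ω)) →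
      (∀ (A B : Set Ω), A.Finite → ∀ f : A ≃o B, ∃ g : Ω ≃o Ω, ∀ a : A, g a.1 = (f a).1) →
      ∀ H : Subgroup (Ω ≃o Ω),
        Cardinal.mk ((Ω ≃o Ω) ⧸ H) < Cardinal.continuum →
        (∀ x y : Ω, ∃ h ∈ H, h x = y) →
        H = ⊤ := by
  intro Ω _ _ huniv hom H hH htr
  classical
  have h : Pool.Agent.MP984e59.UH Ω := ⟨huniv, hom⟩
  obtain ⟨F, hF⟩ := Pool.Agent.MP984e59.sip_of_pairs h
    (fun P hP => Pool.Agent.MP984e59.pairs h P hP) H hH
  exact Pool.Agent.RPoset.stab_top huniv hom H htr F hF

end Pool.Agent.S02417
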