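import Pool.Statements.S02594
import Pool.Agent.NoExt.Final
import Pool.Agent.NoExt.Alg
import Pool.Agent.NoExt.Book
import Pool.Agent.NoExt.Cst
import Pool.Agent.NoExt.Exp
import Pool.Agent.NoExt.FctClose
import Pool.Agent.NoExt.GoodEx
import Pool.Agent.NoExt.Kill
import Pool.Agent.NoExt.Main
import Pool.Agent.NoExt.Top
import Pool.Agent.NoExt.TowerEx
import Pool.Agent.NoExt.Vals

set_option autoImplicit false
open Pool Pool.MP_a60711_al

namespace Pool.Agent.S02594

/-- The negation of the preceding statement: Every topological field F admits a ring homomorphism into some connected topological field K that is a topological embedding (a homeomorphism onto its image). -/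
theorem result :
    ¬ (∀ (F : Type) [Field F] [TopologicalSpace F] [IsTopologicalDivisionRing F],
      ∃ (K : Type) (_ : Field K) (_ : TopologicalSpace K),
        IsTopologicalDivisionRing K ∧ ConnectedSpace K ∧
          ∃ f : F →+* K, Topology.IsEmbedding (⇑f)) := by
  have hG := NoExt.GoodEx.pGood
  have hU := NoExt.pUnit hG
  have hC := NoExt.pCst hU
  have hE := NoExt.pExp hU NoExt.pVle
  exact NoExt.pFinal NoExt.pTower
    (NoExt.pMain hG NoExt.pVcoeff hC hE (NoExt.pFin hG NoExt.pVcof hC hE NoExt.FctClose.pFct) NoExt.pAlg)
    (NoExt.pTop hU) NoExt.pKill NoExt.FctClose.pClose NoExt.pBook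

end Pool.Agent.S02594
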