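import Pool.Statements.S02745
import Pool.Agent.FC.Final

set_option autoImplicit false
open Pool Pool.MP_b2231e_al

namespace Pool.Agent.S02745

/-- For every group with finite conjugacy classes whose derived subgroup embeds in a restricted direct product of finite groups, the quotient by its center also embeds in a restricted direct product of finite groups. -/
theorem result :
  ∀ (G : Type) [Group G],
    (∀ g : G, {h : G | IsConj g h}.Finite) →
    (∃ (ι : Type) (F : ι → Type) (inst : ∀ i, Group (F i)) (_ : ∀ i, Finite (F i))
        (f : ↥(commutator G) →* ((i : ι) → F i)),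
        Function.Injective f ∧ ∀ x, {i : ι | f x i ≠ 1}.Finite) →
    (∃ (ι : Type) (F : ι → Type) (inst : ∀ i, Group (F i)) (_ : ∀ i, Finite (F i))
        (f : (G ⧸ Subgroup.center G) →* ((i : ι) → F i)),
        Function.Injective f ∧ ∀ x, {i : ι | f x i ≠ 1}.Finite) := by
  intro G _ hfc hSDF
  have h1 : Pool.Agent.FC.IsFC G := by
    intro g
    refine (hfc g).subset ?_
    rintro _ ⟨k, rfl⟩
    exact isConj_iff.mpr ⟨k, rfl⟩
  exact Pool.Agent.FC.sdf_central_quotient h1 hSDF

end Pool.Agent.S02745
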