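import Pool.Statements.S02819
import Pool.Agent.GE2.Push
import Pool.Agent.GE2.Game4
import Pool.Agent.GE2.T3
import Pool.Agent.GE2.Star

set_option autoImplicit false
open Pool Pool.MP_b6b17e_al

namespace Pool.Agent.S02819

/-- Every invertible 2x2 matrix over the Laurent polynomials ℤ[t,t⁻¹] is a product of elementary matrices (identity plus one off-diagonal entry) and invertible diagonal matrices, together with their inverses. -/
theorem result :
    Subgroup.closure
      {g : Matrix.GeneralLinearGroup (Fin 2) (LaurentPolynomial ℤ) |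
        (∃ i j : Fin 2, ∃ c : LaurentPolynomial ℤ, i ≠ j ∧
            (g : Matrix (Fin 2) (Fin 2) (LaurentPolynomial ℤ)) = Matrix.transvection i j c) ∨
        (∃ d : Fin 2 → (LaurentPolynomial ℤ)ˣ,
            (g : Matrix (Fin 2) (Fin 2) (LaurentPolynomial ℤ)) =
              Matrix.diagonal (fun k => (d k : LaurentPolynomial ℤ)))} = ⊤ :=
  Pool.Agent.GE2.final_of Pool.Agent.GE2.low_red Pool.Agent.GE2.exists_red Pool.Agent.GE2.star
    Pool.Agent.GE2.lev_ne_zero Pool.Agent.GE2.Cn_std Pool.Agent.GE2.red_conn
    (fun _ => Pool.Agent.GE2.no_prob)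

end Pool.Agent.S02819
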