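import Pool.Statements.S03473
import Pool.Agent.H42.DCFinal

set_option autoImplicit false
open Pool Pool.MP_ece58e_al

namespace Pool.Agent.S03473

/-- For every group G with cyclic subgroup C and finite cyclic subgroup F such that every element of G is c1·f·c2 with c1, c2 in C and f in F, the index of C in G is finite. -/
theorem result :
    ∀ (G : Type) [Group G] (C F : Subgroup G),
      IsCyclic C → IsCyclic F → Finite F →
      (∀ g : G, ∃ c₁ ∈ C, ∃ f ∈ F, ∃ c₂ ∈ C, g = c₁ * f * c₂) →
      C.index ≠ 0 := by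
  intro G _ C F hC _ hF h
  obtain ⟨⟨c, hcC⟩, hc⟩ := hC.exists_generator
  have hCz : C = Subgroup.zpowers c := by
    apply le_antisymm
    · intro x hx
      obtain ⟨k, hk⟩ := hc ⟨x, hx⟩
      refine ⟨k, ?_⟩
      have := congrArg Subtype.val hk
      simpa using this
    · rw [Subgroup.zpowers_le]
      exact hcC
  subst hCz
  have hfin : Finite (G ⧸ Subgroup.zpowers c) := by
    refine Pool.Agent.H42.finite_of_double_cosets c (T := (F : Set G)) (Set.toFinite _) ?_
    intro g
    obtain ⟨c₁, ⟨a, rfl⟩, f, hf, c₂, ⟨b, rfl⟩, hg⟩ := h g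
    exact ⟨f, hf, a, b, hg⟩
  have : (Subgroup.zpowers c).FiniteIndex := Subgroup.finiteIndex_of_finite_quotient
  exact this.index_ne_zero

end Pool.Agent.S03473
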