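import Pool.Statements.S03939
import Pool.Agent.PRR.All

set_option autoImplicit false
open Pool Pool.MP_17cc4e_an

namespace Pool.Agent.S03939

/-- For a homeomorphism T of a compact metric space with T^k minimal (k≥2), non-constant integer polynomials P_m vanishing at 0, and j<k: generic x admit n_i→∞, n_i≡j mod k, with T^{P_m(n_i)}x→x for all m. -/
theorem result :
    ∀ (X : Type) [MetricSpace X] [CompactSpace X] (T : X ≃ₜ X) (k : ℕ), 2 ≤ k →
      (∀ x : X, Dense {y : X | ∃ n : ℕ, (⇑T)^[k * n] x = y}) →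
      ∀ (d : ℕ) (P : Fin d → Polynomial ℤ),
        (∀ m, 0 < (P m).natDegree) → (∀ m, (P m).eval 0 = 0) →
        ∀ j : ℕ, j < k →
          ∃ G : Set X, IsGδ G ∧ Dense G ∧ ∀ x ∈ G, ∃ n : ℕ → ℕ,
            Filter.Tendsto n Filter.atTop Filter.atTop ∧ (∀ i, n i % k = j) ∧
            ∀ m, Filter.Tendsto
              (fun i => ((T.toEquiv : Equiv.Perm X) ^ ((P m).eval ((n i : ℕ) : ℤ))) x)
              Filter.atTop (nhds x) :=
  Pool.Agent.PRR.p_MAIN

end Pool.Agent.S03939
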