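import Pool.Statements.S04058
import Pool.Agent.FBP46.Main

set_option autoImplicit false
open Pool Pool.MP_233d20_an

namespace Pool.Agent.S04058

/-- The negation of the preceding statement: For any two square 0/1 matrices, some finite product P of length k≥1 has ρ(P)^(1/k) at least ρ(Q)^(1/m) for every product Q of length m≥1, i.e. the joint spectral radius is attained by a finite product. -/
theorem result :
    ¬ (∀ (n : ℕ) (A : Fin 2 → Matrix (Fin n) (Fin n) ℂ),
    (∀ (i : Fin 2) (a b : Fin n), A i a b = 0 ∨ A i a b = 1) →
    ∃ (k : ℕ) (w : Fin k → Fin 2), 0 < k ∧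
      ∀ (m : ℕ) (v : Fin m → Fin 2), 0 < m →
        spectralRadius ℂ (List.ofFn (fun j => A (v j))).prod ^ k ≤
          spectralRadius ℂ (List.ofFn (fun j => A (w j))).prod ^ m) :=
  FBP46.main

end Pool.Agent.S04058
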