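import Pool.Statements.S04308
import Pool.Agent.FrechetQ.Cases
import Pool.Agent.FrechetQ.NoLUR

set_option autoImplicit false
open Filter Topology
open Pool Pool.MP_34b873_an

namespace Pool.Agent.S04308

/-- The negation of the preceding statement: If every quotient of a real Banach space X by a closed subspace has an equivalent norm that is Fréchet differentiable away from 0, then X has an equivalent norm whose dual norm on X* is locally uniformly rotund. -/
theorem result :
    ¬ (∀ (X : Type) [NormedAddCommGroup X] [NormedSpace ℝ X] [CompleteSpace X],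
    (∀ Y : Submodule ℝ X, IsClosed (Y : Set X) →
      ∃ p : Seminorm ℝ X,
        (∃ c C : ℝ, 0 < c ∧ ∀ x : X,
          c * Metric.infDist x (Y : Set X) ≤ p x ∧ p x ≤ C * Metric.infDist x (Y : Set X)) ∧
        ∀ x : X, x ∉ Y → DifferentiableAt ℝ (fun z : X => p z) x) →
    ∃ N : Seminorm ℝ X,
      (∃ c C : ℝ, 0 < c ∧ ∀ x : X, c * ‖x‖ ≤ N x ∧ N x ≤ C * ‖x‖) ∧
      ∀ (f : X →L[ℝ] ℝ) (g : ℕ → (X →L[ℝ] ℝ)),
        Tendsto (fun n : ℕ =>
            2 * (sSup ((fun x : X => f x) '' {x : X | N x ≤ 1})) ^ 2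
            + 2 * (sSup ((fun x : X => g n x) '' {x : X | N x ≤ 1})) ^ 2
            - (sSup ((fun x : X => (f + g n) x) '' {x : X | N x ≤ 1})) ^ 2)
          atTop (𝓝 0) →
        Tendsto g atTop (𝓝 f)) := by
  intro H
  obtain ⟨N, ⟨c, C, hc, hN⟩, hlur⟩ := H (FrechetQ.XX FrechetQ.Om)
    (fun Y hY => FrechetQ.quotients_smooth Y hY)
  obtain ⟨f, g, h1, h2⟩ := FrechetQ.no_lur N c hc (fun x => (hN x).1)
  exact h2 (hlur f g h1)

end Pool.Agent.S04308
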