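-- Proof of the frozen statement S04418 (negative answer to MP_3d411c_an).
import Pool.Statements.S04418
import Pool.Agent.MP3d411c.Final

set_option autoImplicit false
open Pool Pool.MP_3d411c_an

namespace Pool.Agent.S04418

/-- The negation of the preceding statement: Let R be a commutative complex Banach algebra in which every element is quasinilpotent. If R has a map a on (0,∞) with a(s+t)=a(s)a(t) that is not identically zero, then it has such a map that is also norm-continuous on (0,∞). -/
theorem result :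
    ¬ (∀ (R : Type) [NonUnitalNormedCommRing R] [NormedSpace ℂ R] [IsScalarTower ℂ R R]
      [SMulCommClass ℂ R R] [CompleteSpace R],
      (∀ x : R, spectrum ℂ (Unitization.inr x : Unitization ℂ R) ⊆ {0}) →
      (∃ a : ℝ → R, (∀ s t : ℝ, 0 < s → 0 < t → a (s + t) = a s * a t) ∧
          ∃ t : ℝ, 0 < t ∧ a t ≠ 0) →
      ∃ b : ℝ → R, (∀ s t : ℝ, 0 < s → 0 < t → b (s + t) = b s * b t) ∧
          (∃ t : ℝ, 0 < t ∧ b t ≠ 0) ∧ ContinuousOn b (Set.Ioi 0)) := by
  intro H
  obtain ⟨b, hb, ⟨t1, ht1, hbt1⟩, hcont⟩ :=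
    H Pool.Agent.MP3d411c.R0 Pool.Agent.MP3d411c.spectrum_R0
      Pool.Agent.MP3d411c.exists_semigroup_R0
  exact hbt1 (Pool.Agent.MP3d411c.no_continuous_R0 b hb hcont t1 ht1)

end Pool.Agent.S04418
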