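import Pool.Statements.S04561
import Pool.Agent.Lib.Hinf.Final

set_option autoImplicit false
open Pool Pool.MP_496271_an

namespace Pool.Agent.S04561

/-- If a sequence of bounded linear functionals on H^∞ of the disc (sup norm) is pointwise bounded at every inner function (radial limits of modulus 1 a.e.), then their operator norms are uniformly bounded. -/
theorem result :
    ∀ Λ : ℕ → ((Submodule.span ℂ {f : BoundedContinuousFunction (Metric.ball (0:ℂ) 1) ℂ |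
        ∃ F : ℂ → ℂ, DifferentiableOn ℂ F (Metric.ball (0:ℂ) 1) ∧ ∀ z : Metric.ball (0:ℂ) 1, f z = F (z : ℂ)}) →L[ℂ] ℂ),
      (∀ φ : Submodule.span ℂ {f : BoundedContinuousFunction (Metric.ball (0:ℂ) 1) ℂ |
          ∃ F : ℂ → ℂ, DifferentiableOn ℂ F (Metric.ball (0:ℂ) 1) ∧ ∀ z : Metric.ball (0:ℂ) 1, f z = F (z : ℂ)},
        (∃ F : ℂ → ℂ, (∀ z : Metric.ball (0:ℂ) 1,
            (φ : BoundedContinuousFunction (Metric.ball (0:ℂ) 1) ℂ) z = F (z : ℂ)) ∧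
          ∀ᵐ θ : ℝ, ∃ w : ℂ, ‖w‖ = 1 ∧
            Filter.Tendsto (fun r : ℝ => F ((r : ℂ) * Complex.exp ((θ : ℂ) * Complex.I)))
              (nhdsWithin (1 : ℝ) (Set.Iio 1)) (nhds w)) →
        ∃ C : ℝ, ∀ n : ℕ, ‖Λ n φ‖ ≤ C) →
      ∃ C : ℝ, ∀ n : ℕ, ‖Λ n‖ ≤ C := by
  intro Λ hΛ
  -- the isometric identification with `HInf`
  have hmem : ∀ x : Pool.Agent.Hinf.HInf,
      (x : BoundedContinuousFunction (Metric.ball (0:ℂ) 1) ℂ) ∈
        Submodule.span ℂ {f : BoundedContinuousFunction (Metric.ball (0:ℂ) 1) ℂ |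
        ∃ F : ℂ → ℂ, DifferentiableOn ℂ F (Metric.ball (0:ℂ) 1) ∧
          ∀ z : Metric.ball (0:ℂ) 1, f z = F (z : ℂ)} :=
    fun x => Submodule.subset_span x.2
  have hmem' : ∀ x : BoundedContinuousFunction (Metric.ball (0:ℂ) 1) ℂ,
      x ∈ Submodule.span ℂ {f : BoundedContinuousFunction (Metric.ball (0:ℂ) 1) ℂ |
        ∃ F : ℂ → ℂ, DifferentiableOn ℂ F (Metric.ball (0:ℂ) 1) ∧
          ∀ z : Metric.ball (0:ℂ) 1, f z = F (z : ℂ)} → x ∈ Pool.Agent.Hinf.hinfAlg := by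
    intro x hx
    have hle : Submodule.span ℂ {f : BoundedContinuousFunction (Metric.ball (0:ℂ) 1) ℂ |
        ∃ F : ℂ → ℂ, DifferentiableOn ℂ F (Metric.ball (0:ℂ) 1) ∧
          ∀ z : Metric.ball (0:ℂ) 1, f z = F (z : ℂ)}
        ≤ Subalgebra.toSubmodule Pool.Agent.Hinf.hinfAlg := by
      rw [Submodule.span_le]
      intro y hy
      exact hy
    exact hle hx
  let E : Pool.Agent.Hinf.HInf →L[ℂ]
      (Submodule.span ℂ {f : BoundedContinuousFunction (Metric.ball (0:ℂ) 1) ℂ |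
        ∃ F : ℂ → ℂ, DifferentiableOn ℂ F (Metric.ball (0:ℂ) 1) ∧
          ∀ z : Metric.ball (0:ℂ) 1, f z = F (z : ℂ)}) :=
    LinearMap.mkContinuous
      { toFun := fun x => ⟨x.1, hmem x⟩
        map_add' := fun _ _ => rfl
        map_smul' := fun _ _ => rfl } 1 (fun x => by
      rw [one_mul]
      exact le_rfl)
  obtain ⟨C, hC⟩ := Pool.Agent.Hinf.uniform_bounded_of_inner (fun n => (Λ n).comp E) (by
    intro φ hφ
    refine hΛ ⟨φ.1, hmem φ⟩ ⟨Pool.Agent.Hinf.ev φ, ?_, ?_⟩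
    · intro z
      exact (Pool.Agent.Hinf.ev_of_mem φ z.2).symm
    · have h1 : ∀ᵐ ζ ∂Pool.Agent.Hinf.sg, ∃ w : ℂ, ‖w‖ = 1 ∧
          Filter.Tendsto (fun r : ℝ => Pool.Agent.Hinf.ev φ ((r : ℂ) * ζ))
            (nhdsWithin (1 : ℝ) (Set.Iio 1)) (nhds w) := by
        filter_upwards [hφ, Pool.Agent.Hinf.tendsto_bv φ] with ζ h2 h3
        exact ⟨_, h2, h3⟩
      have h4 := Pool.Agent.Hinf.ae_of_ae_sg _ h1
      filter_upwards [h4] with θ hθ
      rw [Pool.Agent.Hinf.cm_eq_exp] at hθ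
      exact hθ)
  refine ⟨C, fun n => ?_⟩
  refine le_trans ?_ (hC n)
  refine ContinuousLinearMap.opNorm_le_bound _ (norm_nonneg _) (fun x => ?_)
  have h5 := ((Λ n).comp E).le_opNorm ⟨x.1, hmem' x.1 x.2⟩
  exact h5

end Pool.Agent.S04561
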