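import Pool.Statements.S04867
import Pool.Agent.GP.PartA
import Pool.Agent.GP.PartB
import Pool.Agent.GP.Product

set_option autoImplicit false
open Pool Pool.MP_63d1a1_an

namespace Pool.Agent.S04867

/-- There is a compact X in C^N with polynomial hull strictly bigger than X and no analytic discs in hull minus X, such that P(X) has no nonzero bounded point derivations, yet some point of hull minus X shares its Gleason part with another hull point. -/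
theorem result :
    ∃ N : ℕ, ∃ X : Set (Fin N → ℂ), IsCompact X ∧
      (∃ z : Fin N → ℂ, z ∉ X ∧
        ∀ p : MvPolynomial (Fin N) ℂ, ∃ x ∈ X,
          ‖MvPolynomial.eval z p‖ ≤ ‖MvPolynomial.eval x p‖) ∧
      (∀ f : ℂ → (Fin N → ℂ), DifferentiableOn ℂ f (Metric.ball (0 : ℂ) 1) →
        Set.MapsTo f (Metric.ball (0 : ℂ) 1)
          {z : Fin N → ℂ | z ∉ X ∧ ∀ p : MvPolynomial (Fin N) ℂ, ∃ x ∈ X,
            ‖MvPolynomial.eval z p‖ ≤ ‖MvPolynomial.eval x p‖} →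
        ∃ c : Fin N → ℂ, ∀ ζ ∈ Metric.ball (0 : ℂ) 1, f ζ = c) ∧
      (∀ z : Fin N → ℂ,
        (∀ p : MvPolynomial (Fin N) ℂ, ∃ x ∈ X,
          ‖MvPolynomial.eval z p‖ ≤ ‖MvPolynomial.eval x p‖) →
        ∀ D : MvPolynomial (Fin N) ℂ →ₗ[ℂ] ℂ,
          (∀ p q : MvPolynomial (Fin N) ℂ,
            D (p * q) = MvPolynomial.eval z p * D q + MvPolynomial.eval z q * D p) →
          (∃ C : ℝ, ∀ p : MvPolynomial (Fin N) ℂ, ∀ M : ℝ,
            (∀ x ∈ X, ‖MvPolynomial.eval x p‖ ≤ M) → ‖D p‖ ≤ C * M) →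
          D = 0) ∧
      (∃ z w : Fin N → ℂ, z ∉ X ∧
        (∀ p : MvPolynomial (Fin N) ℂ, ∃ x ∈ X,
          ‖MvPolynomial.eval z p‖ ≤ ‖MvPolynomial.eval x p‖) ∧
        (∀ p : MvPolynomial (Fin N) ℂ, ∃ x ∈ X,
          ‖MvPolynomial.eval w p‖ ≤ ‖MvPolynomial.eval x p‖) ∧
        w ≠ z ∧
        ∃ c : ℝ, c < 2 ∧ ∀ p : MvPolynomial (Fin N) ℂ,
          (∀ x ∈ X, ‖MvPolynomial.eval x p‖ ≤ 1) →
          ‖MvPolynomial.eval z p - MvPolynomial.eval w p‖ ≤ c) := by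
  obtain ⟨X, hXc, ⟨ξ, hξX, hξ⟩, hXd⟩ := Pool.Agent.GP.partA
  obtain ⟨K, hKc, hKd, κ₁, hκ₁, κ₂, hκ₂, hne, c, hc, hcK⟩ := Pool.Agent.GP.partB
  have hnot : Fin.append ξ κ₁ ∉ Pool.Agent.GP.prodSet X K := by
    intro h
    apply hξX
    have h2 := Pool.Agent.GP.mem_left h
    have h3 : (fun i => Fin.append ξ κ₁ (Fin.castAdd 2 i)) = ξ := by
      ext i
      rw [Fin.append_left]
    rw [h3] at h2
    exact h2
  have hder := Pool.Agent.GP.noDer_prod hXd hKd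
  refine ⟨4 + 2, Pool.Agent.GP.prodSet X K, Pool.Agent.GP.prodSet_isCompact hXc hKc,
    ⟨Fin.append ξ κ₁, hnot, Pool.Agent.GP.inHull_append hξ hκ₁⟩, ?_, hder,
    Fin.append ξ κ₁, Fin.append ξ κ₂, hnot, Pool.Agent.GP.inHull_append hξ hκ₁,
    Pool.Agent.GP.inHull_append hξ hκ₂, ?_, c, hc, ?_⟩
  · intro f hf hm
    exact Pool.Agent.GP.noDisc hder f hf fun ζ hζ => (hm hζ).2
  · intro h
    apply hne
    ext j
    have h2 := congrFun h (Fin.natAdd 4 j)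
    rw [Fin.append_right, Fin.append_right] at h2
    exact h2
  · exact Pool.Agent.GP.gleason_prod hξ hcK

end Pool.Agent.S04867
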