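import Pool.Statements.S04938
import Pool.Agent.H35.RadFinal

set_option autoImplicit false
open Pool Pool.MP_6acab6_an

namespace Pool.Agent.S04938

open Pool.Agent.H35 in
/-- Auxiliary form: the norm `Ng g` on Euclidean space defeats the constant `C`. -/
theorem aux (C : ℝ) (n N : ℕ) (g : Fin N → Fin n → ℝ)
    (hg : ∀ (U W : Matrix (Fin n) (Fin n) ℝ), |U.det| * |W.det| = 1 →
      ∀ h2 : (Fin n → Bool) → ℝ, (∀ x, Ng g x ≤ 1 → ∀ ε, pair (W.mulVec x) ε ≤ h2 ε) →
      C * n < avg (fun ε => Ng g (Usg U ε)) * avg h2)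
    (u : EuclideanSpace ℝ (Fin n) ≃ₗ[ℝ] EuclideanSpace ℝ (Fin n))
    (e η : OrthonormalBasis (Fin n) ℝ (EuclideanSpace ℝ (Fin n))) :
    C * (n : ℝ) < ((∑ ε : Fin n → Bool,
          (fun x : EuclideanSpace ℝ (Fin n) => Ng g (fun j => x j))
            (∑ i, (if ε i then (1:ℝ) else -1) • u (e i))) / 2 ^ n) *
      ((∑ ε : Fin n → Bool,
          sSup ((fun x : EuclideanSpace ℝ (Fin n) =>
              |inner ℝ (∑ i, (if ε i then (1:ℝ) else -1) • η i) (u.symm x)|)
            '' {x | (fun x : EuclideanSpace ℝ (Fin n) => Ng g (fun j => x j)) x ≤ 1})) / 2 ^ n) := by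
  classical
  set U : Matrix (Fin n) (Fin n) ℝ := Matrix.of fun j i => (u (e i)) j with hU
  set W : Matrix (Fin n) (Fin n) ℝ :=
    Matrix.of fun i j => inner ℝ (η i) (u.symm (EuclideanSpace.single j (1:ℝ))) with hW
  -- expansion of a vector in the standard basis
  have hexp : ∀ x : EuclideanSpace ℝ (Fin n), x = ∑ j, x j • EuclideanSpace.single j (1:ℝ) := by
    intro x
    ext k
    simp [Finset.sum_apply, Pi.single_apply]
  have hinner : ∀ (v x : EuclideanSpace ℝ (Fin n)), inner ℝ v (u.symm x)
      = ∑ j, x j * inner ℝ v (u.symm (EuclideanSpace.single j (1:ℝ))) := by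
    intro v x
    conv_lhs => rw [hexp x]
    simp only [map_sum, map_smul, inner_sum, inner_smul_right]
  have hWU : W * U = η.toBasis.toMatrix e := by
    ext i k
    rw [Matrix.mul_apply, Module.Basis.toMatrix_apply]
    simp only [hW, hU, Matrix.of_apply]
    have h1 := hinner (η i) (u (e k))
    rw [LinearEquiv.symm_apply_apply] at h1
    rw [OrthonormalBasis.coe_toBasis_repr_apply, OrthonormalBasis.repr_apply_apply, h1]
    exact Finset.sum_congr rfl fun j _ => mul_comm _ _
  have hdet : |U.det| * |W.det| = 1 := by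
    rw [mul_comm, ← abs_mul, ← Matrix.det_mul, hWU, ← Module.Basis.det_apply]
    rcases η.det_to_matrix_orthonormalBasis_real e with h | h <;> rw [h] <;> simp
  set h2 : (Fin n → Bool) → ℝ := fun ε => sSup ((fun x : EuclideanSpace ℝ (Fin n) =>
              |inner ℝ (∑ i, (if ε i then (1:ℝ) else -1) • η i) (u.symm x)|)
            '' {x | (fun x : EuclideanSpace ℝ (Fin n) => Ng g (fun j => x j)) x ≤ 1}) with hh2
  have hh : ∀ x, Ng g x ≤ 1 → ∀ ε, pair (W.mulVec x) ε ≤ h2 ε := by
    intro x hx ε
    set v : EuclideanSpace ℝ (Fin n) := ∑ i, (if ε i then (1:ℝ) else -1) • η i with hv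
    have hbdd : BddAbove ((fun x : EuclideanSpace ℝ (Fin n) => |inner ℝ v (u.symm x)|)
            '' {x | (fun x : EuclideanSpace ℝ (Fin n) => Ng g (fun j => x j)) x ≤ 1}) := by
      refine ⟨∑ j, |inner ℝ v (u.symm (EuclideanSpace.single j (1:ℝ)))|, ?_⟩
      rintro _ ⟨y, hy, rfl⟩
      simp only
      rw [hinner]
      refine (Finset.abs_sum_le_sum_abs _ _).trans (Finset.sum_le_sum fun j _ => ?_)
      rw [abs_mul]
      have h3 : |y j| ≤ 1 := (abs_coord_le_Ng g (fun j => y j) j).trans hy
      have h4 := abs_nonneg (inner ℝ v (u.symm (EuclideanSpace.single j (1:ℝ))))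
      nlinarith
    have hval : pair (W.mulVec x) ε = inner ℝ v (u.symm (WithLp.toLp 2 x)) := by
      rw [hv, sum_inner]
      unfold pair
      refine Finset.sum_congr rfl fun i _ => ?_
      rw [real_inner_smul_left, hinner]
      simp only [Matrix.mulVec, dotProduct, hW, Matrix.of_apply, sg]
      congr 1
      exact Finset.sum_congr rfl fun j _ => mul_comm _ _
    rw [hval]
    refine (le_abs_self _).trans ?_
    exact le_csSup hbdd ⟨WithLp.toLp 2 x, hx, rfl⟩
  have key := hg U W hdet h2 hh
  have e1 : avg (fun ε => Ng g (Usg U ε)) = (∑ ε : Fin n → Bool,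
          (fun x : EuclideanSpace ℝ (Fin n) => Ng g (fun j => x j))
            (∑ i, (if ε i then (1:ℝ) else -1) • u (e i))) / 2 ^ n := by
    unfold avg
    rw [Fintype.card_fin]
    congr 1
    refine Finset.sum_congr rfl fun ε _ => ?_
    simp only
    congr 1
    funext j
    simp only [Usg, hU, Matrix.of_apply, sg]
    simp only [WithLp.ofLp_sum, WithLp.ofLp_smul, Finset.sum_apply, Pi.smul_apply, smul_eq_mul]
    exact Finset.sum_congr rfl fun i _ => mul_comm _ _
  have e2 : avg h2 = (∑ ε : Fin n → Bool, h2 ε) / 2 ^ n := by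
    unfold avg
    rw [Fintype.card_fin]
  rw [e1, e2] at key
  exact key

open Pool.Agent.H35 in
/-- The negation of the preceding statement: There is a constant C such that for every n and every norm on R^n there are an invertible linear map u and orthonormal bases e, eta with (sign-average of the norm of the sum of ±u e_i) times (sign-average of the dual norm of the sum of ±(u^-1)* eta_i) at most C n. -/
theorem result :
    ¬ (∃ C : ℝ, ∀ (n : ℕ) (N : EuclideanSpace ℝ (Fin n) → ℝ),
    (∀ x, N x = 0 → x = 0) →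
    (∀ (c : ℝ) (x : EuclideanSpace ℝ (Fin n)), N (c • x) = |c| * N x) →
    (∀ x y, N (x + y) ≤ N x + N y) →
    ∃ (u : EuclideanSpace ℝ (Fin n) ≃ₗ[ℝ] EuclideanSpace ℝ (Fin n))
      (e η : OrthonormalBasis (Fin n) ℝ (EuclideanSpace ℝ (Fin n))),
      ((∑ ε : Fin n → Bool,
          N (∑ i, (if ε i then (1:ℝ) else -1) • u (e i))) / 2 ^ n) *
      ((∑ ε : Fin n → Bool,
          sSup ((fun x : EuclideanSpace ℝ (Fin n) =>
              |inner ℝ (∑ i, (if ε i then (1:ℝ) else -1) • η i) (u.symm x)|)
            '' {x | N x ≤ 1})) / 2 ^ n)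
      ≤ C * (n : ℝ)) := by
  rintro ⟨C, hC⟩
  obtain ⟨n, N, g, hg⟩ := main_matrix C
  obtain ⟨u, e, η, h⟩ := hC n (fun x : EuclideanSpace ℝ (Fin n) => Ng g (fun j => x j))
    (by
      intro x hx
      ext j
      have h1 := abs_coord_le_Ng g (fun j => x j) j
      simp only at hx
      rw [hx] at h1
      simpa using h1)
    (by
      intro c x
      exact Ng_smul g c (fun j => x j))
    (by
      intro x y
      exact Ng_add_le g (fun j => x j) (fun j => y j))
  have := aux C n N g hg u e η
  exact absurd h (not_le.mpr this)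

end Pool.Agent.S04938
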