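import Pool.Statements.S05048
import Pool.Agent.H33.Far.Inst

set_option autoImplicit false
universe u
open Pool Pool.MP_72bcda_an

namespace Pool.Agent.S05048

/-- The negation of the preceding statement: In any real Hilbert space, if a closed convex set A is such that every point has exactly one farthest point in A, then A consists of a single point. -/
theorem result :
    ¬ (∀ (E : Type u) [NormedAddCommGroup E] [InnerProductSpace ℝ E] [CompleteSpace E]
      (A : Set E), IsClosed A → Convex ℝ A →
      (∀ y : E, ∃! a : E, a ∈ A ∧ ∀ b ∈ A, dist y b ≤ dist y a) →
      ∃ x : E, A = {x}) := by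
  intro h
  exact FarPt.AT_not_singleton.{u}
    (h FarPt.ET.{u} FarPt.AT FarPt.AT_isClosed FarPt.AT_convex FarPt.AT_unique)

end Pool.Agent.S05048
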