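import Pool.Statements.S05388
import Pool.Agent.BasisConst.Good
import Pool.Agent.BasisConst.NoMono

set_option autoImplicit false
open Pool Pool.MP_90e313_an

namespace Pool.Agent.S05388

/-- The negation of the preceding statement: Every real or complex Banach space with a Schauder basis has a Schauder basis whose basis constant equals the infimum of the basis constants over all its Schauder bases. -/
theorem result :
    ¬ (∀ (𝕜 : Type) [RCLike 𝕜] (E : Type) [NormedAddCommGroup E] [NormedSpace 𝕜 E] [CompleteSpace E],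
      (∃ e : ℕ → E, ∀ x : E, ∃! a : ℕ → 𝕜,
          Filter.Tendsto (fun n : ℕ => ∑ i ∈ Finset.range n, a i • e i) Filter.atTop (nhds x)) →
      ∃ e : ℕ → E,
        (∀ x : E, ∃! a : ℕ → 𝕜,
          Filter.Tendsto (fun n : ℕ => ∑ i ∈ Finset.range n, a i • e i) Filter.atTop (nhds x)) ∧
        ∀ (a : ℕ → 𝕜) (m n : ℕ), m ≤ n →
          ‖∑ i ∈ Finset.range m, a i • e i‖ ≤
            sInf {K : ℝ | ∃ f : ℕ → E,
                (∀ x : E, ∃! b : ℕ → 𝕜,
                  Filter.Tendsto (fun k : ℕ => ∑ i ∈ Finset.range k, b i • f i) Filter.atTop (nhds x)) ∧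
                ∀ (b : ℕ → 𝕜) (p q : ℕ), p ≤ q →
                  ‖∑ i ∈ Finset.range p, b i • f i‖ ≤ K * ‖∑ i ∈ Finset.range q, b i • f i‖} *
              ‖∑ i ∈ Finset.range n, a i • e i‖) := by
  intro H
  obtain ⟨g, hg, -⟩ := BasisConst.good_basis (1 / 2) (by norm_num) (by norm_num)
  obtain ⟨e, he, hem⟩ := H ℝ BasisConst.E ⟨g, hg⟩
  set Sset : Set ℝ := {K : ℝ | ∃ f : ℕ → BasisConst.E,
      (∀ x : BasisConst.E, ∃! b : ℕ → ℝ,
        Filter.Tendsto (fun k : ℕ => ∑ i ∈ Finset.range k, b i • f i) Filter.atTop (nhds x)) ∧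
      ∀ (b : ℕ → ℝ) (p q : ℕ), p ≤ q →
        ‖∑ i ∈ Finset.range p, b i • f i‖ ≤ K * ‖∑ i ∈ Finset.range q, b i • f i‖} with hS
  -- the set of constants is bounded below
  have hbdd : BddBelow Sset := by
    refine ⟨0, ?_⟩
    rintro K ⟨f, hf, hK⟩
    by_contra hneg
    push Not at hneg
    -- then all partial sums vanish, contradicting uniqueness
    have hz : ∀ (b : ℕ → ℝ) (q : ℕ), ∑ i ∈ Finset.range q, b i • f i = 0 := by
      intro b q
      have h1 := hK b q q le_rfl
      have h2 := norm_nonneg (∑ i ∈ Finset.range q, b i • f i)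
      rw [← norm_le_zero_iff]
      nlinarith
    obtain ⟨a, -, hau⟩ := hf 0
    have h1 := hau (fun _ => 0) (by simp only [hz]; exact tendsto_const_nhds)
    have h2 := hau (fun _ => 1) (by simp only [hz]; exact tendsto_const_nhds)
    have h3 := congrFun (h1.trans h2.symm) 0
    norm_num at h3
  -- hence its infimum is at most one
  have hinf : sInf Sset ≤ 1 := by
    refine le_of_forall_pos_le_add fun δ hδ => ?_
    have hε0 : 0 < δ / (1 + δ) := by positivity
    have hε1 : δ / (1 + δ) < 1 := by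
      rw [div_lt_one (by positivity)]; linarith
    have hmem : 1 / (1 - δ / (1 + δ)) ∈ Sset := BasisConst.good_basis _ hε0 hε1
    have hle := csInf_le hbdd hmem
    have heq : 1 / (1 - δ / (1 + δ)) = 1 + δ := by
      have : (1 + δ) ≠ 0 := by positivity
      have h2 : 1 - δ / (1 + δ) = 1 / (1 + δ) := by field_simp; ring
      rw [h2, one_div_one_div]
    rw [heq] at hle
    exact hle
  refine BasisConst.no_monotone_basis e he ?_
  intro a m n hmn
  have h1 := hem a m n hmn
  have h2 := norm_nonneg (∑ i ∈ Finset.range n, a i • e i)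
  calc ‖∑ i ∈ Finset.range m, a i • e i‖
      ≤ sInf Sset * ‖∑ i ∈ Finset.range n, a i • e i‖ := h1
    _ ≤ 1 * ‖∑ i ∈ Finset.range n, a i • e i‖ := mul_le_mul_of_nonneg_right hinf h2
    _ = ‖∑ i ∈ Finset.range n, a i • e i‖ := one_mul _

end Pool.Agent.S05388
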