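import Pool.Statements.S05397
import Pool.Agent.ALQ.All

set_option autoImplicit false
open Pool Pool.MP_91698f_an

namespace Pool.Agent.S05397

/-- Let K be the middle-thirds Cantor set and Ω the complex numbers off K×K. Any finitely many bounded holomorphic functions on Ω with max modulus ≥ δ > 0 everywhere admit bounded holomorphic g_j on Ω with Σ f_j g_j = 1. -/
theorem result :
    ∀ (K : Set ℝ), K = {x : ℝ | ∃ d : ℕ → ℕ, (∀ k, d k = 0 ∨ d k = 2) ∧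
        x = ∑' k, (d k : ℝ) / (3 : ℝ) ^ (k + 1)} →
    ∀ (Ω : Set ℂ), Ω = {z : ℂ | ¬ (z.re ∈ K ∧ z.im ∈ K)} →
    ∀ (n : ℕ) (f : Fin n → ℂ → ℂ) (δ : ℝ), 0 < δ →
      (∀ j, DifferentiableOn ℂ (f j) Ω) →
      (∀ j, ∃ M : ℝ, ∀ z ∈ Ω, ‖f j z‖ ≤ M) →
      (∀ z ∈ Ω, ∃ j, δ ≤ ‖f j z‖) →
      ∃ g : Fin n → ℂ → ℂ,
        (∀ j, DifferentiableOn ℂ (g j) Ω) ∧
        (∀ j, ∃ M : ℝ, ∀ z ∈ Ω, ‖g j z‖ ≤ M) ∧
        (∀ z ∈ Ω, ∑ j, f j z * g j z = 1) := by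
  exact Pool.Agent.ALQ.wrap fun n δ hδ => by
    obtain ⟨C, _, h⟩ := Pool.Agent.ALQ.a_BND n δ hδ
    exact ⟨C, h⟩

end Pool.Agent.S05397
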