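import Pool.Statements.S05453
import Pool.Agent.QR.Setup

set_option autoImplicit false
open Pool Pool.MP_94c330_an

namespace Pool.Agent.S05453

/-- For real Banach spaces X, Y: if Y is quasi-reflexive (image in bidual has finite codimension) and asymptotically uniformly smooth, and X coarse Lipschitz embeds into Y, then X is quasi-reflexive. -/
theorem result :
    ∀ (X : Type) [NormedAddCommGroup X] [NormedSpace ℝ X] [CompleteSpace X]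
      (Y : Type) [NormedAddCommGroup Y] [NormedSpace ℝ Y] [CompleteSpace Y],
      (∃ n : ℕ, ∃ ψ : Fin n → StrongDual ℝ (StrongDual ℝ Y),
        ∀ z : StrongDual ℝ (StrongDual ℝ Y), ∃ y : Y, ∃ c : Fin n → ℝ,
          z = NormedSpace.inclusionInDoubleDual ℝ Y y + ∑ i, c i • ψ i) →
      (∀ ε : ℝ, ε > 0 → ∃ δ : ℝ, δ > 0 ∧ ∀ t : ℝ, 0 < t → t < δ →
        ∀ x : Y, ‖x‖ = 1 → ∃ n : ℕ, ∃ φ : Fin n → StrongDual ℝ Y,
          ∀ y : Y, (∀ i, φ i y = 0) → ‖y‖ ≤ t → ‖x + y‖ ≤ 1 + ε * t) →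
      (∃ f : X → Y, ∃ A : ℝ, A > 0 ∧ ∃ B : ℝ, B > 0 ∧ ∃ C : ℝ, C ≥ 0 ∧
        ∀ a b : X, ‖a - b‖ / A - C ≤ ‖f a - f b‖ ∧ ‖f a - f b‖ ≤ B * ‖a - b‖ + C) →
      (∃ n : ℕ, ∃ ψ : Fin n → StrongDual ℝ (StrongDual ℝ X),
        ∀ z : StrongDual ℝ (StrongDual ℝ X), ∃ x : X, ∃ c : Fin n → ℝ,
          z = NormedSpace.inclusionInDoubleDual ℝ X x + ∑ i, c i • ψ i) := by
  intro X _ _ _ Y _ _ _ hY haus hf
  obtain ⟨f, A, hA, B, hB, C, hC, hf⟩ := hf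
  refine Pool.Agent.QR.qrefl_of_coarse (Y := Y) hY (fun ε hε => ?_) (le_max_right A 1)
    (le_max_right B 1) (Pool.Agent.QR.coarseEmb_of_map hA hB hC hf)
  obtain ⟨d, hd0, hd⟩ := haus ε hε
  exact ⟨d, hd0, hd⟩

end Pool.Agent.S05453
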