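import Pool.Statements.S06235
import Pool.Agent.Larson.Main

set_option autoImplicit false
open MeasureTheory
open Pool Pool.MP_d16bbf_an

namespace Pool.Agent.S06235

/-- For every L² function φ whose dyadic-wavelet frequency system 2^{-j/2}e^{-2πik2^{-j}ξ}φ(2^{-j}ξ) is an orthonormal basis, some measurable W tiling ℝ a.e. by integer translates and by dyadic dilations lies a.e. inside {φ≠0}. -/
theorem result :
    ∀ (φ : ℝ → ℂ) (F : ℤ → ℤ → ℝ → ℂ),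
      MemLp φ 2 volume →
      (∀ (j k : ℤ) (ξ : ℝ), F j k ξ =
        ((Real.sqrt ((2:ℝ) ^ (-j)) : ℝ) : ℂ) *
          Complex.exp (-(2 * (Real.pi : ℂ) * Complex.I * (k : ℂ) * ((((2:ℝ) ^ (-j)) * ξ : ℝ) : ℂ))) *
          φ (((2:ℝ) ^ (-j)) * ξ)) →
      (∀ j k j' k' : ℤ, ∫ ξ, F j k ξ * (starRingEnd ℂ) (F j' k' ξ) =
        if j = j' ∧ k = k' then (1:ℂ) else 0) →
      (∀ g : ℝ → ℂ, MemLp g 2 volume →
        (∀ j k : ℤ, ∫ ξ, g ξ * (starRingEnd ℂ) (F j k ξ) = 0) → g =ᵐ[volume] 0) →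
      ∃ W : Set ℝ, MeasurableSet W ∧
        (∀ᵐ x : ℝ ∂volume, ∃! k : ℤ, x - (k : ℝ) ∈ W) ∧
        (∀ᵐ x : ℝ ∂volume, ∃! j : ℤ, ((2:ℝ) ^ (-j)) * x ∈ W) ∧
        (∀ᵐ ξ : ℝ ∂volume, ξ ∈ W → φ ξ ≠ 0) := by
  intro φ F hφ hF horth hcomp
  -- a measurable representative
  set ψ : ℝ → ℂ := hφ.1.mk φ with hψ
  have hψm : Measurable ψ := hφ.1.stronglyMeasurable_mk.measurable
  have hae : φ =ᵐ[volume] ψ := hφ.1.ae_eq_mk
  have hscale : ∀ j : ℤ, ∀ᵐ ξ : ℝ, φ (((2:ℝ) ^ (-j)) * ξ) = ψ (((2:ℝ) ^ (-j)) * ξ) := by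
    intro j
    have h1 : Measure.QuasiMeasurePreserving (fun x : ℝ => (2:ℝ) ^ (-j) * x) volume volume := by
      refine ⟨measurable_const_mul _, ?_⟩
      rw [Real.map_volume_mul_left (by positivity)]
      exact Measure.smul_absolutelyContinuous
    exact h1.ae hae
  have hFF : ∀ j k : ℤ, ∀ᵐ ξ : ℝ, F j k ξ = Pool.Agent.Larson.Fw ψ j k ξ := by
    intro j k
    filter_upwards [hscale j] with ξ h
    rw [hF, h]
    rfl
  have hW : Pool.Agent.Larson.IsW ψ := by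
    refine ⟨hψm, hφ.ae_eq hae, ?_, ?_⟩
    · intro j k j' k'
      rw [← horth j k j' k']
      refine integral_congr_ae ?_
      filter_upwards [hFF j k, hFF j' k'] with ξ h1 h2
      rw [h1, h2]
    · intro g hg h
      refine hcomp g hg fun j k => ?_
      rw [← h j k]
      refine integral_congr_ae ?_
      filter_upwards [hFF j k] with ξ h1
      rw [h1]
  obtain ⟨W, hWm, hWT, hWD, hWs⟩ := Pool.Agent.Larson.main_measurable hW
  refine ⟨W, hWm, hWT, hWD, ?_⟩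
  filter_upwards [hae] with ξ hξ hξW
  rw [hξ]
  exact hWs ξ hξW

end Pool.Agent.S06235
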