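import Pool.Statements.S06299
import Pool.Agent.Saddle.A4
import Pool.Agent.Saddle.T6
import Pool.Agent.Saddle.R2
import Pool.Agent.Saddle.P4

/-!
# MP_d5c502_an, frozen statement S06299

The saddle solution of the Allen-Cahn equation on `ℝ⁸` minimizes the energy: proof.
The reduction to a calibration type inequality is in `Pool.Agent.Saddle.A1` to `A4`, the
comparison theorems in `C`, the fields and the inequalities in `B1` to `B4`, `T1` to `T6`
(soft conditions and tails), `R0` to `R2` and `P0` to `P4` (kernel checks for `|s| < 16`).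
-/

set_option autoImplicit false
open Pool Pool.MP_d5c502_an

namespace Pool.Agent.S06299

/-- Every C² solution of Δu+u−u³=0 on ℝ⁸ with ∣u∣<1, depending only on ∣x′∣,∣x″∣, odd across the Simons cone and positive where ∣x′∣>∣x″∣, minimizes Allen–Cahn energy on every ball among compactly supported C¹ perturbations. -/
theorem result :
    ∀ (S T : EuclideanSpace ℝ (Fin 8) → ℝ),
      (∀ x, S x = ∑ i ∈ Finset.univ.filter (fun i : Fin 8 => (i : ℕ) < 4), x i ^ 2) →
      (∀ x, T x = ∑ i ∈ Finset.univ.filter (fun i : Fin 8 => 4 ≤ (i : ℕ)), x i ^ 2) →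
      ∀ u : EuclideanSpace ℝ (Fin 8) → ℝ,
        ContDiff ℝ 2 u →
        (∀ x, (∑ i : Fin 8, fderiv ℝ (fun y => fderiv ℝ u y (EuclideanSpace.single i (1 : ℝ))) x
                (EuclideanSpace.single i (1 : ℝ))) + u x - u x ^ 3 = 0) →
        (∀ x, |u x| < 1) →
        (∀ x y, S x = S y → T x = T y → u x = u y) →
        (∀ x y, S x = T y → T x = S y → u y = - u x) →
        (∀ x, T x < S x → 0 < u x) →
        ∀ (φ : EuclideanSpace ℝ (Fin 8) → ℝ) (R : ℝ),
          ContDiff ℝ 1 φ →
          tsupport φ ⊆ Metric.ball (0 : EuclideanSpace ℝ (Fin 8)) R →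
          (∫ x in Metric.ball (0 : EuclideanSpace ℝ (Fin 8)) R,
              (‖fderiv ℝ u x‖ ^ 2 / 2 + (1 - u x ^ 2) ^ 2 / 4)) ≤
          ∫ x in Metric.ball (0 : EuclideanSpace ℝ (Fin 8)) R,
              (‖fderiv ℝ (fun y => u y + φ y) x‖ ^ 2 / 2 + (1 - (u x + φ x) ^ 2) ^ 2 / 4) := by
  exact Pool.Agent.Saddle.frozen_of_fields fun _ hu =>
    Pool.Agent.Saddle.Ex.final3 hu Pool.Agent.Saddle.Ex.su_in Pool.Agent.Saddle.Ex.sl_in
      Pool.Agent.Saddle.Ex.pos_in Pool.Agent.Saddle.Ex.neg_in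

end Pool.Agent.S06299
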