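import Pool.Statements.S06394
import Pool.Agent.GS8.Approx
import Pool.Agent.GS8.Weak
import Pool.Agent.GS8.Reg1D
import Pool.Agent.GS8.Reg2
import Pool.Agent.GS8.CalcD
import Pool.Agent.GS8.Mass
import Pool.Agent.GS8.Axis
import Pool.Agent.GS8.Geom
import Pool.Agent.GS8.Lower
import Pool.Agent.GS8.Upper
import Pool.Agent.GS8.Win
import Pool.Agent.GS8.Green
import Pool.Agent.GS8.FinalF

set_option autoImplicit false
open Pool Pool.MP_dd30b7_an

namespace Pool.Agent.S06394

/-- The negation of the preceding statement: For each n there is C>0 such that, for every bounded convex domain and its normalized positive Dirichlet eigenfunction u with maximizer p*, at every p with u(p)>u(p*)/2 the forms −Hess log u(p) and −Hess log u(p*) agree up to factor C. -/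
theorem result :
    ¬ (∀ n : ℕ, 1 ≤ n → ∃ C : ℝ, 0 < C ∧
    ∀ (Ω : Set (EuclideanSpace ℝ (Fin n))) (u : EuclideanSpace ℝ (Fin n) → ℝ) (lam : ℝ),
      IsOpen Ω → Convex ℝ Ω → Bornology.IsBounded Ω → Ω.Nonempty →
      ContDiffOn ℝ 2 u Ω → ContinuousOn u (closure Ω) →
      (∀ x ∈ frontier Ω, u x = 0) → (∀ x ∈ Ω, 0 < u x) →
      (∀ x ∈ Ω, -(∑ i : Fin n, fderiv ℝ (fun y => fderiv ℝ u y (EuclideanSpace.single i (1 : ℝ))) x
          (EuclideanSpace.single i (1 : ℝ))) = lam * u x) →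
      (∫ x in Ω, u x ^ 2) = 1 →
      ∀ ps ∈ Ω, (∀ q ∈ Ω, u q ≤ u ps) →
      ∀ p ∈ Ω, u ps / 2 < u p →
      ∀ v : EuclideanSpace ℝ (Fin n),
        C⁻¹ * (-(fderiv ℝ (fderiv ℝ (fun x => Real.log (u x))) p v v))
            ≤ -(fderiv ℝ (fderiv ℝ (fun x => Real.log (u x))) ps v v) ∧
        -(fderiv ℝ (fderiv ℝ (fun x => Real.log (u x))) ps v v)
            ≤ C * (-(fderiv ℝ (fderiv ℝ (fun x => Real.log (u x))) p v v))) := by
  intro hall
  obtain ⟨C, hC, hF⟩ := hall 8 (by norm_num)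
  exact Pool.Agent.GS8.targetFinal
    (Pool.Agent.GS8.targetGround_of Pool.Agent.GS8.targetApprox Pool.Agent.GS8.targetWeak
      (Pool.Agent.GS8.targetReg_of Pool.Agent.GS8.Reg.targetInterior))
    Pool.Agent.GS8.targetCalc Pool.Agent.GS8.targetMass Pool.Agent.GS8.targetAxis
    Pool.Agent.GS8.targetGeom Pool.Agent.GS8.targetLower Pool.Agent.GS8.targetUpper
    Pool.Agent.GS8.targetWin Pool.Agent.GS8.targetGreen C hC hF

end Pool.Agent.S06394
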