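import Pool.Statements.S07306
import Pool.Agent.FlipSeq.Geom

set_option autoImplicit false
open Pool Pool.MP_144614_co

namespace Pool.Agent.S07306

/-- The negation of the preceding statement: There is a constant C such that for n red and n blue points in the plane, with any collinear triple single-coloured, every sequence of flips removing a crossing of a red-blue matching has length at most C·n². -/
theorem result :
    ¬ (∃ C : ℝ, ∀ n : ℕ, ∀ R B : Fin n → ℝ × ℝ,
      Function.Injective R → Function.Injective B →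
      Disjoint (Set.range R) (Set.range B) →
      (∀ p ∈ Set.range R ∪ Set.range B, ∀ q ∈ Set.range R ∪ Set.range B,
        ∀ r ∈ Set.range R ∪ Set.range B, p ≠ q → q ≠ r → p ≠ r →
        Collinear ℝ ({p, q, r} : Set (ℝ × ℝ)) →
        (({p, q, r} : Set (ℝ × ℝ)) ⊆ Set.range R ∨ ({p, q, r} : Set (ℝ × ℝ)) ⊆ Set.range B)) →
      ∀ (s : ℕ → Equiv.Perm (Fin n)) (k : ℕ),
        (∀ t < k, ∃ i j : Fin n, i ≠ j ∧
          (segment ℝ (R i) (B ((s t) i)) ∩ segment ℝ (R j) (B ((s t) j))).Nonempty ∧
          s (t + 1) = s t * Equiv.swap i j) →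
        (k : ℝ) ≤ C * (n : ℝ) ^ 2) := by
  rintro ⟨C, hC⟩
  obtain ⟨n, R, B, h1, h2, h3, h4, s, k, h5, h6⟩ := Pool.Agent.FlipSeq.final C
  exact absurd (hC n R B h1 h2 h3 h4 s k h5) (not_le.2 h6)

end Pool.Agent.S07306
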