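import Pool.Statements.S07458
import Pool.Agent.Flex.Main

set_option autoImplicit false
open Pool Pool.MP_1bc7ab_co

namespace Pool.Agent.S07458

/-- The negation of the preceding statement: For each d there is ε>0 such that for every finite d-degenerate graph with lists of size d+1 and every nonnegative weighting of vertex-color pairs, some proper list coloring collects at least ε times the total weight. -/
theorem result :
    ¬ (∀ d : ℕ, ∃ ε : ℝ, 0 < ε ∧
      ∀ (V : Type) [Fintype V] (G : SimpleGraph V),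
        (∀ S : Finset V, S.Nonempty →
          ∃ v ∈ S, ({u : V | u ∈ S ∧ G.Adj v u}).ncard ≤ d) →
        ∀ L : V → Finset ℕ, (∀ v, (L v).card = d + 1) →
          ∀ w : V → ℕ → ℝ, (∀ v c, 0 ≤ w v c) →
            ∃ φ : V → ℕ, (∀ v, φ v ∈ L v) ∧
              (∀ u v, G.Adj u v → φ u ≠ φ v) ∧
              ε * ∑ v, ∑ c ∈ L v, w v c ≤ ∑ v, w v (φ v)) := by
  intro H
  classical
  obtain ⟨ε, hε, hH⟩ := H 2
  obtain ⟨k, hk⟩ := exists_nat_gt (1 / ε)
  obtain ⟨V, hV, G, L, D, r, hdeg, hL, hD, hr, hcol⟩ := Pool.Agent.Flex.main k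
  obtain ⟨φ, h1, h2, h3⟩ := hH V G hdeg L hL
    (fun v c => if v ∈ D ∧ c = r v then 1 else 0)
    (fun v c => by positivity)
  have hc := hcol φ h1 h2
  have lhs : ∑ v, ∑ c ∈ L v, (if v ∈ D ∧ c = r v then (1 : ℝ) else 0) = 2 ^ k := by
    have : ∀ v, ∑ c ∈ L v, (if v ∈ D ∧ c = r v then (1 : ℝ) else 0) = if v ∈ D then 1 else 0 := by
      intro v
      by_cases hv : v ∈ D
      · simp only [hv, true_and, if_true]
        rw [Finset.sum_ite_eq' (L v) (r v)]
        simp [hr v hv]
      · simp [hv]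
    rw [Finset.sum_congr rfl (fun v _ => this v)]
    rw [Finset.sum_boole]
    simp [hD]
  have rhs : ∑ v, (if v ∈ D ∧ φ v = r v then (1 : ℝ) else 0) ≤ 1 := by
    rw [Finset.sum_boole]
    have : (Finset.univ.filter (fun v => v ∈ D ∧ φ v = r v)) = D.filter (fun v => φ v = r v) := by
      ext v; simp
    rw [this]
    exact_mod_cast hc
  rw [lhs] at h3
  have h4 : ε * 2 ^ k ≤ 1 := h3.trans rhs
  have h5 : (k : ℝ) < 2 ^ k := by exact_mod_cast Nat.lt_two_pow_self
  have h6 : 1 < ε * 2 ^ k := by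
    rw [div_lt_iff₀ hε] at hk
    nlinarith
  linarith

end Pool.Agent.S07458
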