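import Pool.Statements.S07942

set_option autoImplicit false
open Pool Pool.MP_30ed83_co

namespace Pool.Agent.S07942

open SimpleGraph

/-- Every graph that is not 2-colourable has a vertex set `s` (the support of a shortest odd
closed walk) such that the induced subgraph on `s` is not 2-colourable and every vertex of `s`
has at most two neighbours in `s`. -/
theorem exists_odd_cycle_set {V : Type*} (G : SimpleGraph V) (h : ¬ G.Colorable 2) :
    ∃ s : Set V, ¬ (G.induce s).Colorable 2 ∧
      ∀ x ∈ s, ∃ a b : V, ∀ y ∈ s, G.Adj x y → y = a ∨ y = b := by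
  classical
  have hex : ∃ k : ℕ, ∃ (u : V) (w : G.Walk u u), w.length = k ∧ Odd k := by
    rw [two_colorable_iff_forall_loop_even] at h
    push Not at h
    obtain ⟨u, w, hw⟩ := h
    exact ⟨w.length, u, w, rfl, Nat.not_even_iff_odd.mp hw⟩
  obtain ⟨u, w, hwk, hodd⟩ := Nat.find_spec hex
  set k := Nat.find hex with hk
  have hmin : ∀ (v : V) (q : G.Walk v v), Odd q.length → k ≤ q.length := by
    intro v q hq
    exact Nat.find_min' hex ⟨v, q, rfl, hq⟩
  have hkpos : 0 < k := hodd.pos
  have chord : ∀ i j : ℕ, i < j → j < k → G.Adj (w.getVert i) (w.getVert j) →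
      j = i + 1 ∨ (i = 0 ∧ j + 1 = k) := by
    intro i j hij hjk hadj
    have L1 : ∃ q : G.Walk u u, q.length = i + (1 + (k - j)) := by
      refine ⟨(w.take i).append (Walk.cons hadj (w.drop j)), ?_⟩
      rw [Walk.length_append, Walk.length_cons, Walk.take_length, Walk.drop_length, hwk]
      have : min i k = i := by omega
      rw [this]; omega
    have L2 : ∃ q : G.Walk (w.getVert i) (w.getVert i), q.length = (j - i) + 1 := by
      have e : (w.drop i).getVert (j - i) = w.getVert j := by
        rw [Walk.drop_getVert]; congr 1; omega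
      refine ⟨(((w.drop i).take (j - i)).copy rfl e).append (Walk.cons hadj.symm Walk.nil), ?_⟩
      rw [Walk.length_append, Walk.length_copy, Walk.length_cons, Walk.length_nil,
        Walk.take_length, Walk.drop_length, hwk]
      have : min (j - i) (k - i) = j - i := by omega
      rw [this]
    obtain ⟨q1, h1⟩ := L1
    obtain ⟨q2, h2⟩ := L2
    rcases Nat.even_or_odd q1.length with he | ho
    · have ho2 : Odd q2.length := by
        rw [h1] at he
        rw [h2]
        rw [Nat.odd_iff] at hodd ⊢
        rw [Nat.even_iff] at he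
        omega
      have := hmin _ q2 ho2
      rw [h2] at this
      right
      omega
    · have := hmin _ q1 ho
      rw [h1] at this
      left
      omega
  have hlast : w.getVert k = u := by rw [← hwk]; exact w.getVert_length
  have hzero : w.getVert 0 = u := w.getVert_zero
  refine ⟨{v | v ∈ w.support}, ?_, ?_⟩
  · intro hcol
    rw [two_colorable_iff_forall_loop_even] at hcol
    have := hcol _ (w.induce {v | v ∈ w.support} (fun x hx => hx))
    rw [← Walk.length_map (Embedding.induce {v | v ∈ w.support}).toHom, Walk.map_induce] at this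
    have h2 : Even w.length := this
    rw [hwk] at h2
    exact (Nat.not_even_iff_odd.mpr hodd) h2
  · intro x hx
    have pos : ∀ z : V, z ∈ w.support → ∃ i : ℕ, i < k ∧ w.getVert i = z := by
      intro z hz
      obtain ⟨n, hn, hnk⟩ := (Walk.mem_support_iff_exists_getVert).mp hz
      rw [hwk] at hnk
      rcases Nat.lt_or_ge n k with hlt | hge
      · exact ⟨n, hlt, hn⟩
      · have : n = k := le_antisymm hnk hge
        refine ⟨0, hkpos, ?_⟩
        rw [hzero, ← hlast, ← this]; exact hn
    obtain ⟨i, hik, hi⟩ := pos x hx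
    refine ⟨w.getVert (i + 1), w.getVert (if i = 0 then k - 1 else i - 1), ?_⟩
    intro y hy hadj
    obtain ⟨j, hjk, hj⟩ := pos y hy
    rw [← hi, ← hj] at hadj
    rcases lt_trichotomy i j with hlt | heq | hgt
    · rcases chord i j hlt hjk hadj with h1 | ⟨h1, h2⟩
      · left; rw [← hj, h1]
      · right; rw [if_pos h1, ← hj]; congr 1; omega
    · subst heq
      exact absurd hadj (G.loopless.irrefl _)
    · rcases chord j i hgt hik hadj.symm with h1 | ⟨h1, h2⟩
      · right
        rw [if_neg (by omega), ← hj]; congr 1; omega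
      · left
        rw [h2, hlast, ← hj, h1, hzero]

/-- The claw `K_{1,3}` on `Fin 4`, with centre `0`. -/
def claw : SimpleGraph (Fin 4) where
  Adj a b := (a = 0 ∧ b ≠ 0) ∨ (a ≠ 0 ∧ b = 0)
  symm := ⟨by
    intro a b h
    rcases h with ⟨h1, h2⟩ | ⟨h1, h2⟩
    · exact Or.inr ⟨h2, h1⟩
    · exact Or.inl ⟨h2, h1⟩⟩
  loopless := ⟨by
    intro a h
    rcases h with ⟨h1, h2⟩ | ⟨h1, h2⟩
    · exact h2 h1
    · exact h1 h2⟩

theorem claw_ne_bot : claw ≠ ⊥ := by
  intro h
  have : claw.Adj 0 1 := Or.inl ⟨rfl, by decide⟩
  rw [h] at this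
  exact this

theorem claw_colorable : claw.Colorable 2 := by
  refine ⟨Coloring.mk (fun i => if i = 0 then (0 : Fin 2) else 1) ?_⟩
  intro a b h
  rcases h with ⟨h1, h2⟩ | ⟨h1, h2⟩
  · simp [h1, h2]
  · simp [h1, h2]

/-- The negation of the preceding statement: For every finite graph F with an edge and every r, some finite graph G has chromatic number above r and clique number equal to F's, and every induced subgraph of G with no induced copy of F has chromatic number at most that of F. -/
theorem result :
    ¬ (∀ (n : ℕ) (F : SimpleGraph (Fin n)), F ≠ ⊥ →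
      ∀ r : ℕ, ∃ (m : ℕ) (G : SimpleGraph (Fin m)),
        (r : ℕ∞) < G.chromaticNumber ∧
        G.cliqueNum = F.cliqueNum ∧
        ∀ s : Set (Fin m), ¬ F.IsIndContained (G.induce s) →
          (G.induce s).chromaticNumber ≤ F.chromaticNumber) := by
  intro H
  obtain ⟨m, G, hchi, -, hall⟩ := H 4 claw claw_ne_bot 2
  have hnc : ¬ G.Colorable 2 := by
    intro hc
    exact absurd (hc.chromaticNumber_le) (not_le.mpr hchi)
  obtain ⟨s, hs1, hs2⟩ := exists_odd_cycle_set G hnc
  apply hs1
  rw [← chromaticNumber_le_iff_colorable]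
  refine le_trans (hall s ?_) claw_colorable.chromaticNumber_le
  rintro ⟨f⟩
  obtain ⟨a, b, hab⟩ := hs2 (f 0).1 (f 0).2
  have key : ∀ i : Fin 4, i ≠ 0 → (f i).1 = a ∨ (f i).1 = b := by
    intro i hi
    apply hab _ (f i).2
    have : claw.Adj 0 i := Or.inl ⟨rfl, hi⟩
    exact f.map_rel_iff.mpr this
  have inj : ∀ i j : Fin 4, (f i).1 = (f j).1 → i = j := by
    intro i j hij
    exact f.injective (Subtype.ext hij)
  have k1 := key 1 (by decide)
  have k2 := key 2 (by decide)
  have k3 := key 3 (by decide)
  have n12 : (f 1).1 ≠ (f 2).1 := fun h => absurd (inj _ _ h) (by decide)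
  have n13 : (f 1).1 ≠ (f 3).1 := fun h => absurd (inj _ _ h) (by decide)
  have n23 : (f 2).1 ≠ (f 3).1 := fun h => absurd (inj _ _ h) (by decide)
  rcases k1 with k1 | k1 <;> rcases k2 with k2 | k2 <;> rcases k3 with k3 | k3 <;>
    first
      | exact absurd (k1.trans k2.symm) n12
      | exact absurd (k1.trans k3.symm) n13
      | exact absurd (k2.trans k3.symm) n23

end Pool.Agent.S07942
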