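import Pool.Statements.S08298
import Mathlib

set_option autoImplicit false
open Pool Pool.MP_3efdf8_co

namespace Pool.Agent.S08298

open SimpleGraph

/-- A Hamilton cycle crosses the boundary of a nonempty proper vertex set at least twice. -/
theorem two_crossings {W : Type} [DecidableEq W] {G : SimpleGraph W} {u : W} (p : G.Walk u u)
    (hp : p.IsHamiltonianCycle) (Y : W → Prop) {a b : W} (ha : Y a) (hb : ¬ Y b) :
    ∃ e e' : Sym2 W, e ≠ e' ∧ e ∈ p.edges ∧ e' ∈ p.edges ∧
      (∃ x y, Y x ∧ ¬ Y y ∧ G.Adj x y ∧ e = s(x, y)) ∧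
      (∃ x y, Y x ∧ ¬ Y y ∧ G.Adj x y ∧ e' = s(x, y)) := by
  have ha' : a ∈ p.support := hp.mem_support a
  have hcyc : (p.rotate a ha').IsCycle := hp.isCycle.rotate ha'
  have hb' : b ∈ (p.rotate a ha').support := by
    rw [Walk.mem_support_rotate_iff]; exact hp.mem_support b
  have hedges : ∀ e, e ∈ (p.rotate a ha').edges → e ∈ p.edges := fun e he =>
    (p.rotate_edges a ha').perm.mem_iff.mp he
  generalize p.rotate a ha' = c at *
  obtain ⟨d1, hd1, h1a, h1b⟩ := (c.takeUntil b hb').exists_boundary_dart {x | Y x} ha hb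
  obtain ⟨d2, hd2, h2a, h2b⟩ :=
    (c.dropUntil b hb').exists_boundary_dart {x | ¬ Y x} hb (by simpa using ha)
  have hnd : ((c.takeUntil b hb').append (c.dropUntil b hb')).edges.Nodup := by
    rw [Walk.take_spec]; exact hcyc.edges_nodup
  rw [Walk.edges_append] at hnd
  have e1 : d1.edge ∈ (c.takeUntil b hb').edges := List.mem_map_of_mem hd1
  have e2 : d2.edge ∈ (c.dropUntil b hb').edges := List.mem_map_of_mem hd2
  have hsub1 : d1.edge ∈ c.edges := by
    rw [← Walk.take_spec c hb', Walk.edges_append]; exact List.mem_append_left _ e1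
  have hsub2 : d2.edge ∈ c.edges := by
    rw [← Walk.take_spec c hb', Walk.edges_append]; exact List.mem_append_right _ e2
  refine ⟨d1.edge, d2.edge, ?_, hedges _ hsub1, hedges _ hsub2, ?_, ?_⟩
  · intro h
    exact (List.disjoint_of_nodup_append hnd) e1 (h ▸ e2)
  · exact ⟨d1.fst, d1.snd, h1a, h1b, d1.adj, rfl⟩
  · refine ⟨d2.snd, d2.fst, by simpa using h2b, h2a, d2.adj.symm, ?_⟩
    rw [Sym2.eq_swap]; rfl

/-- Indicator of membership in an edge list. -/
def ind {W : Type} [DecidableEq W] (l : List (Sym2 W)) (e : Sym2 W) : ℕ :=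
  if e ∈ l then 1 else 0

theorem sum_ge_one {W : Type} [DecidableEq W] (l : List (Sym2 W)) (L : List (Sym2 W))
    (e : Sym2 W) (he : e ∈ L) (h : e ∈ l) : 1 ≤ (L.map (ind l)).sum := by
  induction L with
  | nil => cases he
  | cons a t ih =>
    rw [List.map_cons, List.sum_cons]
    rcases List.mem_cons.mp he with rfl | he'
    · have : ind l e = 1 := if_pos h
      omega
    · have := ih he'
      omega

theorem sum_ge_two {W : Type} [DecidableEq W] (l : List (Sym2 W)) (L : List (Sym2 W))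
    (e e' : Sym2 W) (hne : e ≠ e') (he : e ∈ L) (he' : e' ∈ L) (h : e ∈ l) (h' : e' ∈ l) :
    2 ≤ (L.map (ind l)).sum := by
  induction L with
  | nil => cases he
  | cons a t ih =>
    rw [List.map_cons, List.sum_cons]
    rcases List.mem_cons.mp he with rfl | h1
    · rcases List.mem_cons.mp he' with rfl | h2
      · exact absurd rfl hne
      · have h3 : ind l e = 1 := if_pos h
        have := sum_ge_one l t e' h2 h'
        omega
    · rcases List.mem_cons.mp he' with rfl | h2
      · have h3 : ind l e' = 1 := if_pos h'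
        have := sum_ge_one l t e h1 h
        omega
      · have := ih h1 h2
        omega

theorem sum_add_sum {W : Type} [DecidableEq W] (l l' : List (Sym2 W)) (L : List (Sym2 W))
    (h : ∀ e ∈ L, (e ∈ l ↔ e ∉ l')) :
    (L.map (ind l)).sum + (L.map (ind l')).sum = L.length := by
  induction L with
  | nil => rfl
  | cons a t ih =>
    rw [List.map_cons, List.sum_cons, List.map_cons, List.sum_cons, List.length_cons]
    have h1 := ih (fun e he => h e (List.mem_cons_of_mem _ he))
    have h2 := h a List.mem_cons_self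
    have h3 : ind l a + ind l' a = 1 := by
      unfold ind
      by_cases ha : a ∈ l
      · rw [if_pos ha, if_neg (h2.mp ha)]
      · rw [if_neg ha, if_pos (by by_contra h4; exact ha (h2.mpr h4))]
    omega

/-- The main counting fact: of the edges in the boundary of a proper nonempty vertex set, each of
the two Hamilton cycles contains at least two. -/
theorem bound {W : Type} [DecidableEq W] {G : SimpleGraph W} {u v : W} (p : G.Walk u u)
    (q : G.Walk v v) (hp : p.IsHamiltonianCycle) (hq : q.IsHamiltonianCycle)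
    (hpq : ∀ e ∈ G.edgeSet, (e ∈ p.edges ↔ e ∉ q.edges))
    (Y : W → Prop) {a b : W} (ha : Y a) (hb : ¬ Y b) (L : List (Sym2 W))
    (hL : ∀ e ∈ L, e ∈ G.edgeSet)
    (hcross : ∀ x y, Y x → ¬ Y y → G.Adj x y → s(x, y) ∈ L) :
    2 ≤ (L.map (ind p.edges)).sum ∧ (L.map (ind p.edges)).sum + 2 ≤ L.length := by
  obtain ⟨e, e', hne, he, he', ⟨x, y, hx, hy, hxy, rfl⟩, ⟨x', y', hx', hy', hxy', rfl⟩⟩ :=
    two_crossings p hp Y ha hb
  obtain ⟨f, f', hnf, hf, hf', ⟨z, t, hz, ht, hzt, rfl⟩, ⟨z', t', hz', ht', hzt', rfl⟩⟩ :=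
    two_crossings q hq Y ha hb
  have h1 := sum_ge_two p.edges L _ _ hne (hcross x y hx hy hxy) (hcross x' y' hx' hy' hxy') he he'
  have h2 := sum_ge_two q.edges L _ _ hnf (hcross z t hz ht hzt) (hcross z' t' hz' ht' hzt') hf hf'
  have h3 := sum_add_sum p.edges q.edges L (fun e he => hpq e (hL e he))
  exact ⟨h1, by omega⟩

/-- The five chords of one gadget on ten vertices. -/
def chord (x y : ℕ) : Bool :=
  decide ((x, y) ∈ ([(0, 9), (1, 3), (2, 4), (5, 7), (6, 8)] : List (ℕ × ℕ)))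

/-- One orientation of the adjacency: the Hamilton cycle `0, 1, ..., 29` and the chords of the
three gadgets `{0..9}`, `{10..19}`, `{20..29}`. -/
def adjB (a b : Fin 30) : Bool :=
  decide (b.val = (a.val + 1) % 30) || (decide (a.val / 10 = b.val / 10) &&
    chord (a.val % 10) (b.val % 10))

/-- The counterexample graph: a ring of three gadgets on ten vertices. -/
def G : SimpleGraph (Fin 30) where
  Adj a b := (adjB a b || adjB b a) = true
  symm := ⟨by
    intro a b h
    rw [Bool.or_comm]; exact h⟩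
  loopless := ⟨by decide +kernel⟩

instance : DecidableRel G.Adj := fun a b => inferInstanceAs (Decidable ((adjB a b || adjB b a) = true))

theorem G_regular : G.IsRegularOfDegree 3 := by
  unfold SimpleGraph.IsRegularOfDegree
  decide +kernel

theorem adj_succ (k : ℕ) (h : k + 1 < 30) : G.Adj ⟨k + 1, h⟩ ⟨k, by omega⟩ := by
  have h1 : adjB ⟨k, by omega⟩ ⟨k + 1, h⟩ = true := by
    unfold adjB
    have h2 : (k + 1) % 30 = k + 1 := Nat.mod_eq_of_lt h
    rw [Bool.or_eq_true]
    left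
    exact decide_eq_true h2.symm
  show (adjB ⟨k + 1, h⟩ ⟨k, by omega⟩ || adjB ⟨k, by omega⟩ ⟨k + 1, h⟩) = true
  rw [Bool.or_eq_true]
  exact Or.inr h1

/-- The path `k, k - 1, ..., 0` as a walk. -/
def upWalk : (k : ℕ) → (h : k < 30) → G.Walk ⟨k, h⟩ 0
  | 0, _ => Walk.nil
  | k + 1, h => Walk.cons (adj_succ k h) (upWalk k (by omega))

theorem adj_close : G.Adj 0 ⟨29, by omega⟩ := by decide +kernel

/-- The Hamilton cycle of the graph. -/
def hamWalk : G.Walk 0 0 := Walk.cons adj_close (upWalk 29 (by omega))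

theorem hamWalk_cycle : hamWalk.IsHamiltonianCycle := by
  rw [Walk.isHamiltonianCycle_iff_isCycle_and_length_eq]
  refine ⟨?_, by decide +kernel⟩
  rw [Walk.isCycle_def]
  refine ⟨?_, ?_, ?_⟩
  · rw [Walk.isTrail_def]
    decide +kernel
  · intro h
    have := congrArg Walk.length h
    revert this
    decide +kernel
  · decide +kernel

theorem G_hamiltonian : G.IsHamiltonian := fun _ => ⟨0, hamWalk, hamWalk_cycle⟩

/-- The prism over the graph. -/
abbrev PG : SimpleGraph (Fin 30 × Fin 2) := G.boxProd (⊤ : SimpleGraph (Fin 2))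

instance decPG : DecidableRel PG.Adj := fun x y =>
  decidable_of_iff ((G.Adj x.1 y.1 ∧ x.2 = y.2) ∨ (x.2 ≠ y.2 ∧ x.1 = y.1)) (by
    rw [SimpleGraph.boxProd_adj, SimpleGraph.top_adj])

/-- Vertex number `j` of gadget `i` in layer `l` of the prism. -/
def w (i : Fin 3) (j : ℕ) (l : Fin 2) : Fin 30 × Fin 2 :=
  (⟨(10 * i.val + j) % 30, Nat.mod_lt _ (by omega)⟩, l)

/-- The edge joining gadget `k` to gadget `k + 1` in layer `l`. -/
def lk (k : Fin 3) (l : Fin 2) : Sym2 (Fin 30 × Fin 2) := s(w k 9 l, w k 10 l)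

/-- A vertical edge of the prism. -/
def vt (i : Fin 3) (j : ℕ) : Sym2 (Fin 30 × Fin 2) := s(w i j 0, w i j 1)

/-- A horizontal edge of the prism inside gadget `i`. -/
def ed (i : Fin 3) (j j' : ℕ) (l : Fin 2) : Sym2 (Fin 30 × Fin 2) := s(w i j l, w i j' l)

/-- The vertex set of the prism given by gadget `i` and a condition on the position and layer. -/
def inS (f : ℕ → Fin 2 → Bool) (i : Fin 3) (x : Fin 30 × Fin 2) : Bool :=
  decide (x.1.val / 10 = i.val) && f (x.1.val % 10) x.2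

/-- Checks that the vertex set is proper and nonempty and that all its boundary edges are in the
list. -/
def okCut (f : ℕ → Fin 2 → Bool) (L : List (Sym2 (Fin 30 × Fin 2))) (i : Fin 3) : Prop :=
  ((∃ x, inS f i x = true) ∧ (∃ x, inS f i x = false)) ∧
    (∀ x, inS f i x = true → ∀ y, inS f i y = false → PG.Adj x y → s(x, y) ∈ L)

instance (f : ℕ → Fin 2 → Bool) (L : List (Sym2 (Fin 30 × Fin 2))) (i : Fin 3) :
    Decidable (okCut f L i) := by unfold okCut; exact instDecidableAnd

theorem cut_end0 : ∀ i : Fin 3, ∀ k : Fin 2, okCut (fun j l => decide (j = 0) && decide (l = k))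
    [lk (i + 2) k, vt i 0, ed i 0 9 k, ed i 0 1 k] i := by decide +kernel

theorem cut_end9 : ∀ i : Fin 3, ∀ k : Fin 2, okCut (fun j l => decide (j = 9) && decide (l = k))
    [lk i k, vt i 9, ed i 0 9 k, ed i 8 9 k] i := by decide +kernel

theorem cut_diamond1 : ∀ i : Fin 3, okCut (fun j _ => decide (1 ≤ j) && decide (j ≤ 4))
    [ed i 0 1 0, ed i 0 1 1, ed i 4 5 0, ed i 4 5 1] i := by decide +kernel

theorem cut_diamond2 : ∀ i : Fin 3, okCut (fun j _ => decide (5 ≤ j) && decide (j ≤ 8))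
    [ed i 4 5 0, ed i 4 5 1, ed i 8 9 0, ed i 8 9 1] i := by decide +kernel

theorem cut_inner : ∀ i : Fin 3, okCut (fun j _ => decide (1 ≤ j) && decide (j ≤ 8))
    [ed i 0 1 0, ed i 0 1 1, ed i 8 9 0, ed i 8 9 1] i := by decide +kernel

theorem cut_gadget : ∀ i : Fin 3, okCut (fun _ _ => true)
    [lk (i + 2) 0, lk (i + 2) 1, lk i 0, lk i 1] i := by decide +kernel

theorem cut_side : ∀ i : Fin 3, ∀ k k' : Fin 2, k ≠ k' →
    okCut (fun j l => decide (1 ≤ j) && decide (j ≤ 8) || decide (l = k'))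
    [lk (i + 2) k', lk i k', vt i 0, vt i 9, ed i 0 1 k, ed i 8 9 k] i := by decide +kernel

theorem lk_mem (i : Fin 3) (l : Fin 2) : lk i l ∈ PG.edgeSet := by
  rw [lk, SimpleGraph.mem_edgeSet]
  revert i l
  decide +kernel

theorem vt0_mem (i : Fin 3) : vt i 0 ∈ PG.edgeSet := by
  rw [vt, SimpleGraph.mem_edgeSet]
  revert i
  decide +kernel

theorem vt9_mem (i : Fin 3) : vt i 9 ∈ PG.edgeSet := by
  rw [vt, SimpleGraph.mem_edgeSet]
  revert i
  decide +kernel

theorem ed01_mem (i : Fin 3) (l : Fin 2) : ed i 0 1 l ∈ PG.edgeSet := by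
  rw [ed, SimpleGraph.mem_edgeSet]
  revert i l
  decide +kernel

theorem ed09_mem (i : Fin 3) (l : Fin 2) : ed i 0 9 l ∈ PG.edgeSet := by
  rw [ed, SimpleGraph.mem_edgeSet]
  revert i l
  decide +kernel

theorem ed45_mem (i : Fin 3) (l : Fin 2) : ed i 4 5 l ∈ PG.edgeSet := by
  rw [ed, SimpleGraph.mem_edgeSet]
  revert i l
  decide +kernel

theorem ed89_mem (i : Fin 3) (l : Fin 2) : ed i 8 9 l ∈ PG.edgeSet := by
  rw [ed, SimpleGraph.mem_edgeSet]
  revert i l
  decide +kernel

theorem ind_le {W : Type} [DecidableEq W] (l : List (Sym2 W)) (e : Sym2 W) : ind l e ≤ 1 := by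
  unfold ind
  split <;> omega

theorem arith (x0 x1 y0 y1 v0 v9 r0 r1 p0 p1 q0 q1 m : ℕ)
    (bv0 : v0 ≤ 1) (bx0 : x0 ≤ 1) (br0 : r0 ≤ 1) (br1 : r1 ≤ 1)
    (h00 : x0 + v0 + r0 + p0 = 2) (h01 : x1 + v0 + r1 + p1 = 2)
    (h90 : y0 + v9 + r0 + q0 = 2) (h91 : y1 + v9 + r1 + q1 = 2)
    (hd1 : p0 + p1 + m = 2) (hd2 : m + q0 + q1 = 2) (hin : p0 + p1 + q0 + q1 = 2)
    (hgd : x0 + x1 + y0 + y1 = 2)
    (hs0 : 2 ≤ x1 + y1 + v0 + v9 + p0 + q0) (hs0' : x1 + y1 + v0 + v9 + p0 + q0 ≤ 4)
    (hs1 : 2 ≤ x0 + y0 + v0 + v9 + p1 + q1) (hs1' : x0 + y0 + v0 + v9 + p1 + q1 ≤ 4) :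
    ¬ (x0 + x1 = 1 ∧ x0 = y0) := by
  rintro ⟨e1, e2⟩
  have hpp : p0 + p1 = 1 := by omega
  have hqq : q0 + q1 = 1 := by omega
  clear hd1 hd2 hin
  have hv : v0 = 0 ∨ v0 = 1 := by omega
  have hx : x0 = 0 ∨ x0 = 1 := by omega
  rcases hv with rfl | rfl <;> rcases hx with rfl | rfl <;> omega

/-- What a single gadget forces on the four edges joining it to the rest of the ring. -/
theorem gadget {u v : Fin 30 × Fin 2} (p : PG.Walk u u) (q : PG.Walk v v)
    (hp : p.IsHamiltonianCycle) (hq : q.IsHamiltonianCycle)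
    (hpq : ∀ e ∈ PG.edgeSet, (e ∈ p.edges ↔ e ∉ q.edges)) (i : Fin 3) :
    ind p.edges (lk (i + 2) 0) + ind p.edges (lk (i + 2) 1) + ind p.edges (lk i 0)
        + ind p.edges (lk i 1) = 2 ∧
      ¬ (ind p.edges (lk (i + 2) 0) + ind p.edges (lk (i + 2) 1) = 1 ∧
        ind p.edges (lk (i + 2) 0) = ind p.edges (lk i 0)) := by
  have B : ∀ (f : ℕ → Fin 2 → Bool) (L : List (Sym2 (Fin 30 × Fin 2))), okCut f L i →
      (∀ e ∈ L, e ∈ PG.edgeSet) →
      2 ≤ (L.map (ind p.edges)).sum ∧ (L.map (ind p.edges)).sum + 2 ≤ L.length := by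
    intro f L h hL
    obtain ⟨⟨⟨a, ha⟩, ⟨b, hb⟩⟩, h2⟩ := h
    refine bound p q hp hq hpq (fun x => inS f i x = true) ha (b := b) (by simp [hb]) L hL ?_
    intro x y hx hy hxy
    exact h2 x hx y (by simpa using hy) hxy
  have h00 := B _ _ (cut_end0 i 0) (by
    simp only [List.mem_cons, List.not_mem_nil, or_false]
    rintro e (rfl | rfl | rfl | rfl)
    exacts [lk_mem _ _, vt0_mem _, ed09_mem _ _, ed01_mem _ _])
  have h01 := B _ _ (cut_end0 i 1) (by
    simp only [List.mem_cons, List.not_mem_nil, or_false]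
    rintro e (rfl | rfl | rfl | rfl)
    exacts [lk_mem _ _, vt0_mem _, ed09_mem _ _, ed01_mem _ _])
  have h90 := B _ _ (cut_end9 i 0) (by
    simp only [List.mem_cons, List.not_mem_nil, or_false]
    rintro e (rfl | rfl | rfl | rfl)
    exacts [lk_mem _ _, vt9_mem _, ed09_mem _ _, ed89_mem _ _])
  have h91 := B _ _ (cut_end9 i 1) (by
    simp only [List.mem_cons, List.not_mem_nil, or_false]
    rintro e (rfl | rfl | rfl | rfl)
    exacts [lk_mem _ _, vt9_mem _, ed09_mem _ _, ed89_mem _ _])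
  have hd1 := B _ _ (cut_diamond1 i) (by
    simp only [List.mem_cons, List.not_mem_nil, or_false]
    rintro e (rfl | rfl | rfl | rfl)
    exacts [ed01_mem _ _, ed01_mem _ _, ed45_mem _ _, ed45_mem _ _])
  have hd2 := B _ _ (cut_diamond2 i) (by
    simp only [List.mem_cons, List.not_mem_nil, or_false]
    rintro e (rfl | rfl | rfl | rfl)
    exacts [ed45_mem _ _, ed45_mem _ _, ed89_mem _ _, ed89_mem _ _])
  have hin := B _ _ (cut_inner i) (by
    simp only [List.mem_cons, List.not_mem_nil, or_false]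
    rintro e (rfl | rfl | rfl | rfl)
    exacts [ed01_mem _ _, ed01_mem _ _, ed89_mem _ _, ed89_mem _ _])
  have hgd := B _ _ (cut_gadget i) (by
    simp only [List.mem_cons, List.not_mem_nil, or_false]
    rintro e (rfl | rfl | rfl | rfl)
    exacts [lk_mem _ _, lk_mem _ _, lk_mem _ _, lk_mem _ _])
  have hs0 := B _ _ (cut_side i 0 1 (by decide)) (by
    simp only [List.mem_cons, List.not_mem_nil, or_false]
    rintro e (rfl | rfl | rfl | rfl | rfl | rfl)
    exacts [lk_mem _ _, lk_mem _ _, vt0_mem _, vt9_mem _, ed01_mem _ _, ed89_mem _ _])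
  have hs1 := B _ _ (cut_side i 1 0 (by decide)) (by
    simp only [List.mem_cons, List.not_mem_nil, or_false]
    rintro e (rfl | rfl | rfl | rfl | rfl | rfl)
    exacts [lk_mem _ _, lk_mem _ _, vt0_mem _, vt9_mem _, ed01_mem _ _, ed89_mem _ _])
  simp only [List.map_cons, List.map_nil, List.sum_cons, List.sum_nil, List.length_cons,
    List.length_nil] at h00 h01 h90 h91 hd1 hd2 hin hgd hs0 hs1
  have hm : ∀ e, ind p.edges e ≤ 1 := fun e => ind_le p.edges e
  refine ⟨by omega, ?_⟩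
  exact arith (ind p.edges (lk (i + 2) 0)) (ind p.edges (lk (i + 2) 1)) (ind p.edges (lk i 0))
    (ind p.edges (lk i 1)) (ind p.edges (vt i 0)) (ind p.edges (vt i 9)) (ind p.edges (ed i 0 9 0))
    (ind p.edges (ed i 0 9 1)) (ind p.edges (ed i 0 1 0)) (ind p.edges (ed i 0 1 1))
    (ind p.edges (ed i 8 9 0)) (ind p.edges (ed i 8 9 1))
    (ind p.edges (ed i 4 5 0) + ind p.edges (ed i 4 5 1))
    (hm _) (hm _) (hm _) (hm _) (by omega) (by omega) (by omega) (by omega)
    (by omega) (by omega) (by omega) (by omega) (by omega) (by omega) (by omega) (by omega)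

/-- The negation of the preceding statement: For every finite simple 3-regular hamiltonian graph G, the prism G □ K₂ has two Hamilton cycles such that every edge of the prism lies in exactly one of them. -/
theorem result :
    ¬ (∀ (V : Type) [Fintype V] [DecidableEq V] (G : SimpleGraph V) [DecidableRel G.Adj],
      G.IsRegularOfDegree 3 → G.IsHamiltonian →
      ∃ (u v : V × Fin 2)
        (p : (G.boxProd (⊤ : SimpleGraph (Fin 2))).Walk u u)
        (q : (G.boxProd (⊤ : SimpleGraph (Fin 2))).Walk v v),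
        p.IsHamiltonianCycle ∧ q.IsHamiltonianCycle ∧
        ∀ e ∈ (G.boxProd (⊤ : SimpleGraph (Fin 2))).edgeSet,
          (e ∈ p.edges ↔ e ∉ q.edges)) := by
  intro h
  obtain ⟨u, v, p, q, hp, hq, hpq⟩ := h (Fin 30) G G_regular G_hamiltonian
  have g0 := gadget p q hp hq hpq 0
  have g1 := gadget p q hp hq hpq 1
  have g2 := gadget p q hp hq hpq 2
  rw [show (0 : Fin 3) + 2 = 2 from rfl] at g0
  rw [show (1 : Fin 3) + 2 = 0 from rfl] at g1
  rw [show (2 : Fin 3) + 2 = 1 from rfl] at g2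
  have b1 := ind_le p.edges (lk 0 0)
  have b2 := ind_le p.edges (lk 0 1)
  have b3 := ind_le p.edges (lk 1 0)
  have b4 := ind_le p.edges (lk 1 1)
  have b5 := ind_le p.edges (lk 2 0)
  have b6 := ind_le p.edges (lk 2 1)
  omega

end Pool.Agent.S08298
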