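import Pool.Statements.S08652
import Pool.Agent.Bondage.Search

set_option autoImplicit false
open Pool Pool.MP_4d2e6e_co

namespace Pool.Agent.S08652

/-- The negation of the preceding statement: Every finite graph with at least one edge and no K5 or K3,3 minor (i.e. planar) has at most maxdegree+1 edges whose deletion strictly increases the domination number. -/
theorem result :
    ¬ (∀ (V : Type) [Fintype V] [DecidableEq V] (G : SimpleGraph V) [DecidableRel G.Adj],
      G.edgeSet.Nonempty →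
      (¬ ∃ f : Fin 5 → Set V,
          (∀ i, (G.induce (f i)).Connected) ∧
          (∀ i j, i ≠ j → Disjoint (f i) (f j)) ∧
          (∀ i j, i ≠ j → ∃ u ∈ f i, ∃ v ∈ f j, G.Adj u v)) →
      (¬ ∃ f : Fin 3 ⊕ Fin 3 → Set V,
          (∀ i, (G.induce (f i)).Connected) ∧
          (∀ i j, i ≠ j → Disjoint (f i) (f j)) ∧
          (∀ i j, (completeBipartiteGraph (Fin 3) (Fin 3)).Adj i j →
            ∃ u ∈ f i, ∃ v ∈ f j, G.Adj u v)) →
      ∃ S : Finset (Sym2 V), (↑S : Set (Sym2 V)) ⊆ G.edgeSet ∧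
        S.card ≤ G.maxDegree + 1 ∧
        sInf {k : ℕ | ∃ D : Finset V, D.card = k ∧ ∀ v, v ∈ D ∨ ∃ u ∈ D, G.Adj u v} <
        sInf {k : ℕ | ∃ D : Finset V, D.card = k ∧
          ∀ v, v ∈ D ∨ ∃ u ∈ D, (G.deleteEdges (↑S : Set (Sym2 V))).Adj u v}) := by
  intro H
  obtain ⟨S, -, hScard, hlt⟩ := H (Fin 24) Pool.Agent.Bondage.G
    ⟨s(Pool.Agent.Bondage.s 0, Pool.Agent.Bondage.t 0),
      (SimpleGraph.mem_edgeSet _).mpr (Pool.Agent.Bondage.edge_adj 0)⟩
    (Pool.Agent.MacLane.no_K5 Pool.Agent.Bondage.cert)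
    (Pool.Agent.MacLane.no_K33 Pool.Agent.Bondage.cert)
  have hdeg : Pool.Agent.Bondage.G.maxDegree ≤ 3 := by
    apply SimpleGraph.maxDegree_le_of_forall_degree_le
    decide +kernel
  -- the indices of the deleted edges
  let S' : Finset (Fin 36) := Finset.univ.filter
    (fun e => s(Pool.Agent.Bondage.s e, Pool.Agent.Bondage.t e) ∈ S)
  have hS' : S'.card ≤ 4 := by
    have h1 : S'.card ≤ S.card := by
      apply Finset.card_le_card_of_injOn
        (fun e => s(Pool.Agent.Bondage.s e, Pool.Agent.Bondage.t e))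
      · intro e he
        exact (Finset.mem_filter.mp he).2
      · have hinj : ∀ e e' : Fin 36, s(Pool.Agent.Bondage.s e, Pool.Agent.Bondage.t e) =
            s(Pool.Agent.Bondage.s e', Pool.Agent.Bondage.t e') → e = e' := by
          decide +kernel
        intro e _ e' _ h
        exact hinj e e' h
    omega
  obtain ⟨D, hD8, hD⟩ := Pool.Agent.Bondage.exists_dom S' hS'
  -- both infima are 8
  have hle : sInf {k : ℕ | ∃ D : Finset (Fin 24), D.card = k ∧
      ∀ v, v ∈ D ∨ ∃ u ∈ D,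
        (Pool.Agent.Bondage.G.deleteEdges (↑S : Set (Sym2 (Fin 24)))).Adj u v} ≤ 8 := by
    apply Nat.sInf_le
    refine ⟨D, hD8, ?_⟩
    intro v
    rcases hD v with h | ⟨e, he, h⟩
    · exact Or.inl h
    · right
      have heS : s(Pool.Agent.Bondage.s e, Pool.Agent.Bondage.t e) ∉ S := by
        intro hmem
        exact he (Finset.mem_filter.mpr ⟨Finset.mem_univ _, hmem⟩)
      rcases h with ⟨h1, h2⟩ | ⟨h1, h2⟩
      · refine ⟨_, h2, ?_⟩
        rw [SimpleGraph.deleteEdges_adj]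
        refine ⟨by rw [← h1]; exact (Pool.Agent.Bondage.edge_adj e).symm, ?_⟩
        rw [← h1, Sym2.eq_swap]
        exact heS
      · refine ⟨_, h2, ?_⟩
        rw [SimpleGraph.deleteEdges_adj]
        refine ⟨by rw [← h1]; exact Pool.Agent.Bondage.edge_adj e, ?_⟩
        rw [← h1]
        exact heS
  have hge : 8 ≤ sInf {k : ℕ | ∃ D : Finset (Fin 24), D.card = k ∧
      ∀ v, v ∈ D ∨ ∃ u ∈ D, Pool.Agent.Bondage.G.Adj u v} := by
    have hne : {k : ℕ | ∃ D : Finset (Fin 24), D.card = k ∧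
      ∀ v, v ∈ D ∨ ∃ u ∈ D, Pool.Agent.Bondage.G.Adj u v}.Nonempty :=
      ⟨_, Finset.univ, rfl, fun v => Or.inl (Finset.mem_univ _)⟩
    obtain ⟨D', hD'1, hD'2⟩ := Nat.sInf_mem hne
    rw [← hD'1]
    exact Pool.Agent.Bondage.dom_ge D' hD'2
  exact absurd hlt (by
    rw [not_lt]
    exact hle.trans hge)

end Pool.Agent.S08652
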