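import Pool.Statements.S08674
import Pool.Agent.RelRoots.Good

set_option autoImplicit false
open Classical
open Pool Pool.MP_4e0707_co

namespace Pool.Agent.RelRoots

noncomputable def serN (N : Net) : ℕ → Net
  | 0 => N
  | k + 1 => ser (serN N k) N

lemma good_serN {N : Net} {W : ℝ} {D : ℂ} (h : Good N W D) (k : ℕ) :
    Good (serN N k) ((k + 1) * W) ((k + 1) * D) := by
  induction k with
  | zero => simpa [serN] using h
  | succ k ih =>
    have := good_ser ih h
    unfold serN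
    convert this using 1
    · push_cast; ring
    · push_cast; ring

lemma good_base1 : Good (serN edge 19) 20 20 := by
  have := good_serN good_edge 19
  norm_num at this
  exact this

lemma good_base2 : Good (serN (par (ser edge edge) (ser edge edge)) 14) 20 (40 / 3) := by
  have h1 := good_ser good_edge good_edge
  have h2 := good_par h1 h1 (by norm_num)
  have h3 := good_serN h2 14
  norm_num at h3
  exact h3

lemma growth (k : ℕ) : ∃ (N M : Net) (W : ℝ) (D1 D2 : ℂ), Good N W D1 ∧ Good M W D2 ∧ 20 ≤ W ∧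
    (51 / 50 : ℝ) ^ k * (1 / 3) * W ≤ ‖D1 - D2‖ := by
  induction k with
  | zero =>
    refine ⟨_, _, _, _, _, good_base1, good_base2, le_refl _, ?_⟩
    norm_num
  | succ k ih =>
    obtain ⟨N, M, W, D1, D2, hN, hM, hW, hk⟩ := ih
    have g1 := good_s8 hW hN hM
    have g2 := good_s8 hW hM hN
    have hden : (0 : ℝ) < 20 * W ^ 3 - 18 * W ^ 2 + 7 * W - 1 := by
      nlinarith [mul_pos (show (0 : ℝ) < W by linarith) (show (0 : ℝ) < W by linarith)]
    have hnum : (0 : ℝ) < 28 * W ^ 2 - 15 * W + 3 := by nlinarith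
    refine ⟨_, _, _, _, _, g1, g2, ?_, ?_⟩
    · rw [le_div_iff₀ hden]
      obtain ⟨t, rfl⟩ : ∃ t, W = 20 + t := ⟨W - 20, by ring⟩
      have ht : 0 ≤ t := by linarith
      have h : 0 ≤ (20 + t) ^ 2 * (28 * (20 + t) ^ 2 - 15 * (20 + t) + 3) -
          20 * (20 * (20 + t) ^ 3 - 18 * (20 + t) ^ 2 + 7 * (20 + t) - 1) := by
        ring_nf
        positivity
      linarith
    · have hdenc : (20 * (W : ℂ) ^ 3 - 18 * W ^ 2 + 7 * W - 1) ≠ 0 := by
        exact_mod_cast hden.ne'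
      let κ : ℝ := ((80 * W ^ 3 - 39 * W ^ 2 + 6 * W) * (20 * W ^ 3 - 18 * W ^ 2 + 7 * W - 1) -
        W ^ 2 * (28 * W ^ 2 - 15 * W + 3) * (36 * W ^ 2 - 24 * W + 5)) /
        (20 * W ^ 3 - 18 * W ^ 2 + 7 * W - 1) ^ 2
      have hdiff : (((96 * W ^ 3 - 42 * W ^ 2 + 6 * W) * D1 + (16 * W ^ 3 - 3 * W ^ 2) * D2) *
          (20 * W ^ 3 - 18 * W ^ 2 + 7 * W - 1)
        - (W ^ 2 * (28 * W ^ 2 - 15 * W + 3)) *
          ((48 * W ^ 2 - 30 * W + 6) * D1 + (12 * W ^ 2 - 6 * W + 1) * D2)) /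
        (20 * W ^ 3 - 18 * W ^ 2 + 7 * W - 1) ^ 2 -
        (((96 * W ^ 3 - 42 * W ^ 2 + 6 * W) * D2 + (16 * W ^ 3 - 3 * W ^ 2) * D1) *
          (20 * W ^ 3 - 18 * W ^ 2 + 7 * W - 1)
        - (W ^ 2 * (28 * W ^ 2 - 15 * W + 3)) *
          ((48 * W ^ 2 - 30 * W + 6) * D2 + (12 * W ^ 2 - 6 * W + 1) * D1)) /
        (20 * W ^ 3 - 18 * W ^ 2 + 7 * W - 1) ^ 2 = (κ : ℂ) * (D1 - D2) := by
        simp only [κ]
        push_cast
        field_simp
        ring
      rw [hdiff, norm_mul, Complex.norm_real, Real.norm_eq_abs]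
      have hκ : (51 / 50 : ℝ) * (W * (28 * W ^ 2 - 15 * W + 3) /
          (20 * W ^ 3 - 18 * W ^ 2 + 7 * W - 1)) ≤ κ := by
        simp only [κ]
        rw [le_div_iff₀ (by positivity)]
        have e : (51 / 50 : ℝ) * (W * (28 * W ^ 2 - 15 * W + 3) /
          (20 * W ^ 3 - 18 * W ^ 2 + 7 * W - 1)) * (20 * W ^ 3 - 18 * W ^ 2 + 7 * W - 1) ^ 2 =
          (51 / 50 : ℝ) * (W * (28 * W ^ 2 - 15 * W + 3)) *
            (20 * W ^ 3 - 18 * W ^ 2 + 7 * W - 1) := by
          have := hden.ne'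
          generalize (20 * W ^ 3 - 18 * W ^ 2 + 7 * W - 1 : ℝ) = q at *
          field_simp
        rw [e]
        obtain ⟨t, rfl⟩ : ∃ t, W = 20 + t := ⟨W - 20, by ring⟩
        have ht : 0 ≤ t := by linarith
        rw [← sub_nonneg]
        ring_nf
        positivity
      have hκ0 : 0 ≤ κ := le_trans (by positivity) hκ
      rw [abs_of_nonneg hκ0]
      calc (51 / 50 : ℝ) ^ (k + 1) * (1 / 3) *
            (W ^ 2 * (28 * W ^ 2 - 15 * W + 3) / (20 * W ^ 3 - 18 * W ^ 2 + 7 * W - 1))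
          = ((51 / 50 : ℝ) * (W * (28 * W ^ 2 - 15 * W + 3) /
          (20 * W ^ 3 - 18 * W ^ 2 + 7 * W - 1))) * ((51 / 50 : ℝ) ^ k * (1 / 3) * W) := by ring
        _ ≤ κ * ‖D1 - D2‖ := by
          apply mul_le_mul hκ hk (by positivity) hκ0

theorem not_bdd (C : ℝ) : ¬ Bdd C := by
  intro hC
  obtain ⟨k, hk⟩ := pow_unbounded_of_one_lt (12 * (|C| + 1)) (show (1 : ℝ) < 51 / 50 by norm_num)
  obtain ⟨N, M, W, D1, D2, hN, hM, hW, hD⟩ := growth k
  have h1 := hN.bound hC (by linarith)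
  have h2 := hM.bound hC (by linarith)
  have h3 := norm_sub_le D1 D2
  have hC0 : 0 ≤ |C| := abs_nonneg C
  have h4 : (51 / 50 : ℝ) ^ k * (1 / 3) * W ≤ 2 * ((2 * W - 1) * (|C| + 1)) := by linarith
  have h5 : 12 * (|C| + 1) * (1 / 3) * W < (51 / 50 : ℝ) ^ k * (1 / 3) * W := by
    have : (0 : ℝ) < 1 / 3 * W := by linarith
    nlinarith
  nlinarith

end Pool.Agent.RelRoots

namespace Pool.Agent.S08674

/-- The negation of the preceding statement: There is a real constant C such that, for every finite matroid, every complex root z of its reliability polynomial (sum over spanning sets S of z^∣S∣ (1−z)^(∣E∣−∣S∣)) satisfies ∣z∣ ≤ C. -/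
theorem result :
    ¬ (∃ C : ℝ, ∀ (n : ℕ) (M : Matroid (Fin n)), M.E = Set.univ →
      ∀ z : ℂ,
        (∑ S : Finset (Fin n),
          (if M.Spanning (↑S : Set (Fin n)) then
            z ^ (Finset.card S) * (1 - z) ^ (n - Finset.card S) else 0)) = 0 →
        ‖z‖ ≤ C) := by
  rintro ⟨C, hC⟩
  exact Pool.Agent.RelRoots.not_bdd C hC

end Pool.Agent.S08674
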