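import Pool.Statements.S09362
import Pool.Agent.Lib.HermUnital
import Pool.Agent.Lib.HermUnital2

set_option autoImplicit false
open Pool Pool.MP_6d5213_co

namespace Pool.Agent.S09362

open Pool.Agent.Lib.HermUnital

/-- The points of the affine Hermitian curve `y + y^p = x^(p+1) + c`. -/
theorem many_points (p : ℕ) [hp : Fact p.Prime] (F : Type) [Field F] [Fintype F] [CharP F p]
    (hF : Fintype.card F = p ^ 2) :
    ∃ c : F, p ^ 3 ≤ Nat.card {z : F × F // z.2 + frobenius F p z.2 - z.1 * frobenius F p z.1 = c} := by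
  classical
  have hpp : p.Prime := hp.out
  have hfrob : ∀ x : F, frobenius F p (frobenius F p x) = x := by
    intro x
    rw [frobenius_def, frobenius_def, ← pow_mul, ← pow_two, ← hF]
    exact FiniteField.pow_card x
  -- the fixed set of Frobenius
  set Fix : Finset F := Finset.univ.filter (fun z : F => z ^ p = z) with hFix
  have hFixcard : Fix.card ≤ p := by
    have hne : (Polynomial.X ^ p - Polynomial.X : Polynomial F) ≠ 0 :=
      FiniteField.X_pow_card_sub_X_ne_zero F hpp.one_lt
    have hsub : Fix ⊆ (Polynomial.X ^ p - Polynomial.X : Polynomial F).roots.toFinset := by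
      intro z hz
      rw [Multiset.mem_toFinset, Polynomial.mem_roots hne]
      simp only [hFix, Finset.mem_filter, Finset.mem_univ, true_and] at hz
      simp [Polynomial.IsRoot, hz]
    calc Fix.card ≤ (Polynomial.X ^ p - Polynomial.X : Polynomial F).roots.toFinset.card :=
          Finset.card_le_card hsub
      _ ≤ Multiset.card (Polynomial.X ^ p - Polynomial.X : Polynomial F).roots :=
          Multiset.toFinset_card_le _
      _ ≤ (Polynomial.X ^ p - Polynomial.X : Polynomial F).natDegree :=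
          Polynomial.card_roots' _
      _ = p := FiniteField.X_pow_card_sub_X_natDegree_eq F hpp.one_lt
  have hmaps : ∀ z ∈ (Finset.univ : Finset (F × F)),
      z.2 + frobenius F p z.2 - z.1 * frobenius F p z.1 ∈ Fix := by
    intro z _
    simp only [hFix, Finset.mem_filter, Finset.mem_univ, true_and]
    rw [← frobenius_def, map_sub, map_add, map_mul, hfrob, hfrob]
    ring
  have hne : Fix.Nonempty := ⟨0, by simp [hFix, hpp.ne_zero]⟩
  have hcard : Fix.card * p ^ 3 ≤ (Finset.univ : Finset (F × F)).card := by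
    rw [Finset.card_univ, Fintype.card_prod, hF]
    calc Fix.card * p ^ 3 ≤ p * p ^ 3 := Nat.mul_le_mul_right _ hFixcard
      _ = p ^ 2 * p ^ 2 := by ring
  obtain ⟨c, _, hc⟩ := Finset.exists_le_card_fiber_of_mul_le_card_of_maps_to hmaps hne hcard
  refine ⟨c, ?_⟩
  rw [Nat.card_eq_fintype_card, Fintype.card_subtype]
  exact hc

/-- The negation of the preceding statement: There are constants a, b such that every simple matroid representable over a finite field of size q ≥ 4, with no minor isomorphic to the cycle matroid of K4, has at most (a·q + b)·r elements, where r is its rank. -/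
theorem result :
    ¬ (∃ a b : ℝ, ∀ (F : Type) [Field F] [Fintype F], 4 ≤ Fintype.card F →
      ∀ (α : Type) [Fintype α] (M : Matroid α),
        (∃ (n : ℕ) (v : α → (Fin n → F)),
            ∀ I ⊆ M.E, M.Indep I ↔ LinearIndependent F (fun x : I => v x)) →
        (∀ e ∈ M.E, ∀ f ∈ M.E, M.Indep {e, f}) →
        (¬ ∃ N : Matroid α, Matroid.IsMinor N M ∧
            ∃ φ : α → Sym2 (Fin 4), Set.BijOn φ N.E {s | ¬ s.IsDiag} ∧
              ∀ I ⊆ N.E, N.Indep I ↔ (SimpleGraph.fromEdgeSet (φ '' I)).IsAcyclic) →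
        ∀ B : Set α, M.IsBase B →
          (M.E.ncard : ℝ) ≤ (a * (Fintype.card F : ℝ) + b) * (B.ncard : ℝ)) := by
  classical
  rintro ⟨a, b, h⟩
  obtain ⟨p, hpge, hp⟩ := Nat.exists_infinite_primes (Nat.ceil (3 * (|a| + |b|)) + 1)
  have hfact : Fact p.Prime := ⟨hp⟩
  have hp2 : 2 ≤ p := hp.two_le
  let F := GaloisField p 2
  let _ : Fintype F := Fintype.ofFinite F
  have hF : Fintype.card F = p ^ 2 := by
    rw [← Nat.card_eq_fintype_card]
    exact GaloisField.card p 2 (by norm_num)
  obtain ⟨c, hc⟩ := many_points p F hF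
  let α := {z : F × F // z.2 + frobenius F p z.2 - z.1 * frobenius F p z.1 = c}
  let X : α → F := fun z => z.1.1
  let Y : α → F := fun z => z.1.2
  have hcurve : ∀ z : α, Y z + frobenius F p (Y z) = X z * frobenius F p (X z) + c := by
    intro z
    have := z.2
    show z.1.2 + frobenius F p z.1.2 = z.1.1 * frobenius F p z.1.1 + c
    linear_combination this
  have hinj : ∀ z w : α, X z = X w → Y z = Y w → z = w := by
    intro z w h1 h2
    exact Subtype.ext (Prod.ext h1 h2)
  let M := vecMatroid (fun z : α => ![1, X z, Y z])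
  have hsmall : ∀ I, M.Indep I → I.Finite ∧ I.ncard ≤ 3 := by
    intro I hI
    refine ⟨Set.toFinite I, ?_⟩
    have hI' : LinearIndepOn F (fun z : α => ![1, X z, Y z]) I := hI
    have : Fintype I := Fintype.ofFinite I
    have h3 := LinearIndependent.fintype_card_le_finrank hI'
    rw [Module.finrank_fin_fun] at h3
    rwa [Set.ncard_eq_toFinset_card', Set.toFinset_card]
  have hpair : ∀ e ∈ M.E, ∀ f ∈ M.E, M.Indep {e, f} := by
    intro e _ f _
    show LinearIndepOn F (fun z : α => ![1, X z, Y z]) {e, f}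
    by_cases hef : e = f
    · subst hef
      rw [Set.pair_eq_singleton, linearIndepOn_singleton_iff]
      intro h0
      have := congrFun h0 0
      simp at this
    · rw [LinearIndepOn.pair_iff _ hef]
      intro s t hst
      have h0 := congrFun hst 0
      have h1 := congrFun hst 1
      have h2 := congrFun hst 2
      simp at h0 h1 h2
      have ht : t = -s := by linear_combination h0
      subst ht
      have hx : s * (X e - X f) = 0 := by linear_combination h1
      have hy : s * (Y e - Y f) = 0 := by linear_combination h2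
      by_cases hs : s = 0
      · simp [hs]
      · exfalso
        apply hef
        apply hinj
        · rcases mul_eq_zero.mp hx with h | h
          · exact absurd h hs
          · linear_combination h
        · rcases mul_eq_zero.mp hy with h | h
          · exact absurd h hs
          · linear_combination h
  have hnoK4 := no_K4_minor M hsmall (by
    intro e01 e02 e03 e12 e13 e23 _ _ _ _ _ _ hnd hi1 hi2 hi3 hi4 hi5
    simp only [List.nodup_cons, List.mem_cons, List.not_mem_nil, or_false, not_or,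
      List.nodup_nil, and_true, not_false_eq_true] at hnd
    obtain ⟨⟨n1, n2, n3, n4, n5⟩, ⟨n6, n7, n8, n9⟩, ⟨n10, n11, n12⟩, ⟨n13, n14⟩, n15⟩ := hnd
    have E1 := (indep_three_iff X Y e01 e02 e03 n1 n2 n6).mp hi1
    have E2 := mt (indep_three_iff X Y e01 e02 e12 n1 n3 n7).mpr hi2
    have E3 := mt (indep_three_iff X Y e01 e03 e13 n2 n4 n11).mpr hi3
    have E4 := mt (indep_three_iff X Y e02 e03 e23 n6 n9 n12).mpr hi4
    have E5 := mt (indep_three_iff X Y e12 e13 e23 n13 n14 n15).mpr hi5
    push Not at E2 E3 E4 E5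
    refine onan_det (frobenius F p) c (X e01) (Y e01) (X e02) (Y e02) (X e03) (Y e03)
      (X e12) (Y e12) (X e13) (Y e13) (X e23) (Y e23) (hcurve _) (hcurve _) (hcurve _)
      (hcurve _) (hcurve _) (hcurve _) E1 ?_ ?_ ?_ E2 E3 E4 E5
    · rintro ⟨h1, h2⟩; exact n3 (hinj _ _ h1 h2).symm
    · rintro ⟨h1, h2⟩; exact n11 (hinj _ _ h1 h2).symm
    · rintro ⟨h1, h2⟩; exact n9 (hinj _ _ h1 h2).symm)
  obtain ⟨B, hB⟩ := M.exists_isBase
  have hmain := h F (by rw [hF]; nlinarith) α M
    ⟨3, fun z : α => ![1, X z, Y z], fun I _ => Iff.rfl⟩ hpair hnoK4 B hB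
  have hB3 : B.ncard ≤ 3 := (hsmall B hB.indep).2
  have hE : p ^ 3 ≤ M.E.ncard := by
    show p ^ 3 ≤ (Set.univ : Set α).ncard
    rw [Set.ncard_univ]
    exact hc
  have hpR : 3 * (|a| + |b|) < (p : ℝ) := by
    have h1 : 3 * (|a| + |b|) ≤ (Nat.ceil (3 * (|a| + |b|)) : ℝ) := Nat.le_ceil _
    have h2 : ((Nat.ceil (3 * (|a| + |b|)) + 1 : ℕ) : ℝ) ≤ (p : ℝ) := by exact_mod_cast hpge
    push_cast at h2
    linarith
  have hER : ((p : ℝ)) ^ 3 ≤ (M.E.ncard : ℝ) := by exact_mod_cast hE
  have hB3R : (B.ncard : ℝ) ≤ 3 := by exact_mod_cast hB3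
  have hB0 : (0 : ℝ) ≤ (B.ncard : ℝ) := Nat.cast_nonneg _
  have hp1 : (1 : ℝ) ≤ (p : ℝ) := by exact_mod_cast hp.one_le
  have hFR : (Fintype.card F : ℝ) = (p : ℝ) ^ 2 := by rw [hF]; push_cast; ring
  rw [hFR] at hmain
  have h4 : (a * (p : ℝ) ^ 2 + b) ≤ (|a| + |b|) * (p : ℝ) ^ 2 := by
    have h5 : a * (p : ℝ) ^ 2 ≤ |a| * (p : ℝ) ^ 2 :=
      mul_le_mul_of_nonneg_right (le_abs_self a) (by positivity)
    have h6 : b ≤ |b| * (p : ℝ) ^ 2 := by
      have h7 : (1 : ℝ) ≤ (p : ℝ) ^ 2 := by nlinarith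
      nlinarith [le_abs_self b, abs_nonneg b]
    linarith
  have h8 : (a * (p : ℝ) ^ 2 + b) * (B.ncard : ℝ) ≤ (|a| + |b|) * (p : ℝ) ^ 2 * 3 := by
    calc (a * (p : ℝ) ^ 2 + b) * (B.ncard : ℝ) ≤ ((|a| + |b|) * (p : ℝ) ^ 2) * (B.ncard : ℝ) :=
          mul_le_mul_of_nonneg_right h4 hB0
      _ ≤ ((|a| + |b|) * (p : ℝ) ^ 2) * 3 :=
          mul_le_mul_of_nonneg_left hB3R (by positivity)
  have h9 : (|a| + |b|) * (p : ℝ) ^ 2 * 3 < (p : ℝ) ^ 3 := by
    have : 0 < (p : ℝ) ^ 2 := by positivity
    nlinarith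
  linarith

end Pool.Agent.S09362
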