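import Pool.Statements.S09655
import Pool.Agent.MP7ae277.Main

set_option autoImplicit false
open Pool Pool.MP_7ae277_co

namespace Pool.Agent.S09655

/-- For every k there are a positive d and a dimension n such that every k-colouring of Z^n has points x and v, with the sum of absolute values of v's coordinates equal to d, where x−v, x, x+v get the same colour. -/
theorem result :
    ∀ k : ℕ, ∃ d n : ℕ, 0 < d ∧
      ∀ c : (Fin n → ℤ) → Fin k,
        ∃ x v : Fin n → ℤ, (∑ i, |v i|) = (d : ℤ) ∧
          c (x - v) = c x ∧ c x = c (x + v) := by
  exact fun k => Pool.Agent.MP7ae277.main k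

end Pool.Agent.S09655
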