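import Pool.Statements.S09798
-- import your own Pool.Agent.* helpers here

set_option autoImplicit false
open Pool Pool.MP_82152b_co

namespace Pool.Agent.S09798

/-- Edges of the eight-vertex graph `H`: `0 = a`, `1, 2 = x₁, x₂`, `3, 4 = y₁, y₂`,
`5, 6 = z₁, z₂`, `7 = b`. -/
def adjB (u v : Fin 8) : Bool :=
  ((u.val, v.val) ∈ [(0,1),(0,2),(1,3),(1,5),(2,4),(2,6),(3,5),(3,7),(4,6),(4,7),(5,7),(6,7)]) ||
  ((v.val, u.val) ∈ [(0,1),(0,2),(1,3),(1,5),(2,4),(2,6),(3,5),(3,7),(4,6),(4,7),(5,7),(6,7)])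

/-- The eight-vertex graph. -/
def H8 : SimpleGraph (Fin 8) where
  Adj u v := adjB u v = true
  symm := ⟨by decide⟩
  loopless := ⟨by decide⟩

instance : DecidableRel H8.Adj := fun u v => inferInstanceAs (Decidable (adjB u v = true))

theorem H8_deg : ∀ S : Finset (Fin 8), S.Nonempty →
    ∃ v ∈ S, {w : Fin 8 | w ∈ S ∧ H8.Adj v w}.ncard ≤ 2 := by
  intro S hS
  refine ⟨S.min' hS, S.min'_mem hS, ?_⟩
  have key : ∀ v : Fin 8, (Finset.univ.filter (fun w => v ≤ w ∧ H8.Adj v w)).card ≤ 2 := by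
    decide
  have h1 : {w : Fin 8 | w ∈ S ∧ H8.Adj (S.min' hS) w} ⊆
      ((Finset.univ.filter (fun w => S.min' hS ≤ w ∧ H8.Adj (S.min' hS) w) :
        Finset (Fin 8)) : Set (Fin 8)) := by
    intro w hw
    simp only [Finset.coe_filter, Finset.mem_univ, true_and, Set.mem_ofPred_eq]
    exact ⟨S.min'_le w hw.1, hw.2⟩
  calc {w : Fin 8 | w ∈ S ∧ H8.Adj (S.min' hS) w}.ncard
      ≤ ((Finset.univ.filter (fun w => S.min' hS ≤ w ∧ H8.Adj (S.min' hS) w) :
        Finset (Fin 8)) : Set (Fin 8)).ncard := Set.ncard_le_ncard h1 (Finset.finite_toSet _)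
    _ ≤ 2 := by rw [Set.ncard_coe_finset]; exact key _

/-- The property of being `2`-degenerate. -/
def Deg2 {n : ℕ} (G : SimpleGraph (Fin n)) : Prop :=
  ∀ S : Finset (Fin n), S.Nonempty → ∃ v ∈ S, {w : Fin n | w ∈ S ∧ G.Adj v w}.ncard ≤ 2

/-- A degeneracy ordering. -/
theorem exists_rank {n : ℕ} (G : SimpleGraph (Fin n)) (hG : Deg2 G) :
    ∀ (m : ℕ) (S : Finset (Fin n)), S.card = m →
      ∃ r : Fin n → ℕ, (∀ v ∈ S, r v < m) ∧ (∀ v ∈ S, ∀ w ∈ S, r v = r w → v = w) ∧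
        ∀ v ∈ S, {w : Fin n | w ∈ S ∧ G.Adj v w ∧ r w < r v}.ncard ≤ 2 := by
  intro m
  induction m with
  | zero =>
    intro S hS
    rw [Finset.card_eq_zero] at hS
    subst hS
    exact ⟨fun _ => 0, by simp, by simp, by simp⟩
  | succ m ih =>
    intro S hS
    obtain ⟨v, hv, hcard⟩ := hG S (by rw [← Finset.card_pos]; omega)
    obtain ⟨r, hr1, hr2, hr3⟩ := ih (S.erase v) (by rw [Finset.card_erase_of_mem hv]; omega)
    refine ⟨fun w => if w = v then m else r w, ?_, ?_, ?_⟩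
    · intro w hw
      by_cases h : w = v
      · simp [h]
      · have := hr1 w (Finset.mem_erase.2 ⟨h, hw⟩)
        simp [h]; omega
    · intro w hw u hu heq
      by_cases h : w = v
      · by_cases h' : u = v
        · rw [h, h']
        · have := hr1 u (Finset.mem_erase.2 ⟨h', hu⟩)
          simp [h, h'] at heq; omega
      · by_cases h' : u = v
        · have := hr1 w (Finset.mem_erase.2 ⟨h, hw⟩)
          simp [h, h'] at heq; omega
        · simp [h, h'] at heq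
          exact hr2 w (Finset.mem_erase.2 ⟨h, hw⟩) u (Finset.mem_erase.2 ⟨h', hu⟩) heq
    · intro w hw
      by_cases h : w = v
      · subst h
        refine le_trans (Set.ncard_le_ncard ?_ (Set.toFinite _)) hcard
        intro x hx
        exact ⟨hx.1, hx.2.1⟩
      · refine le_trans (Set.ncard_le_ncard ?_ (Set.toFinite _))
          (hr3 w (Finset.mem_erase.2 ⟨h, hw⟩))
        intro x hx
        obtain ⟨hx1, hx2, hx3⟩ := hx
        have hlt := hr1 w (Finset.mem_erase.2 ⟨h, hw⟩)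
        by_cases h' : x = v
        · simp [h, h'] at hx3; omega
        · simp [h, h'] at hx3
          exact ⟨Finset.mem_erase.2 ⟨h', hx1⟩, hx2, hx3⟩

/-- A set with at most two elements is enumerated by `Fin 2`. -/
theorem exists_enum {n : ℕ} (hn : 0 < n) (s : Set (Fin n)) (hs : s.ncard ≤ 2) :
    ∃ e : Fin 2 → Fin n, ∀ w ∈ s, w = e 0 ∨ w = e 1 := by
  have hfin : s.Finite := Set.toFinite s
  by_cases h0 : s.ncard = 0
  · rw [Set.ncard_eq_zero hfin] at h0
    exact ⟨fun _ => ⟨0, hn⟩, by simp [h0]⟩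
  by_cases h1 : s.ncard = 1
  · obtain ⟨a, ha⟩ := Set.ncard_eq_one.1 h1
    exact ⟨fun _ => a, by simp [ha]⟩
  · have h2 : s.ncard = 2 := by omega
    obtain ⟨a, b, _, hab⟩ := Set.ncard_eq_two.1 h2
    refine ⟨![a, b], ?_⟩
    intro w hw
    rw [hab] at hw
    simpa using hw

/-- Every vertex of `H8` other than `0` has three different neighbours. -/
theorem three_nbrs : ∀ u : Fin 8, u ≠ 0 → ∃ a b c : Fin 8, a ≠ b ∧ a ≠ c ∧ b ≠ c ∧
    H8.Adj u a ∧ H8.Adj u b ∧ H8.Adj u c := by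
  decide

theorem ncard_three {n : ℕ} (s : Set (Fin n)) (hs : s.ncard ≤ 2) (a b c : Fin n)
    (hab : a ≠ b) (hac : a ≠ c) (hbc : b ≠ c) (ha : a ∈ s) (hb : b ∈ s) (hc : c ∈ s) : False := by
  have h3 : ({a, b, c} : Finset (Fin n)).card = 3 := Finset.card_eq_three.2 ⟨a, b, c, hab, hac, hbc, rfl⟩
  have hsub : (({a, b, c} : Finset (Fin n)) : Set (Fin n)) ⊆ s := by
    intro x hx
    simp only [Finset.coe_insert, Finset.coe_singleton, Set.mem_insert_iff,
      Set.mem_singleton_iff] at hx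
    rcases hx with rfl | rfl | rfl <;> assumption
  have := Set.ncard_le_ncard hsub (Set.toFinite _)
  rw [Set.ncard_coe_finset, h3] at this
  omega

/-- A `2`-degenerate graph on `n` vertices has at most `16 ^ 8 * n` labelled copies of `H8`. -/
theorem count_le {n : ℕ} (G : SimpleGraph (Fin n)) (hG : Deg2 G) :
    {φ : Fin 8 ↪ Fin n | ∀ u v, H8.Adj u v → G.Adj (φ u) (φ v)}.ncard ≤ 16 ^ 8 * n := by
  classical
  rcases Nat.eq_zero_or_pos n with rfl | hn
  · have : IsEmpty (Fin 8 ↪ Fin 0) := ⟨fun φ => (φ 0).elim0⟩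
    rw [Set.eq_empty_of_isEmpty {φ : Fin 8 ↪ Fin 0 | ∀ u v, H8.Adj u v → G.Adj (φ u) (φ v)}]
    simp
  obtain ⟨r, hr1, hr2, hr3⟩ := exists_rank G hG n Finset.univ (by simp)
  have hr2' : ∀ v w, r v = r w → v = w := fun v w => hr2 v (Finset.mem_univ _) w (Finset.mem_univ _)
  have hr3' : ∀ v, {w : Fin n | G.Adj v w ∧ r w < r v}.ncard ≤ 2 := by
    intro v
    have := hr3 v (Finset.mem_univ _)
    simpa using this
  choose e he using fun v => exists_enum hn _ (hr3' v)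
  -- the parent relation
  have hpar : ∀ φ : {φ : Fin 8 ↪ Fin n | ∀ u v, H8.Adj u v → G.Adj (φ u) (φ v)}, ∀ u : Fin 8,
      ∃ p : Fin 8 × Fin 2, u ≠ 0 → r (φ.1 u) < r (φ.1 p.1) ∧ φ.1 u = e (φ.1 p.1) p.2 := by
    intro φ u
    by_cases hu : u = 0
    · exact ⟨(0, 0), fun h => absurd hu h⟩
    obtain ⟨a, b, c, hab, hac, hbc, ha, hb, hc⟩ := three_nbrs u hu
    have hmem : ∃ p : Fin 8, H8.Adj u p ∧ r (φ.1 u) < r (φ.1 p) := by
      by_contra hcon
      push Not at hcon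
      have aux : ∀ p, H8.Adj u p → φ.1 p ∈ {w : Fin n | G.Adj (φ.1 u) w ∧ r w < r (φ.1 u)} := by
        intro p hp
        refine ⟨φ.2 u p hp, lt_of_le_of_ne (hcon p hp) ?_⟩
        intro heq
        have := φ.1.injective (hr2' _ _ heq)
        subst this
        exact H8.irrefl hp
      exact ncard_three _ (hr3' (φ.1 u)) (φ.1 a) (φ.1 b) (φ.1 c)
        (fun h => hab (φ.1.injective h)) (fun h => hac (φ.1.injective h))
        (fun h => hbc (φ.1.injective h)) (aux a ha) (aux b hb) (aux c hc)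
    obtain ⟨p, hp1, hp2⟩ := hmem
    have hin : φ.1 u ∈ {w : Fin n | G.Adj (φ.1 p) w ∧ r w < r (φ.1 p)} :=
      ⟨φ.2 p u hp1.symm, hp2⟩
    rcases he (φ.1 p) _ hin with h | h
    · exact ⟨(p, 0), fun _ => ⟨hp2, h⟩⟩
    · exact ⟨(p, 1), fun _ => ⟨hp2, h⟩⟩
  choose P hP using hpar
  let Φ : {φ : Fin 8 ↪ Fin n | ∀ u v, H8.Adj u v → G.Adj (φ u) (φ v)} →
      Fin n × (Fin 8 → Fin 8 × Fin 2) := fun φ => (φ.1 0, P φ)
  have hinj : Function.Injective Φ := by
    intro φ ψ h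
    have h0 : φ.1 0 = ψ.1 0 := congrArg Prod.fst h
    have hPP : P φ = P ψ := congrArg Prod.snd h
    have main : ∀ k : ℕ, ∀ u : Fin 8, n - r (φ.1 u) ≤ k → φ.1 u = ψ.1 u := by
      intro k
      induction k with
      | zero =>
        intro u hk
        have := hr1 (φ.1 u) (Finset.mem_univ _)
        omega
      | succ k ih =>
        intro u hk
        by_cases hu : u = 0
        · rw [hu]; exact h0
        have h1 := hP φ u hu
        have h2 := hP ψ u hu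
        have hlt := hr1 (φ.1 (P φ u).1) (Finset.mem_univ _)
        have h3 := ih (P φ u).1 (by omega)
        rw [h1.2, h2.2, ← hPP, h3]
    apply Subtype.ext
    ext u
    rw [main _ u le_rfl]
  have hcard := Fintype.card_le_of_injective Φ hinj
  rw [← Nat.card_coe_set_eq, Nat.card_eq_fintype_card]
  refine le_trans hcard ?_
  simp only [Fintype.card_prod, Fintype.card_fun, Fintype.card_fin]
  norm_num
  omega

/-- The vertex sets of the two separations. -/
def XB (i : Fin 2) (v : Fin 8) : Bool :=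
  if i = 0 then (v = 1 ∨ v = 3 ∨ v = 5) else (v = 2 ∨ v = 4 ∨ v = 6)

/-- The first part of the separation. -/
def SA (i : Fin 2) : H8.Subgraph where
  verts := {v | XB i v = true ∨ v = 0 ∨ v = 7}
  Adj u v := H8.Adj u v ∧ (XB i u = true ∨ XB i v = true)
  adj_sub h := h.1
  edge_vert := by
    intro u v h
    revert u v i
    simp only [Set.mem_ofPred_eq]
    decide
  symm := by
    refine ⟨fun u v h => ⟨h.1.symm, h.2.symm⟩⟩

/-- The second part of the separation. -/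
def SB (i : Fin 2) : H8.Subgraph where
  verts := {v | XB i v = false}
  Adj u v := H8.Adj u v ∧ XB i u = false ∧ XB i v = false
  adj_sub h := h.1
  edge_vert := fun h => h.2.1
  symm := by
    refine ⟨fun u v h => ⟨h.1.symm, h.2.2, h.2.1⟩⟩

theorem sep (i : Fin 2) : SA i ⊔ SB i = ⊤ ∧ (∀ u v, (SA i).Adj u v → ¬ (SB i).Adj u v) ∧
    (∃ v, v ∈ (SA i).verts ∧ v ∉ (SB i).verts) ∧ (∃ v, v ∈ (SB i).verts ∧ v ∉ (SA i).verts) ∧
    ((SA i).verts ∩ (SB i).verts).ncard ≤ 2 := by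
  refine ⟨?_, ?_, ?_, ?_, ?_⟩
  · ext u v
    · simp only [SimpleGraph.Subgraph.verts_sup, SA, SB, Set.mem_union, Set.mem_ofPred_eq,
        SimpleGraph.Subgraph.verts_top, Set.mem_univ, iff_true]
      revert i u
      decide
    · simp only [SimpleGraph.Subgraph.sup_adj, SA, SB, SimpleGraph.Subgraph.top_adj]
      revert i u v
      decide
  · intro u v h h'
    simp only [SA, SB] at h h'
    rcases h.2 with h2 | h2
    · rw [h'.2.1] at h2; exact absurd h2 (by decide)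
    · rw [h'.2.2] at h2; exact absurd h2 (by decide)
  · simp only [SA, SB, Set.mem_ofPred_eq]
    revert i
    decide
  · simp only [SA, SB, Set.mem_ofPred_eq]
    revert i
    decide
  · have : (SA i).verts ∩ (SB i).verts ⊆ (({0, 7} : Finset (Fin 8)) : Set (Fin 8)) := by
      intro v hv
      have hv' : (XB i v = true ∨ v = 0 ∨ v = 7) ∧ XB i v = false := hv
      rcases hv' with ⟨h1 | h1 | h1, h2⟩
      · rw [h2] at h1; exact absurd h1 (by decide)
      · simp [h1]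
      · simp [h1]
    refine le_trans (Set.ncard_le_ncard this (Finset.finite_toSet _)) ?_
    rw [Set.ncard_coe_finset]
    decide

theorem indep : ∀ i j : Fin 2, i ≠ j →
    (∀ u v, (SA i).Adj u v → ¬ (SA j).Adj u v) ∧
      ∀ v, v ∈ (SA i).verts → v ∉ (SB i).verts → ¬ (v ∈ (SA j).verts ∧ v ∉ (SB j).verts) := by
  simp only [SA, SB, Set.mem_ofPred_eq]
  decide

/-- The negation of the preceding statement: For every k and every nonempty k-degenerate graph H with flap number f (1 if H has no (≤k)-separation, else the max number of pairwise independent ones), the max number of copies of H in an n-vertex k-degenerate graph is Θ(n^f). -/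
theorem result :
    ¬ (∀ (k : ℕ) (V : Type) [Fintype V] [Nonempty V] (H : SimpleGraph V),
    (∀ S : Finset V, S.Nonempty → ∃ v ∈ S, {w : V | w ∈ S ∧ H.Adj v w}.ncard ≤ k) →
    ∀ f : ℕ,
      (((¬ ∃ A B : H.Subgraph, A ⊔ B = ⊤ ∧ (∀ u v, A.Adj u v → ¬ B.Adj u v) ∧
            (∃ v, v ∈ A.verts ∧ v ∉ B.verts) ∧ (∃ v, v ∈ B.verts ∧ v ∉ A.verts) ∧
            (A.verts ∩ B.verts).ncard ≤ k) ∧ f = 1) ∨
       ((∃ A B : H.Subgraph, A ⊔ B = ⊤ ∧ (∀ u v, A.Adj u v → ¬ B.Adj u v) ∧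
            (∃ v, v ∈ A.verts ∧ v ∉ B.verts) ∧ (∃ v, v ∈ B.verts ∧ v ∉ A.verts) ∧
            (A.verts ∩ B.verts).ncard ≤ k) ∧
         IsGreatest {m : ℕ | ∃ A B : Fin m → H.Subgraph,
            (∀ i, A i ⊔ B i = ⊤ ∧ (∀ u v, (A i).Adj u v → ¬ (B i).Adj u v) ∧
              (∃ v, v ∈ (A i).verts ∧ v ∉ (B i).verts) ∧
              (∃ v, v ∈ (B i).verts ∧ v ∉ (A i).verts) ∧
              ((A i).verts ∩ (B i).verts).ncard ≤ k) ∧
            ∀ i j, i ≠ j →
              (∀ u v, (A i).Adj u v → ¬ (A j).Adj u v) ∧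
              ∀ v, v ∈ (A i).verts → v ∉ (B i).verts → ¬ (v ∈ (A j).verts ∧ v ∉ (B j).verts)} f)) →
      ∃ c₁ c₂ : ℝ, 0 < c₁ ∧ 0 < c₂ ∧ ∃ N : ℕ, ∀ n : ℕ, N ≤ n →
        (∃ G : SimpleGraph (Fin n),
            (∀ S : Finset (Fin n), S.Nonempty → ∃ v ∈ S, {w : Fin n | w ∈ S ∧ G.Adj v w}.ncard ≤ k) ∧
            c₁ * (n : ℝ) ^ f ≤
              (({φ : V ↪ Fin n | ∀ u v, H.Adj u v → G.Adj (φ u) (φ v)}.ncard : ℕ) : ℝ)) ∧
        ∀ G : SimpleGraph (Fin n),
            (∀ S : Finset (Fin n), S.Nonempty → ∃ v ∈ S, {w : Fin n | w ∈ S ∧ G.Adj v w}.ncard ≤ k) →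
            (({φ : V ↪ Fin n | ∀ u v, H.Adj u v → G.Adj (φ u) (φ v)}.ncard : ℕ) : ℝ) ≤ c₂ * (n : ℝ) ^ f) := by
  intro h
  have hsep : ∃ A B : H8.Subgraph, A ⊔ B = ⊤ ∧ (∀ u v, A.Adj u v → ¬ B.Adj u v) ∧
            (∃ v, v ∈ A.verts ∧ v ∉ B.verts) ∧ (∃ v, v ∈ B.verts ∧ v ∉ A.verts) ∧
            (A.verts ∩ B.verts).ncard ≤ 2 := ⟨SA 0, SB 0, sep 0⟩
  -- the set of sizes of independent families
  let M : Set ℕ := {m : ℕ | ∃ A B : Fin m → H8.Subgraph,
            (∀ i, A i ⊔ B i = ⊤ ∧ (∀ u v, (A i).Adj u v → ¬ (B i).Adj u v) ∧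
              (∃ v, v ∈ (A i).verts ∧ v ∉ (B i).verts) ∧
              (∃ v, v ∈ (B i).verts ∧ v ∉ (A i).verts) ∧
              ((A i).verts ∩ (B i).verts).ncard ≤ 2) ∧
            ∀ i j, i ≠ j →
              (∀ u v, (A i).Adj u v → ¬ (A j).Adj u v) ∧
              ∀ v, v ∈ (A i).verts → v ∉ (B i).verts → ¬ (v ∈ (A j).verts ∧ v ∉ (B j).verts)}
  have hM2 : 2 ∈ M := ⟨SA, SB, sep, indep⟩
  have hMb : BddAbove M := by
    refine ⟨8, ?_⟩
    rintro m ⟨A, B, h1, h2⟩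
    choose x hx using fun i => (h1 i).2.2.1
    have hinj : Function.Injective x := by
      intro i j hij
      by_contra hne
      exact (h2 i j hne).2 (x i) (hx i).1 (hx i).2 (by rw [hij]; exact hx j)
    have := Fintype.card_le_of_injective x hinj
    simpa using this
  have hf : IsGreatest M (sSup M) := ⟨Nat.sSup_mem ⟨2, hM2⟩ hMb, fun m hm => le_csSup hMb hm⟩
  have hf2 : 2 ≤ sSup M := hf.2 hM2
  obtain ⟨c₁, c₂, hc₁, -, N, hN⟩ := h 2 (Fin 8) H8 H8_deg (sSup M) (Or.inr ⟨hsep, hf⟩)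
  obtain ⟨K, hK⟩ := exists_nat_gt ((16 : ℝ) ^ 8 / c₁)
  let n := max N (K + 1)
  obtain ⟨⟨G, hG, hlow⟩, -⟩ := hN n (le_max_left _ _)
  have hup : (({φ : Fin 8 ↪ Fin n | ∀ u v, H8.Adj u v → G.Adj (φ u) (φ v)}.ncard : ℕ) : ℝ) ≤
      16 ^ 8 * (n : ℝ) := by
    exact_mod_cast count_le G hG
  have hn1 : (1 : ℝ) ≤ (n : ℝ) := by
    have : 1 ≤ n := le_trans (by omega) (le_max_right N (K + 1))
    exact_mod_cast this
  have hnK : (K : ℝ) < (n : ℝ) := by
    have : K < n := lt_of_lt_of_le (by omega) (le_max_right N (K + 1))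
    exact_mod_cast this
  have hpow : (n : ℝ) ^ 2 ≤ (n : ℝ) ^ (sSup M) := pow_le_pow_right₀ hn1 hf2
  have h1 : c₁ * (n : ℝ) ^ 2 ≤ 16 ^ 8 * (n : ℝ) :=
    le_trans (mul_le_mul_of_nonneg_left hpow hc₁.le) (le_trans hlow hup)
  have h2 : c₁ * (n : ℝ) ≤ 16 ^ 8 := by
    have hpos : (0 : ℝ) < n := by linarith
    have : (c₁ * (n : ℝ)) * n ≤ 16 ^ 8 * n := by nlinarith
    exact le_of_mul_le_mul_right this hpos
  have h3 : (16 : ℝ) ^ 8 < c₁ * K := by
    have := (div_lt_iff₀ hc₁).1 hK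
    linarith
  have h4 : c₁ * K < c₁ * n := mul_lt_mul_of_pos_left hnK hc₁
  linarith

end Pool.Agent.S09798
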