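import Pool.Statements.S09806
import Pool.Agent.UBC.Final
import Pool.Agent.UBC.AlgFinal
import Pool.Agent.UBC.DC2
import Pool.Agent.UBC.Count
import Pool.Agent.UBC.TopFinal

set_option autoImplicit false
open Pool Pool.MP_8294f4_co

namespace Pool.Agent.S09806

/-- The negation of the preceding statement: There is a finite simplicial complex whose realization is a topological manifold (boundary allowed) with some h-vector entry h_i > C(n−d+i−1, i), where n is the vertex count and d is dimension plus one. -/
theorem result :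
    ¬ (∃ (N : ℕ) (K : Geometry.SimplicialComplex ℝ (EuclideanSpace ℝ (Fin N))),
      K.faces.Finite ∧
      (∃ m : ℕ, Nonempty (ChartedSpace (EuclideanSpace ℝ (Fin m)) K.space) ∨
        Nonempty (ChartedSpace (EuclideanHalfSpace (m + 1)) K.space)) ∧
      ∃ d : ℕ, (∃ σ ∈ K.faces, σ.card = d) ∧ (∀ σ ∈ K.faces, σ.card ≤ d) ∧
        ∃ i : ℕ, i ≤ d ∧
          ((Nat.choose (K.vertices.ncard - d + i - 1) i : ℕ) : ℤ) <
            ∑ j ∈ Finset.range (i + 1),
              (-1 : ℤ) ^ (i - j) * ((Nat.choose (d - j) (i - j) : ℕ) : ℤ) *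
                (if j = 0 then (1 : ℤ) else
                  ((({σ | σ ∈ K.faces ∧ σ.card = j} :
                      Set (Finset (EuclideanSpace ℝ (Fin N)))).ncard : ℕ) : ℤ))) := by
  exact Pool.Agent.UBC.final
    (Pool.Agent.UBC.targetA_of_dc2
      (fun k _ _ => Pool.Agent.UBC.targetDC2_of_count k Pool.Agent.UBC.hnum_eq_alt))
    Pool.Agent.UBC.targetT

end Pool.Agent.S09806
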