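import Pool.Statements.S10021
import Pool.Agent.SDL.P3_F
import Pool.Agent.SDL.P3_H
import Pool.Agent.SDL.P3_P
import Pool.Agent.SDL.P3_E
import Pool.Agent.DVX.D13
import Pool.Agent.DVX.D14

set_option autoImplicit false
open MeasureTheory
open Pool Pool.MP_8c4407_co

namespace Pool.Agent.S10021

/-- For any unit-ball packing in 3-space, any centre c and any λ ≥ 0, the fraction of c's Voronoi cell within distance 1+λ of c is at most the same fraction for the regular dodecahedron of inradius 1. -/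
theorem result :
    ∀ (X : Set (EuclideanSpace ℝ (Fin 3))),
      (∀ x ∈ X, ∀ y ∈ X, x ≠ y → (2 : ℝ) ≤ dist x y) →
      ∀ c ∈ X, ∀ r : ℝ, 0 ≤ r →
        volume ({x : EuclideanSpace ℝ (Fin 3) | ∀ y ∈ X, dist x c ≤ dist x y}
            ∩ Metric.closedBall c (1 + r))
          / volume {x : EuclideanSpace ℝ (Fin 3) | ∀ y ∈ X, dist x c ≤ dist x y}
        ≤ volume ({x : EuclideanSpace ℝ (Fin 3) |
              |x 1| + Real.goldenRatio * |x 2| ≤ Real.sqrt (1 + Real.goldenRatio ^ 2) ∧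
              |x 0| + Real.goldenRatio * |x 1| ≤ Real.sqrt (1 + Real.goldenRatio ^ 2) ∧
              Real.goldenRatio * |x 0| + |x 2| ≤ Real.sqrt (1 + Real.goldenRatio ^ 2)}
            ∩ Metric.closedBall (0 : EuclideanSpace ℝ (Fin 3)) (1 + r))
          / volume {x : EuclideanSpace ℝ (Fin 3) |
              |x 1| + Real.goldenRatio * |x 2| ≤ Real.sqrt (1 + Real.goldenRatio ^ 2) ∧
              |x 0| + Real.goldenRatio * |x 1| ≤ Real.sqrt (1 + Real.goldenRatio ^ 2) ∧
              Real.goldenRatio * |x 0| + |x 2| ≤ Real.sqrt (1 + Real.goldenRatio ^ 2)} :=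
  fun X hX c hc r hr => Pool.Agent.SDL.p_FIN Pool.Agent.SDL.p_F Pool.Agent.SDL.p_H
    Pool.Agent.SDL.p_P Pool.Agent.SDL.p_E13 Pool.Agent.SDL.p_E14 Pool.Agent.DVX.p_D13
    Pool.Agent.DVX.p_D14 X hX c hc r hr

end Pool.Agent.S10021
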