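import Pool.Statements.S10292

set_option autoImplicit false
open Classical
open Pool Pool.MP_97ae25_co

namespace Pool.Agent.S10292

/-- Vertices: `Sum.inl (i, b)` are the `2N` low vertices, `Sum.inr (j, c)` the `2D` hubs. -/
abbrev Vx (N D : ℕ) : Type := (Fin N × Bool) ⊕ (Fin D × Bool)

/-- Adjacency of the counterexample. -/
def adj (N D : ℕ) : Vx N D → Vx N D → Prop
  | Sum.inl (i, b), Sum.inl (j, c) => i = j ∧ b ≠ c
  | Sum.inl (_, b), Sum.inr (_, c) => b = c
  | Sum.inr (_, b), Sum.inl (_, c) => b = c
  | Sum.inr (_, b), Sum.inr (_, c) => b ≠ c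

/-- The counterexample graph. -/
def gr (N D : ℕ) : SimpleGraph (Vx N D) where
  Adj := adj N D
  symm := ⟨by
    rintro (⟨i, b⟩ | ⟨i, b⟩) (⟨j, c⟩ | ⟨j, c⟩) h
    · exact ⟨h.1.symm, h.2.symm⟩
    · exact Eq.symm h
    · exact Eq.symm h
    · exact Ne.symm h⟩
  loopless := ⟨by
    rintro (⟨i, b⟩ | ⟨i, b⟩) h
    · exact h.2 rfl
    · exact h rfl⟩

/-- The two-colouring. -/
def col (N D : ℕ) : Vx N D → Bool
  | Sum.inl (_, b) => b
  | Sum.inr (_, c) => !c

theorem cliqueFree (N D : ℕ) : (gr N D).CliqueFree 3 := by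
  have hc : (gr N D).Colorable 2 := by
    have C : (gr N D).Coloring Bool := SimpleGraph.Coloring.mk (col N D) (by
      rintro (⟨i, b⟩ | ⟨i, b⟩) (⟨j, c⟩ | ⟨j, c⟩) h
      · exact h.2
      · change b = c at h
        subst h
        simp [col]
      · change b = c at h
        subst h
        simp [col]
      · change b ≠ c at h
        simpa [col] using h)
    simpa using C.colorable
  exact hc.cliqueFree (by norm_num)

theorem minDeg (N D : ℕ) (hD : 0 < D) [DecidableRel (gr N D).Adj] : D ≤ (gr N D).minDegree := by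
  have : Nonempty (Vx N D) := ⟨Sum.inr (⟨0, hD⟩, true)⟩
  apply SimpleGraph.le_minDegree_of_forall_le_degree
  rintro (⟨i, b⟩ | ⟨i, b⟩)
  · have : (Finset.univ.image (fun j : Fin D => (Sum.inr (j, b) : Vx N D))) ⊆
        (gr N D).neighborFinset (Sum.inl (i, b)) := by
      intro x hx
      simp only [Finset.mem_image, Finset.mem_univ, true_and] at hx
      obtain ⟨j, rfl⟩ := hx
      rw [SimpleGraph.mem_neighborFinset]
      exact (rfl : b = b)
    have h2 := Finset.card_le_card this
    rw [Finset.card_image_of_injective _ (by intro x y h; simpa using h)] at h2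
    simpa using h2
  · have : (Finset.univ.image (fun j : Fin D => (Sum.inr (j, !b) : Vx N D))) ⊆
        (gr N D).neighborFinset (Sum.inr (i, b)) := by
      intro x hx
      simp only [Finset.mem_image, Finset.mem_univ, true_and] at hx
      obtain ⟨j, rfl⟩ := hx
      rw [SimpleGraph.mem_neighborFinset]
      change b ≠ !b
      cases b <;> simp
    have h2 := Finset.card_le_card this
    rw [Finset.card_image_of_injective _ (by intro x y h; simpa using h)] at h2
    simpa using h2

/-- The maximal independent sets containing a hub. -/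
def M (N D : ℕ) (c : Bool) : Finset (Vx N D) :=
  (Finset.univ.image (fun i : Fin N => (Sum.inl (i, !c) : Vx N D))) ∪
    (Finset.univ.image (fun j : Fin D => (Sum.inr (j, c) : Vx N D)))

theorem card_M (N D : ℕ) (c : Bool) : (M N D c).card ≤ N + D := by
  refine (Finset.card_union_le _ _).trans ?_
  refine add_le_add ?_ ?_
  · exact Finset.card_image_le.trans (by simp)
  · exact Finset.card_image_le.trans (by simp)

/-- The hub-free independent set coded by a function. -/
def Phi (N D : ℕ) (f : Fin N → Option Bool) : Finset (Vx N D) :=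
  Finset.univ.filter (fun v => ∃ i b, v = Sum.inl (i, b) ∧ f i = some b)

theorem mem_Phi_inl {N D : ℕ} {f : Fin N → Option Bool} {i : Fin N} {b : Bool} :
    (Sum.inl (i, b) : Vx N D) ∈ Phi N D f ↔ f i = some b := by
  constructor
  · intro h
    simp only [Phi, Finset.mem_filter, Finset.mem_univ, true_and] at h
    obtain ⟨i', b', h1, h2⟩ := h
    simp only [Sum.inl.injEq, Prod.mk.injEq] at h1
    obtain ⟨rfl, rfl⟩ := h1
    exact h2
  · intro h
    simp only [Phi, Finset.mem_filter, Finset.mem_univ, true_and]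
    exact ⟨i, b, rfl, h⟩

theorem not_mem_Phi_inr {N D : ℕ} {f : Fin N → Option Bool} {j : Fin D × Bool} :
    (Sum.inr j : Vx N D) ∉ Phi N D f := by
  intro h
  simp only [Phi, Finset.mem_filter, Finset.mem_univ, true_and] at h
  obtain ⟨i', b', h1, h2⟩ := h
  simp at h1

theorem Phi_injective (N D : ℕ) : Function.Injective (Phi N D) := by
  intro f g h
  funext i
  cases hf : f i with
  | none =>
    cases hg : g i with
    | none => rfl
    | some b =>
      have : (Sum.inl (i, b) : Vx N D) ∈ Phi N D g := mem_Phi_inl.2 hg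
      rw [← h, mem_Phi_inl, hf] at this
      exact absurd this (by simp)
  | some b =>
    have : (Sum.inl (i, b) : Vx N D) ∈ Phi N D f := mem_Phi_inl.2 hf
    rw [h, mem_Phi_inl] at this
    exact this.symm

theorem card_Phi (N D : ℕ) (f : Fin N → Option Bool) :
    (Phi N D f).card = (Finset.univ.filter (fun i : Fin N => f i ≠ none)).card := by
  have h : Phi N D f = (Finset.univ.filter (fun i : Fin N => f i ≠ none)).image
      (fun i => (Sum.inl (i, (f i).getD true) : Vx N D)) := by
    ext v
    rcases v with ⟨i, b⟩ | ⟨i, b⟩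
    · rw [mem_Phi_inl]
      simp only [Finset.mem_image, Finset.mem_filter, Finset.mem_univ, true_and, Sum.inl.injEq,
        Prod.mk.injEq]
      constructor
      · intro h
        exact ⟨i, by simp [h], rfl, by simp [h]⟩
      · rintro ⟨i', h1, rfl, h2⟩
        cases hf : f i' with
        | none => exact absurd hf h1
        | some c => rw [hf] at h2; simp at h2; rw [h2]
    · constructor
      · intro h
        exact absurd h not_mem_Phi_inr
      · intro h
        simp at h
  rw [h, Finset.card_image_of_injective]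
  intro i j h
  simp only [Sum.inl.injEq, Prod.mk.injEq] at h
  exact h.1

theorem card_Phi_le (N D : ℕ) (f : Fin N → Option Bool) : (Phi N D f).card ≤ N := by
  rw [card_Phi]
  exact (Finset.card_filter_le _ _).trans (by simp)

theorem card_none (N : ℕ) (i : Fin N) :
    3 * (Finset.univ.filter (fun f : Fin N → Option Bool => f i = none)).card = 3 ^ N := by
  have h : (Finset.univ.filter (fun f : Fin N → Option Bool => f i = none)) =
      Fintype.piFinset (fun j => if j = i then {none} else Finset.univ) := by
    ext f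
    simp only [Finset.mem_filter, Finset.mem_univ, true_and, Fintype.mem_piFinset]
    constructor
    · intro h j
      by_cases hj : j = i
      · subst hj; simp [h]
      · simp [hj]
    · intro h
      have := h i
      simpa using this
  rw [h, Fintype.card_piFinset]
  have h2 : ∀ j : Fin N, (if j = i then ({none} : Finset (Option Bool)) else Finset.univ).card =
      if j = i then 1 else 3 := by
    intro j
    split_ifs <;> simp
  simp only [h2]
  rw [← Finset.mul_prod_erase Finset.univ (fun j : Fin N => if j = i then 1 else 3)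
    (Finset.mem_univ i)]
  have h3 : ∏ j ∈ Finset.univ.erase i, (if j = i then 1 else 3) =
      ∏ j ∈ (Finset.univ : Finset (Fin N)).erase i, 3 := by
    apply Finset.prod_congr rfl
    intro j hj
    rw [if_neg (Finset.ne_of_mem_erase hj)]
  rw [h3, Finset.prod_const, Finset.card_erase_of_mem (Finset.mem_univ i)]
  have hN : 0 < N := i.pos
  simp only [if_true, Finset.card_univ, Fintype.card_fin, one_mul]
  rw [← pow_succ']
  congr 1
  omega

theorem sum_card_Phi (N D : ℕ) :
    3 * (∑ f : Fin N → Option Bool, (Phi N D f).card) = 2 * N * 3 ^ N := by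
  have h1 : ∀ f : Fin N → Option Bool, (Phi N D f).card =
      ∑ i : Fin N, (if f i ≠ none then 1 else 0) := by
    intro f
    rw [card_Phi, Finset.card_filter]
  simp only [h1]
  rw [Finset.sum_comm]
  have h2 : ∀ i : Fin N, 3 * (∑ f : Fin N → Option Bool, (if f i ≠ none then 1 else 0)) =
      2 * 3 ^ N := by
    intro i
    rw [← Finset.card_filter]
    have h3 := card_none N i
    have h4 := Finset.card_filter_add_card_filter_not (s := (Finset.univ : Finset (Fin N → Option Bool)))
      (fun f : Fin N → Option Bool => f i = none)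
    have h5 : (Finset.univ : Finset (Fin N → Option Bool)).card = 3 ^ N := by simp
    rw [h5] at h4
    simp only [ne_eq]
    omega
  rw [Finset.mul_sum]
  simp only [h2]
  simp
  ring

theorem indep_Phi (N D : ℕ) (f : Fin N → Option Bool) :
    (gr N D).IsIndepSet (↑(Phi N D f) : Set (Vx N D)) := by
  rintro (⟨i, b⟩ | ⟨i, b⟩) hx (⟨j, c⟩ | ⟨j, c⟩) hy hne hadj
  · have h1 := mem_Phi_inl.1 (Finset.mem_coe.1 hx)
    have h2 := mem_Phi_inl.1 (Finset.mem_coe.1 hy)
    obtain ⟨rfl, h⟩ := hadj
    rw [h1] at h2
    exact h (by simpa using h2)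
  · exact not_mem_Phi_inr (Finset.mem_coe.1 hy)
  · exact not_mem_Phi_inr (Finset.mem_coe.1 hx)
  · exact not_mem_Phi_inr (Finset.mem_coe.1 hx)

theorem indep_cases (N D : ℕ) (s : Finset (Vx N D)) (hs : (gr N D).IsIndepSet (↑s : Set (Vx N D))) :
    s ⊆ M N D true ∨ s ⊆ M N D false ∨ ∃ f, s = Phi N D f := by
  by_cases h : ∃ j c, (Sum.inr (j, c) : Vx N D) ∈ s
  · obtain ⟨j, c, hj⟩ := h
    have key : s ⊆ M N D c := by
      intro v hv
      rcases v with ⟨i, b⟩ | ⟨i, b⟩
      · have hne : (Sum.inl (i, b) : Vx N D) ≠ Sum.inr (j, c) := by simp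
        have := hs (Finset.mem_coe.2 hv) (Finset.mem_coe.2 hj) hne
        have hbc : ¬ (b = c) := this
        have : b = !c := by revert hbc; cases b <;> cases c <;> simp
        subst this
        exact Finset.mem_union_left _ (Finset.mem_image.2 ⟨i, Finset.mem_univ _, rfl⟩)
      · by_cases hbc : b = c
        · subst hbc
          exact Finset.mem_union_right _ (Finset.mem_image.2 ⟨i, Finset.mem_univ _, rfl⟩)
        · exfalso
          have hne : (Sum.inr (i, b) : Vx N D) ≠ Sum.inr (j, c) := by
            intro h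
            simp only [Sum.inr.injEq, Prod.mk.injEq] at h
            exact hbc h.2
          exact hs (Finset.mem_coe.2 hv) (Finset.mem_coe.2 hj) hne hbc
    cases c
    · exact Or.inr (Or.inl key)
    · exact Or.inl key
  · right; right
    push Not at h
    refine ⟨fun i => if (Sum.inl (i, true) : Vx N D) ∈ s then some true
      else if (Sum.inl (i, false) : Vx N D) ∈ s then some false else none, ?_⟩
    ext v
    rcases v with ⟨i, b⟩ | ⟨i, b⟩
    · rw [mem_Phi_inl]
      by_cases h1 : (Sum.inl (i, true) : Vx N D) ∈ s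
      · cases b
        · simp only [h1, if_true, Option.some.injEq]
          constructor
          · intro h2
            exfalso
            exact hs (Finset.mem_coe.2 h1) (Finset.mem_coe.2 h2) (by simp) ⟨rfl, by simp⟩
          · intro h2; simp at h2
        · simp [h1]
      · cases b
        · simp [h1]
        · simp [h1]
    · constructor
      · intro h2
        exact absurd h2 (h i b)
      · intro h2
        exact absurd h2 not_mem_Phi_inr

theorem indepNum_le (N D : ℕ) : (gr N D).indepNum ≤ N + D := by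
  obtain ⟨s, hs⟩ := (gr N D).exists_isNIndepSet_indepNum
  rw [← hs.card_eq]
  rcases indep_cases N D s hs.isIndepSet with h | h | ⟨f, rfl⟩
  · exact (Finset.card_le_card h).trans (card_M N D true)
  · exact (Finset.card_le_card h).trans (card_M N D false)
  · exact (card_Phi_le N D f).trans (by omega)

theorem count_le (N D : ℕ) :
    (Finset.filter (fun s : Finset (Vx N D) => (gr N D).IsIndepSet (↑s : Set (Vx N D)))
      (Finset.univ : Finset (Finset (Vx N D)))).card ≤ 3 ^ N + 2 * 2 ^ (N + D) := by
  have h : Finset.filter (fun s : Finset (Vx N D) => (gr N D).IsIndepSet (↑s : Set (Vx N D)))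
      (Finset.univ : Finset (Finset (Vx N D))) ⊆
      (Finset.univ.image (Phi N D)) ∪ ((M N D true).powerset ∪ (M N D false).powerset) := by
    intro s hs
    have hs' := (Finset.mem_filter.1 hs).2
    rcases indep_cases N D s hs' with h | h | ⟨f, rfl⟩
    · exact Finset.mem_union_right _ (Finset.mem_union_left _ (Finset.mem_powerset.2 h))
    · exact Finset.mem_union_right _ (Finset.mem_union_right _ (Finset.mem_powerset.2 h))
    · exact Finset.mem_union_left _ (Finset.mem_image_of_mem _ (Finset.mem_univ _))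
  refine (Finset.card_le_card h).trans ?_
  refine (Finset.card_union_le _ _).trans ?_
  refine add_le_add ?_ ?_
  · refine Finset.card_image_le.trans ?_
    simp
  · refine (Finset.card_union_le _ _).trans ?_
    rw [Finset.card_powerset, Finset.card_powerset]
    have h1 := Nat.pow_le_pow_right (show 0 < 2 by norm_num) (card_M N D true)
    have h2 := Nat.pow_le_pow_right (show 0 < 2 by norm_num) (card_M N D false)
    omega

theorem sum_ge (N D : ℕ) :
    2 * N * 3 ^ N ≤ 3 * ∑ s ∈ (Finset.filter (fun s : Finset (Vx N D) =>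
      (gr N D).IsIndepSet (↑s : Set (Vx N D))) (Finset.univ : Finset (Finset (Vx N D)))), s.card := by
  rw [← sum_card_Phi N D]
  refine Nat.mul_le_mul_left _ ?_
  rw [← Finset.sum_image (s := Finset.univ) (g := Phi N D) (f := fun s => s.card)
    (fun x _ y _ h => Phi_injective N D h)]
  apply Finset.sum_le_sum_of_subset
  intro s hs
  obtain ⟨f, -, rfl⟩ := Finset.mem_image.1 hs
  exact Finset.mem_filter.2 ⟨Finset.mem_univ _, indep_Phi N D f⟩

theorem arith (D : ℕ) (hD : 0 < D) : 26 * 2 ^ (13 * D) < 3 ^ (12 * D) := by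
  obtain ⟨k, rfl⟩ : ∃ k, D = k + 1 := ⟨D - 1, by omega⟩
  clear hD
  induction k with
  | zero => norm_num
  | succ n ih =>
    have h1 : 13 * (n + 1 + 1) = 13 * (n + 1) + 13 := by ring
    have h2 : 12 * (n + 1 + 1) = 12 * (n + 1) + 12 := by ring
    rw [h1, h2, pow_add, pow_add]
    have h3 : (2 : ℕ) ^ 13 ≤ 3 ^ 12 := by norm_num
    calc 26 * (2 ^ (13 * (n + 1)) * 2 ^ 13) = (26 * 2 ^ (13 * (n + 1))) * 2 ^ 13 := by ring
      _ < 3 ^ (12 * (n + 1)) * 2 ^ 13 := by
          exact Nat.mul_lt_mul_of_pos_right ih (by norm_num)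
      _ ≤ 3 ^ (12 * (n + 1)) * 3 ^ 12 := Nat.mul_le_mul_left _ h3

/-- The negation of the preceding statement: For every ε>0 there is D such that every finite triangle-free graph with minimum degree at least D has independence number at least (2−ε) times the average size of a uniformly random independent set. -/
theorem result :
    ¬ (∀ ε : ℝ, 0 < ε → ∃ D : ℕ, ∀ (V : Type) [Fintype V] [DecidableEq V] (G : SimpleGraph V) [DecidableRel G.Adj],
    G.CliqueFree 3 → D ≤ G.minDegree →
    (2 - ε) * (∑ s ∈ Finset.filter (fun s : Finset V => G.IsIndepSet (↑s : Set V)) (Finset.univ : Finset (Finset V)),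
        ((Finset.card s : ℕ) : ℝ))
      ≤ (G.indepNum : ℝ) *
        ((Finset.card (Finset.filter (fun s : Finset V => G.IsIndepSet (↑s : Set V)) (Finset.univ : Finset (Finset V))) : ℕ) : ℝ)) := by
  intro H
  obtain ⟨D0, hD0⟩ := H (1 / 4) (by norm_num)
  set D : ℕ := D0 + 1 with hD
  have hDpos : 0 < D := by omega
  have h := hD0 (Vx (12 * D) D) (gr (12 * D) D) (cliqueFree _ _)
    (le_trans (by omega) (minDeg (12 * D) D hDpos))
  have h1 := count_le (12 * D) D
  have h2 := sum_ge (12 * D) D
  have h3 := indepNum_le (12 * D) D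
  have h4 := arith D hDpos
  set S : ℕ := ∑ s ∈ (Finset.filter (fun s : Finset (Vx (12 * D) D) =>
      (gr (12 * D) D).IsIndepSet (↑s : Set (Vx (12 * D) D)))
      (Finset.univ : Finset (Finset (Vx (12 * D) D)))), s.card with hS
  set C : ℕ := (Finset.filter (fun s : Finset (Vx (12 * D) D) =>
      (gr (12 * D) D).IsIndepSet (↑s : Set (Vx (12 * D) D)))
      (Finset.univ : Finset (Finset (Vx (12 * D) D)))).card with hC
  set A : ℕ := (gr (12 * D) D).indepNum with hA
  have h5 : (2 - 1 / 4 : ℝ) * (S : ℝ) ≤ (A : ℝ) * (C : ℝ) := by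
    have : ((S : ℕ) : ℝ) = ∑ s ∈ (Finset.filter (fun s : Finset (Vx (12 * D) D) =>
      (gr (12 * D) D).IsIndepSet (↑s : Set (Vx (12 * D) D)))
      (Finset.univ : Finset (Finset (Vx (12 * D) D)))), ((s.card : ℕ) : ℝ) := by
      rw [hS]; push_cast; rfl
    rw [this]
    exact h
  have h6 : 7 * S ≤ 4 * (A * C) := by
    have : (7 : ℝ) * (S : ℝ) ≤ 4 * ((A : ℝ) * (C : ℝ)) := by linarith
    exact_mod_cast this
  have e13 : 12 * D + D = 13 * D := by ring
  rw [e13] at h1 h3
  have h7 : A * C ≤ 13 * D * (3 ^ (12 * D) + 2 * 2 ^ (13 * D)) := Nat.mul_le_mul h3 h1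
  set P : ℕ := 3 ^ (12 * D) with hP
  set Q : ℕ := 2 ^ (13 * D) with hQ
  have h8 : 7 * (2 * (12 * D) * P) ≤ 12 * (13 * D * (P + 2 * Q)) := by
    calc 7 * (2 * (12 * D) * P) ≤ 7 * (3 * S) := Nat.mul_le_mul_left _ h2
      _ = 3 * (7 * S) := by ring
      _ ≤ 3 * (4 * (A * C)) := Nat.mul_le_mul_left _ h6
      _ = 12 * (A * C) := by ring
      _ ≤ 12 * (13 * D * (P + 2 * Q)) := Nat.mul_le_mul_left _ h7
  have h9 : 12 * D * (14 * P) ≤ 12 * D * (13 * (P + 2 * Q)) := by
    calc 12 * D * (14 * P) = 7 * (2 * (12 * D) * P) := by ring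
      _ ≤ _ := h8
      _ = 12 * D * (13 * (P + 2 * Q)) := by ring
  have h10 : 14 * P ≤ 13 * (P + 2 * Q) := Nat.le_of_mul_le_mul_left h9 (by omega)
  omega

end Pool.Agent.S10292
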