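import Pool.Statements.S10579
import Pool.Agent.P6ED.Main

set_option autoImplicit false
open Pool Pool.MP_a55661_co

namespace Pool.Agent.S10579

/-- For every finite graph with no induced 6-vertex path that has a set D whose closed neighbourhoods partition the vertices, the square graph (distance 1 or 2) contains no induced complement of an odd cycle of length at least 5. -/
theorem result :
    ∀ (V : Type) [Fintype V] (G : SimpleGraph V),
      IsEmpty (SimpleGraph.pathGraph 6 ↪g G) →
      (∃ D : Set V, ∀ v : V, ∃! d : V, d ∈ D ∧ (d = v ∨ G.Adj d v)) →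
      ∀ k : ℕ, 5 ≤ k → Odd k →
        IsEmpty ((SimpleGraph.cycleGraph k)ᶜ ↪g
          SimpleGraph.fromRel (fun u v : V => G.Adj u v ∨ ∃ w, G.Adj u w ∧ G.Adj w v)) := by
  intro V _ G hP hD k hk hodd
  exact ⟨fun φ => Pool.Agent.P6ED.main G hP hD k hk hodd φ⟩

end Pool.Agent.S10579
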