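import Pool.Statements.S10606

set_option autoImplicit false
open Finset
open Pool Pool.MP_a60f11_co

namespace Pool.Agent.S10606

/-- The 64 values of the label rule `W(a,b,c)`, index `16a+4b+c`. -/
def Wcode : ℕ := 0b1001111111110000000010110000000000011011100100001001111111111001

/-- Label rule: `W a b c` is read off from the binary expansion of `Wcode`
(most significant digit first). -/
def W (a b c : Fin 4) : Bool :=
  Nat.testBit Wcode (63 - (16 * a.val + 4 * b.val + c.val))

/-- Number of 4-tuples of labels with `W` true on the first three and false on the last three. -/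
theorem count_tuples :
    (Finset.univ.filter (fun y : Fin 4 × Fin 4 × Fin 4 × Fin 4 =>
      W y.1 y.2.1 y.2.2.1 = true ∧ ¬ W y.2.1 y.2.2.1 y.2.2.2 = true)).card = 97 := by
  decide +kernel

/-- The set system attached to a labelling of the points of `[n]`. -/
def H {n : ℕ} (x : Fin n → Fin 4) : Finset (Finset (Fin n)) :=
  Finset.univ.filter (fun S => ∃ a b c : Fin n, a < b ∧ b < c ∧ S = {a, b, c} ∧
    W (x a) (x b) (x c) = true)

theorem triple_eq {n : ℕ} {a b c a' b' c' : Fin n} (h1 : a < b) (h2 : b < c)
    (h1' : a' < b') (h2' : b' < c') (h : ({a, b, c} : Finset (Fin n)) = {a', b', c'}) :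
    a = a' ∧ b = b' ∧ c = c' := by
  have ha : a ∈ ({a', b', c'} : Finset (Fin n)) := by rw [← h]; simp
  have hb : b ∈ ({a', b', c'} : Finset (Fin n)) := by rw [← h]; simp
  have hc : c ∈ ({a', b', c'} : Finset (Fin n)) := by rw [← h]; simp
  have ha' : a' ∈ ({a, b, c} : Finset (Fin n)) := by rw [h]; simp
  have hb' : b' ∈ ({a, b, c} : Finset (Fin n)) := by rw [h]; simp
  have hc' : c' ∈ ({a, b, c} : Finset (Fin n)) := by rw [h]; simp
  simp only [Finset.mem_insert, Finset.mem_singleton] at ha hb hc ha' hb' hc'
  simp only [Fin.lt_def, Fin.ext_iff] at *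
  omega

theorem mem_H_iff {n : ℕ} (x : Fin n → Fin 4) {a b c : Fin n} (h1 : a < b) (h2 : b < c) :
    ({a, b, c} : Finset (Fin n)) ∈ H x ↔ W (x a) (x b) (x c) = true := by
  unfold H
  simp only [Finset.mem_filter, Finset.mem_univ, true_and]
  constructor
  · rintro ⟨a', b', c', h1', h2', hS, hW⟩
    obtain ⟨rfl, rfl, rfl⟩ := triple_eq h1 h2 h1' h2' hS
    exact hW
  · intro hW
    exact ⟨a, b, c, h1, h2, rfl, hW⟩

/-- Fibres of restriction to four distinct points all have the same size. -/
theorem fibre {n : ℕ} (g : Fin 4 → Fin n) (hg : Function.Injective g)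
    (y : Fin 4 → Fin 4) :
    (Finset.univ.filter (fun x : Fin n → Fin 4 => x ∘ g = y)).card =
      (Finset.univ.filter (fun x : Fin n → Fin 4 => x ∘ g = 0)).card := by
  symm
  let x0 : Fin n → Fin 4 := Function.extend g y 0
  have hx0 : x0 ∘ g = y := by
    funext i
    simp [x0, hg.extend_apply]
  refine Finset.card_bij (fun x _ => x + x0) ?_ ?_ ?_
  · intro x hx
    simp only [Finset.mem_filter, Finset.mem_univ, true_and] at hx ⊢
    funext i
    have h1 := congrFun hx i
    have h2 := congrFun hx0 i
    simp only [Function.comp_apply, Pi.zero_apply, Pi.add_apply] at h1 h2 ⊢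
    rw [h1, h2, zero_add]
  · intro x _ x' _ h
    exact add_right_cancel h
  · intro x hx
    simp only [Finset.mem_filter, Finset.mem_univ, true_and] at hx
    refine ⟨x - x0, ?_, by simp⟩
    simp only [Finset.mem_filter, Finset.mem_univ, true_and]
    funext i
    have h1 := congrFun hx i
    have h2 := congrFun hx0 i
    simp only [Function.comp_apply, Pi.zero_apply, Pi.sub_apply] at h1 h2 ⊢
    rw [h1, h2, sub_self]

theorem count_gen {n : ℕ} (g : Fin 4 → Fin n) (hg : Function.Injective g)
    (Q : (Fin 4 → Fin 4) → Prop) [DecidablePred Q] :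
    (Finset.univ.filter (fun x : Fin n → Fin 4 => Q (x ∘ g))).card * 256 =
      (Finset.univ.filter Q).card * 4 ^ n := by
  set N := (Finset.univ.filter (fun x : Fin n → Fin 4 => x ∘ g = 0)).card with hN
  have h1 : (Finset.univ.filter (fun x : Fin n → Fin 4 => Q (x ∘ g))).card =
      (Finset.univ.filter Q).card * N := by
    rw [Finset.card_eq_sum_card_fiberwise (f := fun x : Fin n → Fin 4 => x ∘ g)
      (t := Finset.univ.filter Q)]
    · rw [Finset.sum_const_nat (m := N)]
      intro y hy
      simp only [Finset.mem_filter, Finset.mem_univ, true_and] at hy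
      rw [Finset.filter_filter, hN, ← fibre g hg y]
      congr 1
      ext x
      simp only [Finset.mem_filter, Finset.mem_univ, true_and]
      constructor
      · rintro ⟨_, h⟩; exact h
      · intro h; exact ⟨by rw [h]; exact hy, h⟩
    · intro x hx
      simpa using hx
  have h2 : 4 ^ n = 256 * N := by
    have h3 : (Finset.univ : Finset (Fin n → Fin 4)).card =
        ∑ y ∈ (Finset.univ : Finset (Fin 4 → Fin 4)),
          (Finset.univ.filter (fun x : Fin n → Fin 4 => x ∘ g = y)).card :=
      Finset.card_eq_sum_card_fiberwise (fun _ _ => Finset.mem_coe.2 (Finset.mem_univ _))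
    rw [Finset.sum_congr rfl (fun y _ => fibre g hg y)] at h3
    simpa using h3
  rw [h1, h2]; ring

/-- The labels `y` are read off at four positions. -/
theorem count_pi :
    (Finset.univ.filter (fun y : Fin 4 → Fin 4 =>
      W (y 0) (y 1) (y 2) = true ∧ ¬ W (y 1) (y 2) (y 3) = true)).card = 97 := by
  rw [← count_tuples]
  refine Finset.card_bij (fun y _ => (y 0, y 1, y 2, y 3)) ?_ ?_ ?_
  · intro y hy
    simpa using hy
  · intro y _ y' _ h
    simp only [Prod.mk.injEq] at h
    funext i
    fin_cases i
    · exact h.1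
    · exact h.2.1
    · exact h.2.2.1
    · exact h.2.2.2
  · rintro ⟨a, b, c, d⟩ h
    exact ⟨![a, b, c, d], by simpa using h, rfl⟩

/-- The negation of the preceding statement: f(3)=3/8: for every n≥4 some law of events on 3-subsets of [n] gives each shift pair (A,B) Pr(E_A and not E_B) at least 3/8, and for every ε>0 some n forces a shift pair below 3/8+ε. -/
theorem result :
    ¬ ((∀ n : ℕ, 4 ≤ n →
      ∃ p : Finset (Finset (Fin n)) → ℝ,
        (∀ ω, 0 ≤ p ω) ∧ (∑ ω, p ω) = 1 ∧
        ∀ g : Fin 4 → Fin n, StrictMono g →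
          (3 / 8 : ℝ) ≤ ∑ ω ∈ Finset.univ.filter
            (fun ω : Finset (Finset (Fin n)) =>
              (Finset.univ.image (fun i : Fin 3 => g (Fin.castSucc i))) ∈ ω ∧
              (Finset.univ.image (fun i : Fin 3 => g (Fin.succ i))) ∉ ω), p ω) ∧
    (∀ ε : ℝ, 0 < ε →
      ∃ n : ℕ, 4 ≤ n ∧
        ∀ p : Finset (Finset (Fin n)) → ℝ,
          (∀ ω, 0 ≤ p ω) → (∑ ω, p ω) = 1 →
          ∃ g : Fin 4 → Fin n, StrictMono g ∧
            (∑ ω ∈ Finset.univ.filter
              (fun ω : Finset (Finset (Fin n)) =>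
                (Finset.univ.image (fun i : Fin 3 => g (Fin.castSucc i))) ∈ ω ∧
                (Finset.univ.image (fun i : Fin 3 => g (Fin.succ i))) ∉ ω), p ω)
              < 3 / 8 + ε)) := by
  rintro ⟨-, hB⟩
  obtain ⟨n, -, hn⟩ := hB (1 / 256) (by norm_num)
  -- the law of `H x` for a uniformly random labelling `x`
  let p : Finset (Finset (Fin n)) → ℝ := fun ω =>
    ((Finset.univ.filter (fun x : Fin n → Fin 4 => H x = ω)).card : ℝ) / 4 ^ n
  have hsum : ∀ P : Finset (Finset (Fin n)) → Prop, ∀ _ : DecidablePred P,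
      ∑ ω ∈ Finset.univ.filter P, p ω =
        ((Finset.univ.filter (fun x : Fin n → Fin 4 => P (H x))).card : ℝ) / 4 ^ n := by
    intro P _
    have h := Finset.card_eq_sum_card_fiberwise (f := fun x : Fin n → Fin 4 => H x)
      (s := Finset.univ.filter (fun x : Fin n → Fin 4 => P (H x)))
      (t := Finset.univ.filter P) (by intro x hx; simpa using hx)
    rw [h, Nat.cast_sum, Finset.sum_div]
    refine Finset.sum_congr rfl ?_
    intro ω hω
    simp only [Finset.mem_filter, Finset.mem_univ, true_and] at hω
    simp only [p]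
    congr 2
    rw [Finset.filter_filter]
    congr 1
    ext x
    simp only [Finset.mem_filter, Finset.mem_univ, true_and]
    constructor
    · intro h; exact ⟨by rw [h]; exact hω, h⟩
    · rintro ⟨_, h⟩; exact h
  have hp0 : ∀ ω, 0 ≤ p ω := fun ω => by positivity
  have hp1 : ∑ ω, p ω = 1 := by
    have h := hsum (fun _ => True) inferInstance
    simp only [Finset.filter_true] at h
    rw [h, Finset.card_univ, Fintype.card_fun, Fintype.card_fin, Fintype.card_fin]
    push_cast
    exact div_self (by positivity)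
  obtain ⟨g, hg, hlt⟩ := hn p hp0 hp1
  rw [hsum] at hlt
  have him1 : (Finset.univ.image (fun i : Fin 3 => g (Fin.castSucc i))) = {g 0, g 1, g 2} := by
    ext a
    simp only [Finset.mem_image, Finset.mem_univ, true_and, Finset.mem_insert,
      Finset.mem_singleton, Fin.exists_fin_succ, Fin.exists_fin_zero]
    simp [eq_comm]
  have him2 : (Finset.univ.image (fun i : Fin 3 => g (Fin.succ i))) = {g 1, g 2, g 3} := by
    ext a
    simp only [Finset.mem_image, Finset.mem_univ, true_and, Finset.mem_insert,
      Finset.mem_singleton, Fin.exists_fin_succ, Fin.exists_fin_zero]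
    simp [eq_comm]
  have h01 : g 0 < g 1 := hg (by decide)
  have h12 : g 1 < g 2 := hg (by decide)
  have h23 : g 2 < g 3 := hg (by decide)
  have hcount : (Finset.univ.filter (fun x : Fin n → Fin 4 =>
      (Finset.univ.image (fun i : Fin 3 => g (Fin.castSucc i))) ∈ H x ∧
      (Finset.univ.image (fun i : Fin 3 => g (Fin.succ i))) ∉ H x)).card * 256 = 97 * 4 ^ n := by
    rw [← count_pi, ← count_gen g hg.injective]
    congr 2
    ext x
    simp only [Finset.mem_filter, Finset.mem_univ, true_and]
    rw [him1, him2, mem_H_iff x h01 h12, mem_H_iff x h12 h23]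
    rfl
  have hcast : ((Finset.univ.filter (fun x : Fin n → Fin 4 =>
      (Finset.univ.image (fun i : Fin 3 => g (Fin.castSucc i))) ∈ H x ∧
      (Finset.univ.image (fun i : Fin 3 => g (Fin.succ i))) ∉ H x)).card : ℝ) * 256
        = 97 * 4 ^ n := by
    exact_mod_cast hcount
  have h4 : (0 : ℝ) < 4 ^ n := by positivity
  rw [div_lt_iff₀ h4] at hlt
  nlinarith

end Pool.Agent.S10606
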