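import Pool.Statements.S11139
import Pool.Agent.AsdimExp.Main

set_option autoImplicit false
open Pool Pool.MP_bdfe62_co

namespace Pool.Agent.S11139

open Pool.Agent.AsdimExp

open scoped Classical in
/-- class of `r`-shallow minors of members of `C` -/
def Shallow (C : ∀ n : ℕ, SimpleGraph (Fin n) → Prop) (r : ℕ) (k : ℕ)
    (H : SimpleGraph (Fin k)) : Prop :=
  ∃ (m : ℕ) (G : SimpleGraph (Fin m)), C m G ∧
    ∃ B : Fin k → Finset (Fin m), ∃ ctr : Fin k → Fin m,
        (∀ i j, i ≠ j → Disjoint (B i) (B j)) ∧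
        (∀ i, ctr i ∈ B i) ∧
        (∀ i, ∀ x ∈ B i, ∃ p : G.Walk (ctr i) x, p.length ≤ r ∧ ∀ y ∈ p.support, y ∈ B i) ∧
        (∀ i j, H.Adj i j → ∃ x ∈ B i, ∃ y ∈ B j, G.Adj x y)

theorem edist_restr {V : Type*} (G : SimpleGraph V) (B : Finset V) (r : ℕ) (a b : V)
    (p : G.Walk a b) (hp : p.length ≤ r) (hs : ∀ y ∈ p.support, y ∈ B) :
    (restr G B).edist a b ≤ (r : ℕ∞) := by
  have hedge : ∀ e ∈ p.edges, e ∈ (restr G B).edgeSet := by
    intro e he
    induction e using Sym2.ind with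
    | _ u v =>
      rw [SimpleGraph.mem_edgeSet]
      exact ⟨SimpleGraph.Walk.adj_of_mem_edges p he,
        hs u (SimpleGraph.Walk.fst_mem_support_of_mem_edges p he),
        hs v (SimpleGraph.Walk.snd_mem_support_of_mem_edges p he)⟩
  have h1 := (restr G B).edist_le (p.transfer (restr G B) hedge)
  rw [SimpleGraph.Walk.length_transfer] at h1
  exact h1.trans (by exact_mod_cast hp)

open scoped Classical in
theorem shallow_col (C : ∀ n : ℕ, SimpleGraph (Fin n) → Prop)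
    (hclosed : ∀ (m : ℕ) (G H : SimpleGraph (Fin m)), H ≤ G → C m G → C m H)
    (n : ℕ) (D : ℕ → ℕ) (hcol : ∀ m G, C m G → ∀ r, Col n (D r) r G) (r : ℕ)
    (k : ℕ) (H : SimpleGraph (Fin k)) (hH : Shallow C r k H) (t : ℕ) :
    Col n (D ((2 * r + 1) * t)) t H := by
  rcases Nat.eq_zero_or_pos k with hk | hk
  · subst hk
    exact ⟨fun _ => 0, fun u => u.elim0⟩
  have : Nonempty (Fin k) := ⟨⟨0, hk⟩⟩
  obtain ⟨m, G, hG, B, ctr, hdisj, hctr, hrad, hadj⟩ := hH
  let G' : SimpleGraph (Fin m) :=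
    { Adj := fun a b => G.Adj a b ∧ ((∃ i, a ∈ B i ∧ b ∈ B i) ∨
        (∃ i j, H.Adj i j ∧ a ∈ B i ∧ b ∈ B j))
      symm := ⟨by
        rintro a b ⟨h1, h2⟩
        refine ⟨h1.symm, ?_⟩
        rcases h2 with ⟨w, hw⟩ | ⟨u, v, huv, hh⟩
        · exact Or.inl ⟨w, hw.2, hw.1⟩
        · exact Or.inr ⟨v, u, huv.symm, hh.2, hh.1⟩⟩
      loopless := ⟨fun a h => G.loopless.irrefl a h.1⟩ }
  have hG' : G' ≤ G := fun _ _ h => h.1
  let π : Fin m → Fin k := fun a =>
    if h : ∃ i, a ∈ B i then h.choose else Classical.arbitrary _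
  have hπ : ∀ a i, a ∈ B i → π a = i := by
    intro a i hai
    have hex : ∃ i, a ∈ B i := ⟨i, hai⟩
    have h1 : π a = hex.choose := by
      simp only [π]
      rw [dif_pos hex]
    rw [h1]
    by_contra hne
    exact Finset.disjoint_left.mp (hdisj _ _ hne) hex.choose_spec hai
  have hin : ∀ i, restr G (B i) ≤ G' := fun i a b hab => ⟨hab.1, Or.inl ⟨i, hab.2⟩⟩
  have hed : ∀ i, ∀ x ∈ B i, G'.edist (ctr i) x ≤ (r : ℕ∞) := by
    intro i x hx
    obtain ⟨p, hp1, hp2⟩ := hrad i x hx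
    exact (SimpleGraph.edist_anti (hin i)).trans (edist_restr G (B i) r _ _ p hp1 hp2)
  apply col_transfer G' H ctr π (fun i => hπ _ _ (hctr i)) ?_ (2 * r + 1) ?_ n t _
    (hcol m G' (hclosed m G G' hG' hG) _)
  · rintro a b ⟨-, ⟨i, h1, h2⟩ | ⟨i, j, hij, h1, h2⟩⟩
    · left
      rw [hπ a i h1, hπ b i h2]
    · right
      rw [hπ a i h1, hπ b j h2]
      exact hij
  · intro i j hij
    obtain ⟨x, hx, y, hy, hxy⟩ := hadj i j hij
    have e1 := hed i x hx
    have e2 : G'.edist x y ≤ 1 := by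
      rw [SimpleGraph.edist_le_one_iff_adj_or_eq]
      left
      exact ⟨hxy, Or.inr ⟨i, j, hij, hx, hy⟩⟩
    have e3 : G'.edist y (ctr j) ≤ (r : ℕ∞) := by
      rw [SimpleGraph.edist_comm]
      exact hed j y hy
    calc G'.edist (ctr i) (ctr j) ≤ G'.edist (ctr i) x + G'.edist x (ctr j) :=
          SimpleGraph.edist_triangle
      _ ≤ G'.edist (ctr i) x + (G'.edist x y + G'.edist y (ctr j)) := by
          gcongr
          exact SimpleGraph.edist_triangle
      _ ≤ (r : ℕ∞) + (1 + (r : ℕ∞)) := by gcongr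
      _ = ((2 * r + 1 : ℕ) : ℕ∞) := by push_cast; ring

open scoped Classical in
theorem ncard_le_darts {k : ℕ} (H : SimpleGraph (Fin k)) :
    H.edgeSet.ncard ≤ (darts H Finset.univ).card := by
  have h1 : H.edgeSet ⊆ ((darts H Finset.univ).image (fun p => s(p.1, p.2)) : Finset _) := by
    intro e he
    induction e using Sym2.ind with
    | _ u v =>
      rw [SimpleGraph.mem_edgeSet] at he
      rw [Finset.coe_image, Set.mem_image]
      refine ⟨(u, v), ?_, rfl⟩
      rw [Finset.mem_coe, mem_darts]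
      exact ⟨Finset.mem_univ _, Finset.mem_univ _, he⟩
  refine (Set.ncard_le_ncard h1 (Finset.finite_toSet _)).trans ?_
  rw [Set.ncard_coe_finset]
  exact Finset.card_image_le

/-- Every subgraph-closed class of finite graphs with bounded asymptotic dimension has bounded expansion: for some g, every r-shallow minor H of a graph in the class has at most g(r) times as many edges as vertices. -/
theorem result :
  ∀ C : ∀ n : ℕ, SimpleGraph (Fin n) → Prop,
    (∀ (n m : ℕ) (H : SimpleGraph (Fin n)) (G : SimpleGraph (Fin m)) (φ : H →g G),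
        Function.Injective φ → C m G → C n H) →
    (∃ d : ℕ, ∃ f : ℕ → ℕ, ∀ (m : ℕ) (G : SimpleGraph (Fin m)), C m G → ∀ r : ℕ,
        ∃ c : Fin m → Fin (d + 1), ∀ u v : Fin m,
          Relation.ReflTransGen (fun a b => c a = c b ∧ G.edist a b ≤ (r : ℕ∞)) u v →
          G.edist u v ≤ (f r : ℕ∞)) →
    ∃ g : ℕ → ℕ, ∀ (m : ℕ) (G : SimpleGraph (Fin m)), C m G →
      ∀ (r k : ℕ) (H : SimpleGraph (Fin k)),
      (∃ B : Fin k → Finset (Fin m), ∃ ctr : Fin k → Fin m,
        (∀ i j, i ≠ j → Disjoint (B i) (B j)) ∧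
        (∀ i, ctr i ∈ B i) ∧
        (∀ i, ∀ x ∈ B i, ∃ p : G.Walk (ctr i) x, p.length ≤ r ∧ ∀ y ∈ p.support, y ∈ B i) ∧
        (∀ i j, H.Adj i j → ∃ x ∈ B i, ∃ y ∈ B j, G.Adj x y)) →
      H.edgeSet.ncard ≤ g r * k := by
  intro C hC hasdim
  obtain ⟨n, D, hcol⟩ := hasdim
  have hcol' : ∀ m G, C m G → ∀ r, Col n (D r) r G := fun m G hG r => hcol m G hG r
  have hclosed : ∀ (m : ℕ) (G H : SimpleGraph (Fin m)), H ≤ G → C m G → C m H :=
    fun m G H hle hG => hC m m H G (SimpleGraph.Hom.ofLE hle) (fun _ _ h => h) hG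
  have key : ∀ r : ℕ, ∃ K : ℕ, ∀ k H, Shallow C r k H →
      (darts H Finset.univ).card ≤ K * k := by
    intro r
    apply density_bound (Shallow C r) ?_ n (fun t => D ((2 * r + 1) * t)) ?_
    · rintro k H H' hle ⟨m, G, hG, B, ctr, h1, h2, h3, h4⟩
      exact ⟨m, G, hG, B, ctr, h1, h2, h3, fun i j hij => h4 i j (hle hij)⟩
    · intro k H hH t
      exact shallow_col C hclosed n D hcol' r k H hH t
  choose g hg using key
  refine ⟨g, ?_⟩
  intro m G hG r k H hmin
  exact (ncard_le_darts H).trans (hg r k H ⟨m, G, hG, hmin⟩)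

end Pool.Agent.S11139
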