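import Pool.Statements.S11215
import Pool.Agent.DiagCoinv.Final

set_option autoImplicit false
open Pool Pool.MP_c0e2a0_co

namespace Pool.Agent.S11215

/-- For all n,k≥1, every subgroup H of S_n and every multidegree a with ∣a∣≤n: the degree-a H-fixed dimension of coinvariants times invariants equals that of the polynomial ring, i.e. F_n^(k)·h_n[P_k] agrees with h_n[P_k z] up to q-degree n. -/
theorem result :
  ∀ n k : ℕ, 1 ≤ n → 1 ≤ k →
  ∀ (I : Ideal (MvPolynomial (Fin k × Fin n) ℂ)),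
    I = Ideal.span {p : MvPolynomial (Fin k × Fin n) ℂ |
      (∀ σ : Equiv.Perm (Fin n),
        MvPolynomial.rename (fun x : Fin k × Fin n => (x.1, σ x.2)) p = p) ∧
      MvPolynomial.coeff 0 p = 0} →
  ∀ (Fix : Subgroup (Equiv.Perm (Fin n)) → Submodule ℂ (MvPolynomial (Fin k × Fin n) ℂ)),
    (∀ H : Subgroup (Equiv.Perm (Fin n)), Fix H =
      ⨅ σ ∈ H, LinearMap.ker
        (AlgHom.toLinearMap (MvPolynomial.rename (R := ℂ)
            (fun x : Fin k × Fin n => (x.1, σ x.2)))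
          - LinearMap.id)) →
  ∀ (Deg : (Fin k → ℕ) → Submodule ℂ (MvPolynomial (Fin k × Fin n) ℂ)),
    (∀ m : Fin k → ℕ, Deg m = MvPolynomial.weightedHomogeneousSubmodule ℂ
      (fun x : Fin k × Fin n => (Pi.single x.1 (1 : ℕ) : Fin k → ℕ)) m) →
  ∀ (H : Subgroup (Equiv.Perm (Fin n))) (a : Fin k → ℕ), ∑ i, a i ≤ n →
    ∑ b : Fin k → Fin (n + 1),
      (if (∀ i, (b i : ℕ) ≤ a i) then
        (((Module.finrank ℂ ↥(Deg (fun i => (b i : ℕ)) ⊓ Fix H) : ℤ)
          - (Module.finrank ℂ ↥(Deg (fun i => (b i : ℕ)) ⊓ Fix H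
                ⊓ Submodule.restrictScalars ℂ I) : ℤ))
         * (Module.finrank ℂ ↥(Deg (a - fun i => (b i : ℕ)) ⊓ Fix ⊤) : ℤ))
      else 0)
    = (Module.finrank ℂ ↥(Deg a ⊓ Fix H) : ℤ) := by
  intro n k hn _ I hI Fix hFix Deg hDeg H a ha
  subst hI
  have h1 : Fix = fun H => Pool.Agent.DiagCoinv.Fx k H := funext hFix
  have h2 : Deg = fun m => Pool.Agent.DiagCoinv.Dg n m := funext hDeg
  subst h1
  subst h2
  exact Pool.Agent.DiagCoinv.final hn H a ha

end Pool.Agent.S11215
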