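import Pool.Statements.S11363
import Mathlib

set_option autoImplicit false
open Pool Pool.MP_c705d2_co

namespace Pool.Agent.S11363

/-- The core combinatorial step, for a Cayley graph in which adjacent vertices have a unique common
neighbour and nonadjacent ones exactly two.  The three guards stand at `a`, `b`, `c` and the attack
is at `0`; two vertices are joined in the complement `H` when their difference satisfies `S`. -/
theorem key {V : Type} [AddCommGroup V] (S : V → Prop)
    (hneg : ∀ a, S a → S (-a))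
    (hdbl : ∀ a, S a → S (-a - a))
    (hlam : ∀ a p, S a → S p → S (p - a) → p = -a)
    (hmu : ∀ a p q, S p → S q → S (p - a) → S (q - a) → a ≠ 0 → ¬ S a → p = q ∨ a = p + q)
    (a b c : V) (ha0 : a ≠ 0) (hb0 : b ≠ 0) (hc0 : c ≠ 0) (hab : a ≠ b) (hac : a ≠ c) (hbc : b ≠ c)
    (hF : ∀ w, ¬ (S (w - a) ∧ S (w - b) ∧ S (w - c))) :
    (¬ S a ∧ ∀ w, ¬ (S w ∧ S (w - b) ∧ S (w - c))) ∨
    (¬ S b ∧ ∀ w, ¬ (S w ∧ S (w - a) ∧ S (w - c))) ∨
    (¬ S c ∧ ∀ w, ¬ (S w ∧ S (w - a) ∧ S (w - b))) := by
  by_contra hcon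
  push Not at hcon
  obtain ⟨h1, h2, h3⟩ := hcon
  by_cases ha : S a <;> by_cases hb : S b <;> by_cases hc : S c
  · exact hF 0 ⟨by simpa using hneg a ha, by simpa using hneg b hb, by simpa using hneg c hc⟩
  · obtain ⟨r, hr, hra, hrb⟩ := h3 hc
    have e1 := hlam a r ha hr hra
    have e2 := hlam b r hb hr hrb
    exact hab (neg_injective (e1.symm.trans e2))
  · obtain ⟨r, hr, hra, hrb⟩ := h2 hb
    have e1 := hlam a r ha hr hra
    have e2 := hlam c r hc hr hrb
    exact hac (neg_injective (e1.symm.trans e2))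
  · obtain ⟨q, hq, hqa, hqc⟩ := h2 hb
    obtain ⟨r, hr, hra, hrb⟩ := h3 hc
    have e1 := hlam a q ha hq hqa
    have e2 := hlam a r ha hr hra
    subst e1
    subst e2
    exact hF (-a) ⟨hdbl a ha, hrb, hqc⟩
  · obtain ⟨r, hr, hra, hrb⟩ := h1 ha
    have e1 := hlam b r hb hr hra
    have e2 := hlam c r hc hr hrb
    exact hbc (neg_injective (e1.symm.trans e2))
  · obtain ⟨q, hq, hqa, hqc⟩ := h1 ha
    obtain ⟨r, hr, hra, hrb⟩ := h3 hc
    have e1 := hlam b q hb hq hqa
    have e2 := hlam b r hb hr hrb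
    subst e1
    subst e2
    exact hF (-b) ⟨hra, hdbl b hb, hqc⟩
  · obtain ⟨q, hq, hqa, hqc⟩ := h1 ha
    obtain ⟨r, hr, hra, hrb⟩ := h2 hb
    have e1 := hlam c q hc hq hqc
    have e2 := hlam c r hc hr hrb
    subst e1
    subst e2
    exact hF (-c) ⟨hra, hqa, hdbl c hc⟩
  · obtain ⟨r, hr, hrb, hrc⟩ := h1 ha
    obtain ⟨q, hq, hqa, hqc⟩ := h2 hb
    obtain ⟨p, hp, hpa, hpb⟩ := h3 hc
    rcases hmu a p q hp hq hpa hqa ha0 ha with h | h
    · subst h
      exact hF p ⟨hpa, hpb, hqc⟩
    rcases hmu b p r hp hr hpb hrb hb0 hb with h' | h'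
    · subst h'
      exact hF p ⟨hpa, hpb, hrc⟩
    rcases hmu c q r hq hr hqc hrc hc0 hc with h'' | h''
    · subst h''
      exact hF q ⟨hqa, hrb, hqc⟩
    refine hF (p + q + r) ⟨?_, ?_, ?_⟩
    · rw [h]
      have : p + q + r - (p + q) = r := by abel
      rw [this]; exact hr
    · rw [h']
      have : p + q + r - (p + r) = q := by abel
      rw [this]; exact hq
    · rw [h'']
      have : p + q + r - (q + r) = p := by abel
      rw [this]; exact hp

/-- The vector space of dimension five over the field with three elements. -/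
abbrev V : Type := ZMod 3 × ZMod 3 × ZMod 3 × ZMod 3 × ZMod 3

/-- The connection set: plus and minus the eleven columns of a parity check matrix of the
perfect ternary Golay code. -/
def L : List V :=
  [(1, 0, 0, 0, 0), (0, 1, 0, 0, 0), (0, 0, 1, 0, 0), (0, 0, 0, 1, 0), (0, 0, 0, 0, 1),
   (1, 0, 2, 1, 2), (2, 1, 1, 1, 2), (2, 2, 2, 0, 2), (2, 2, 0, 1, 1), (1, 2, 1, 1, 0),
   (0, 1, 2, 1, 1),
   (2, 0, 0, 0, 0), (0, 2, 0, 0, 0), (0, 0, 2, 0, 0), (0, 0, 0, 2, 0), (0, 0, 0, 0, 2),
   (2, 0, 1, 2, 1), (1, 2, 2, 2, 1), (1, 1, 1, 0, 1), (1, 1, 0, 2, 2), (2, 1, 2, 2, 0),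
   (0, 2, 1, 2, 2)]

theorem L_neg : ∀ s ∈ L, -s ∈ L := by decide +kernel

theorem L_dbl : ∀ s ∈ L, -s - s ∈ L := by decide +kernel

theorem L_zero : (0 : V) ∉ L := by decide +kernel

theorem L_common : ∀ v : V, ∃ s ∈ L, s - v ∈ L := by decide +kernel

theorem L_lam : ∀ a ∈ L, ∀ p ∈ L, p - a ∈ L → p = -a := by decide +kernel

theorem L_line : ∀ w ∈ L, w - (1, 0, 0, 0, 0) ∉ L ∨ w - (2, 0, 0, 0, 0) ∉ L := by
  decide +kernel

/-- Boolean form of the statement that nonadjacent vertices have at most two common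
neighbours. -/
def muB (M : List V) : Bool := M.all fun p => M.all fun q => M.all fun s =>
  !(decide (q - p + s ∈ M)) ||
    (decide (p = s) || (decide (p - s ∈ M) || (decide (p = q) || decide (q = -s))))

theorem muB_spec (M : List V) (h : muB M = true) :
    ∀ p ∈ M, ∀ q ∈ M, ∀ s ∈ M, q - p + s ∈ M → p = s ∨ p - s ∈ M ∨ p = q ∨ q = -s := by
  intro p hp q hq s hs h0
  have h2 := List.all_eq_true.mp h p hp
  have h3 := List.all_eq_true.mp h2 q hq
  have h4 := List.all_eq_true.mp h3 s hs
  rw [Bool.or_eq_true, Bool.or_eq_true, Bool.or_eq_true, Bool.or_eq_true] at h4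
  rcases h4 with h4 | h4 | h4 | h4 | h4
  · simp [h0] at h4
  · exact Or.inl (of_decide_eq_true h4)
  · exact Or.inr (Or.inl (of_decide_eq_true h4))
  · exact Or.inr (Or.inr (Or.inl (of_decide_eq_true h4)))
  · exact Or.inr (Or.inr (Or.inr (of_decide_eq_true h4)))

theorem muB_true : muB L = true := by decide +kernel

theorem L_mu (a p q : V) (hp : p ∈ L) (hq : q ∈ L) (hpa : p - a ∈ L) (hqa : q - a ∈ L)
    (ha0 : a ≠ 0) (ha : a ∉ L) : p = q ∨ a = p + q := by
  have h := muB_spec L muB_true p hp q hq (p - a) hpa (by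
    have : q - p + (p - a) = q - a := by abel
    rw [this]; exact hqa)
  rcases h with h | h | h | h
  · exact absurd (by
      have h5 : a = p - (p - a) := by abel
      rw [← h] at h5
      simpa using h5) ha0
  · exact absurd (by simpa using h) ha
  · exact Or.inl h
  · right
    rw [h]; abel

/-- The complement of the graph of the theorem: the graph of Berlekamp, van Lint and Seidel. -/
def H : SimpleGraph V where
  Adj x y := y - x ∈ L
  symm := ⟨by
    intro x y h
    have := L_neg _ h
    simpa using this⟩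
  loopless := ⟨by
    intro x h
    exact L_zero (by simpa using h)⟩

theorem H_adj (x y : V) : H.Adj x y ↔ y - x ∈ L := Iff.rfl

theorem sum_zero3 : ∀ a b c : ZMod 3, a ≠ b → b ≠ c → a ≠ c → a + b + c = 0 := by decide

theorem grid_aux : ∀ f00 f10 f01 f11 : ZMod 3, (f10 ≠ f00 ∧ f01 ≠ f00 ∧ f11 ≠ f10 ∧ f11 ≠ f01 ∧
    (-(f10 + f11)) ≠ (-(f00 + f01))) → f11 = f10 + f01 - f00 := by decide

theorem grid (f00 f10 f01 f11 : ZMod 3) (h1 : f10 ≠ f00) (h2 : f01 ≠ f00) (h3 : f11 ≠ f10)
    (h4 : f11 ≠ f01) (h5 : (-(f10 + f11)) ≠ (-(f00 + f01))) : f11 = f10 + f01 - f00 :=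
  grid_aux f00 f10 f01 f11 ⟨h1, h2, h3, h4, h5⟩

theorem L_two : ∀ s ∈ L, s + s ∈ L := by decide +kernel

/-- No linear functional on the space is nonzero on all eleven points: the ternary Golay code's
dual has no word of full weight. -/
theorem L_functional : ∀ a : V, ∃ s ∈ L,
    s.1 * a.1 + s.2.1 * a.2.1 + s.2.2.1 * a.2.2.1 + s.2.2.2.1 * a.2.2.2.1
      + s.2.2.2.2 * a.2.2.2.2 = 0 := by decide +kernel

theorem third (f : V → ZMod 3) (hf : ∀ x y, y - x ∈ L → f x ≠ f y) (x s : V) (hs : s ∈ L) :
    f (x + s + s) = -(f x + f (x + s)) := by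
  have h1 : f x ≠ f (x + s) := hf _ _ (by simpa using hs)
  have h2 : f (x + s) ≠ f (x + s + s) := hf _ _ (by simpa using hs)
  have h3 : f x ≠ f (x + s + s) := hf _ _ (by
    have : x + s + s - x = s + s := by abel
    rw [this]; exact L_two s hs)
  have := sum_zero3 _ _ _ h1 h2 h3
  exact eq_neg_of_add_eq_zero_right this

theorem mixed (f : V → ZMod 3) (hf : ∀ x y, y - x ∈ L → f x ≠ f y) (x s t : V)
    (hs : s ∈ L) (ht : t ∈ L) : f (x + s + t) = f (x + s) + f (x + t) - f x := by
  apply grid (f x) (f (x + s)) (f (x + t)) (f (x + s + t))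
  · exact (hf _ _ (by simpa using hs)).symm
  · exact (hf _ _ (by simpa using ht)).symm
  · exact (hf _ _ (by simpa using ht)).symm
  · exact (hf _ _ (by
      have : x + s + t - (x + t) = s := by abel
      rw [this]; exact hs)).symm
  · rw [← third f hf x t ht, ← third f hf (x + s) t ht]
    exact (hf _ _ (by
      have : x + s + t + t - (x + t + t) = s := by abel
      rw [this]; exact hs)).symm

theorem decomp (v : V) : ∃ s ∈ L, ∃ t ∈ L, v = s + t := by
  obtain ⟨s, hs, h⟩ := L_common v
  refine ⟨s, hs, -(s - v), L_neg _ h, by abel⟩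

theorem add_gen (f : V → ZMod 3) (hf : ∀ x y, y - x ∈ L → f x ≠ f y) (x s : V)
    (hs : s ∈ L) : f (x + s) = f x + f s - f 0 := by
  obtain ⟨u, hu, t, ht, rfl⟩ := decomp x
  have h1 := mixed f hf u t s ht hs
  have h2 := mixed f hf 0 u s hu hs
  rw [zero_add, zero_add] at h2
  rw [h1, h2]
  ring

theorem add_all (f : V → ZMod 3) (hf : ∀ x y, y - x ∈ L → f x ≠ f y) (x v : V) :
    f (x + v) = f x + f v - f 0 := by
  obtain ⟨s, hs, t, ht, rfl⟩ := decomp v
  have h1 := add_gen f hf (x + s) t ht
  have h2 := add_gen f hf x s hs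
  have h3 := add_gen f hf s t ht
  rw [← add_assoc, h1, h2, h3]
  ring

theorem not_colorable : ¬ H.Colorable 3 := by
  rintro ⟨C⟩
  let f : V → ZMod 3 := fun v => (C v : Fin 3)
  have hf : ∀ x y, y - x ∈ L → f x ≠ f y := fun x y h => C.valid h
  let φ : V →+ ZMod 3 :=
    { toFun := fun v => f v - f 0
      map_zero' := by simp
      map_add' := by
        intro x y
        rw [add_all f hf x y]
        ring }
  let ψ : V →ₗ[ZMod 3] ZMod 3 := φ.toZModLinearMap 3
  have hψ : ∀ s ∈ L, ψ s ≠ 0 := by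
    intro s hs h
    have h' : f s - f 0 = 0 := h
    exact hf 0 s (by simpa using hs) (sub_eq_zero.mp h').symm
  obtain ⟨s, hs, h⟩ := L_functional
    (ψ (1, 0, 0, 0, 0), ψ (0, 1, 0, 0, 0), ψ (0, 0, 1, 0, 0), ψ (0, 0, 0, 1, 0),
      ψ (0, 0, 0, 0, 1))
  apply hψ s hs
  have e : s = s.1 • ((1, 0, 0, 0, 0) : V) + s.2.1 • ((0, 1, 0, 0, 0) : V)
      + s.2.2.1 • ((0, 0, 1, 0, 0) : V) + s.2.2.2.1 • ((0, 0, 0, 1, 0) : V)
      + s.2.2.2.2 • ((0, 0, 0, 0, 1) : V) := by
    obtain ⟨s1, s2, s3, s4, s5⟩ := s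
    simp
  rw [e, map_add, map_add, map_add, map_add, map_smul, map_smul, map_smul, map_smul, map_smul]
  simpa using h

/-- There is a finite graph and a number k such that every dominating set has at least k vertices, k guards can eternally defend the graph by moving one guard per attack, and the vertices cannot be covered by k cliques. -/
theorem result :
    ∃ n : ℕ, ∃ G : SimpleGraph (Fin n), ∃ k : ℕ, ∃ F : Set (Finset (Fin n)),
      F.Nonempty ∧
      (∀ D ∈ F, D.card = k) ∧
      (∀ D ∈ F, ∀ v : Fin n, v ∉ D →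
        ∃ u ∈ D, G.Adj u v ∧ insert v (D.erase u) ∈ F) ∧
      (∀ S : Finset (Fin n), (∀ v : Fin n, v ∈ S ∨ ∃ u ∈ S, G.Adj u v) → k ≤ S.card) ∧
      (k : ℕ∞) < Gᶜ.chromaticNumber := by
  let e : V ≃ Fin (Fintype.card V) := Fintype.equivFin V
  refine ⟨Fintype.card V, (H.comap e.symm)ᶜ, 3,
    {D | D.card = 3 ∧ ∀ w : V, ∃ d ∈ D, ¬ H.Adj w (e.symm d)}, ?_, ?_, ?_, ?_, ?_⟩
  · refine ⟨{e 0, e (1, 0, 0, 0, 0), e (2, 0, 0, 0, 0)}, ?_, ?_⟩
    · rw [Finset.card_eq_three]
      refine ⟨_, _, _, ?_, ?_, ?_, rfl⟩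
      · exact fun h => absurd (e.injective h) (by decide)
      · exact fun h => absurd (e.injective h) (by decide)
      · exact fun h => absurd (e.injective h) (by decide)
    · intro w
      by_cases hw : H.Adj w 0
      · have hw' : w ∈ L := by
          have := L_neg _ ((H_adj _ _).mp hw)
          simpa using this
        rcases L_line w hw' with h | h
        · refine ⟨e (1, 0, 0, 0, 0), by simp, ?_⟩
          rw [Equiv.symm_apply_apply]
          intro h2
          exact h (by simpa using L_neg _ ((H_adj _ _).mp h2))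
        · refine ⟨e (2, 0, 0, 0, 0), by simp, ?_⟩
          rw [Equiv.symm_apply_apply]
          intro h2
          exact h (by simpa using L_neg _ ((H_adj _ _).mp h2))
      · exact ⟨e 0, by simp, by simpa using hw⟩
  · intro D hD
    exact hD.1
  · intro D hD v hv
    obtain ⟨hcard, hdom⟩ := hD
    obtain ⟨x, y, z, hxy, hxz, hyz, rfl⟩ := Finset.card_eq_three.mp hcard
    simp only [Finset.mem_insert, Finset.mem_singleton, not_or] at hv
    obtain ⟨hvx, hvy, hvz⟩ := hv
    have inj : ∀ i j : Fin (Fintype.card V), i ≠ j → e.symm i ≠ e.symm j :=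
      fun i j h h' => h (e.symm.injective h')
    have hk := key (V := V) (fun s => s ∈ L) L_neg L_dbl
      (fun a p ha hp hpa => L_lam a ha p hp hpa)
      (fun a p q hp hq hpa hqa h0 h => L_mu a p q hp hq hpa hqa h0 h)
      (e.symm x - e.symm v) (e.symm y - e.symm v) (e.symm z - e.symm v)
      (sub_ne_zero.mpr (inj _ _ (Ne.symm hvx))) (sub_ne_zero.mpr (inj _ _ (Ne.symm hvy)))
      (sub_ne_zero.mpr (inj _ _ (Ne.symm hvz)))
      (fun h => inj _ _ hxy (sub_left_injective h)) (fun h => inj _ _ hxz (sub_left_injective h))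
      (fun h => inj _ _ hyz (sub_left_injective h)) (by
        rintro w ⟨h1, h2, h3⟩
        obtain ⟨d, hd, hd'⟩ := hdom (w + e.symm v)
        have conv : ∀ c : V, w - (c - e.symm v) ∈ L → H.Adj (w + e.symm v) c := by
          intro c hc
          have h4 := L_neg _ hc
          have h5 : -(w - (c - e.symm v)) = c - (w + e.symm v) := by abel
          rw [h5] at h4
          exact h4
        simp only [Finset.mem_insert, Finset.mem_singleton] at hd
        rcases hd with rfl | rfl | rfl
        · exact hd' (conv _ h1)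
        · exact hd' (conv _ h2)
        · exact hd' (conv _ h3))
    -- common final step
    have fin_step : ∀ a b c : Fin (Fintype.card V), a ≠ b → a ≠ c → b ≠ c → v ≠ a → v ≠ b → v ≠ c →
        (¬ (e.symm a - e.symm v) ∈ L ∧ ∀ w, ¬ (w ∈ L ∧ w - (e.symm b - e.symm v) ∈ L ∧
          w - (e.symm c - e.symm v) ∈ L)) →
        (H.comap e.symm)ᶜ.Adj a v ∧ insert v (({a, b, c} : Finset _).erase a) ∈
          {D : Finset (Fin (Fintype.card V)) | D.card = 3 ∧
            ∀ w : V, ∃ d ∈ D, ¬ H.Adj w (e.symm d)} := by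
      intro a b c hab hac hbc hva hvb hvc ⟨h1, h2⟩
      refine ⟨?_, ?_, ?_⟩
      · rw [SimpleGraph.compl_adj]
        refine ⟨Ne.symm hva, ?_⟩
        rw [SimpleGraph.comap_adj]
        intro h
        exact h1 (SimpleGraph.Adj.symm h)
      · have : (({a, b, c} : Finset (Fin (Fintype.card V))).erase a) = {b, c} := by
          ext i
          simp only [Finset.mem_erase, Finset.mem_insert, Finset.mem_singleton]
          constructor
          · tauto
          · rintro (rfl | rfl)
            · exact ⟨Ne.symm hab, by simp⟩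
            · exact ⟨Ne.symm hac, by simp⟩
        rw [this, Finset.card_eq_three]
        exact ⟨v, b, c, hvb, hvc, hbc, rfl⟩
      · intro w
        by_contra hcon
        push Not at hcon
        have g1 := hcon v (by simp)
        have g2 := hcon b (by simp [Ne.symm hab])
        have g3 := hcon c (by simp [Ne.symm hac])
        apply h2 (w - e.symm v)
        refine ⟨?_, ?_, ?_⟩
        · have := L_neg _ ((H_adj _ _).mp g1)
          simpa using this
        · have := L_neg _ ((H_adj _ _).mp g2)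
          have h5 : w - e.symm v - (e.symm b - e.symm v) = -(e.symm b - w) := by abel
          rw [h5]; exact this
        · have := L_neg _ ((H_adj _ _).mp g3)
          have h5 : w - e.symm v - (e.symm c - e.symm v) = -(e.symm c - w) := by abel
          rw [h5]; exact this
    rcases hk with hk | hk | hk
    · exact ⟨x, by simp, fin_step x y z hxy hxz hyz hvx hvy hvz hk⟩
    · refine ⟨y, by simp, ?_⟩
      have := fin_step y x z (Ne.symm hxy) hyz hxz hvy hvx hvz hk
      rwa [Finset.insert_comm] at this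
    · refine ⟨z, by simp, ?_⟩
      have := fin_step z x y (Ne.symm hxz) (Ne.symm hyz) hxy hvz hvx hvy hk
      have h6 : ({z, x, y} : Finset (Fin (Fintype.card V))) = {x, y, z} := by
        ext i
        simp only [Finset.mem_insert, Finset.mem_singleton]
        tauto
      rwa [h6] at this
  · intro S hS
    by_contra hlt
    push Not at hlt
    have hle : S.card ≤ 2 := by omega
    obtain ⟨x, y, hxy⟩ : ∃ x y : Fin (Fintype.card V), S ⊆ {x, y} := by
      interval_cases h : S.card
      · refine ⟨e 0, e 0, ?_⟩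
        rw [Finset.card_eq_zero.mp h]
        exact Finset.empty_subset _
      · obtain ⟨a, ha⟩ := Finset.card_eq_one.mp h
        refine ⟨a, a, ?_⟩
        rw [ha]
        intro i hi
        exact Finset.mem_insert_of_mem hi
      · obtain ⟨a, b, _, hab⟩ := Finset.card_eq_two.mp h
        exact ⟨a, b, by rw [hab]⟩
    obtain ⟨s, hs, hs'⟩ := L_common (e.symm y - e.symm x)
    -- the common neighbour
    let w : V := e.symm x + s
    have w1 : w - e.symm x ∈ L := by
      have : w - e.symm x = s := by simp only [w]; abel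
      rw [this]; exact hs
    have w2 : w - e.symm y ∈ L := by
      have : w - e.symm y = s - (e.symm y - e.symm x) := by simp only [w]; abel
      rw [this]; exact hs'
    have hw : ∀ u ∈ S, w - e.symm u ∈ L := by
      intro u hu
      have := hxy hu
      simp only [Finset.mem_insert, Finset.mem_singleton] at this
      rcases this with rfl | rfl
      · exact w1
      · exact w2
    rcases hS (e w) with h | ⟨u, hu, h⟩
    · have := hw _ h
      rw [Equiv.symm_apply_apply, sub_self] at this
      exact L_zero this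
    · rw [SimpleGraph.compl_adj, SimpleGraph.comap_adj, Equiv.symm_apply_apply] at h
      exact h.2 (hw u hu)
  · rw [compl_compl]
    rw [← not_le]
    intro hle
    have hc : (H.comap e.symm).Colorable 3 := by
      exact SimpleGraph.chromaticNumber_le_iff_colorable.mp (by exact_mod_cast hle)
    exact not_colorable (hc.of_hom (SimpleGraph.Iso.comap e.symm H).symm.toHom)

end Pool.Agent.S11363
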