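import Pool.Statements.S12899
import Pool.Agent.HilbertReverse.Main

set_option autoImplicit false
open Pool Pool.MP_2655df_gt

namespace Pool.Agent.S12899

/-- If in a bounded open convex planar Hilbert geometry, for every triangle, any reverse perpendicular bisectors of its three sides (metric-foot definition) are concurrent or all parallel, then the domain is the interior of an ellipse, i.e. the geometry is hyperbolic. -/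
theorem result :
  ∀ (Ω : Set (ℝ × ℝ)), IsOpen Ω → Convex ℝ Ω → Bornology.IsBounded Ω → Ω.Nonempty →
  ∀ (d : ℝ × ℝ → ℝ × ℝ → ℝ),
    (∀ x y : ℝ × ℝ, d x y = (1 / 2) * Real.log
        (((1 + sSup {s : ℝ | 0 ≤ s ∧ x - s • (y - x) ∈ Ω}) *
            sSup {t : ℝ | 0 ≤ t ∧ x + t • (y - x) ∈ Ω}) /
          (sSup {s : ℝ | 0 ≤ s ∧ x - s • (y - x) ∈ Ω} *
            (sSup {t : ℝ | 0 ≤ t ∧ x + t • (y - x) ∈ Ω} - 1)))) →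
  ∀ (R : ℝ × ℝ → ℝ × ℝ → AffineSubspace ℝ (ℝ × ℝ) → Prop),
    (∀ a b ℓ, R a b ℓ ↔
      (Module.finrank ℝ ℓ.direction = 1 ∧
        ∃ m ∈ segment ℝ a b, d a m = d m b ∧ m ∈ ℓ ∧
          ∀ x ∈ affineSpan ℝ {a, b}, x ∈ Ω → ∀ z ∈ ℓ, z ∈ Ω → d x m ≤ d x z)) →
    (∀ a b c : ℝ × ℝ, a ∈ Ω → b ∈ Ω → c ∈ Ω → ¬ Collinear ℝ {a, b, c} →
      ∀ ℓ₁ ℓ₂ ℓ₃ : AffineSubspace ℝ (ℝ × ℝ), R a b ℓ₁ → R b c ℓ₂ → R c a ℓ₃ →
        ((∃ p, p ∈ ℓ₁ ∧ p ∈ ℓ₂ ∧ p ∈ ℓ₃) ∨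
          (ℓ₁.direction = ℓ₂.direction ∧ ℓ₂.direction = ℓ₃.direction))) →
    ∃ f : (ℝ × ℝ) ≃ᵃ[ℝ] (ℝ × ℝ), Ω = f '' {p : ℝ × ℝ | p.1 ^ 2 + p.2 ^ 2 < 1} := by
  intro Ω ho hc hb hne d hd R hR hyp
  have hdeq : ∀ x y, d x y = Pool.Agent.HilbertReverse.hd Ω x y := by
    intro x y
    rw [hd, Pool.Agent.HilbertReverse.hd_eq]
  have hReq : ∀ a b ℓ, R a b ℓ ↔ Pool.Agent.HilbertReverse.RR Ω a b ℓ := by
    intro a b ℓ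
    rw [hR]
    simp only [Pool.Agent.HilbertReverse.RR, hdeq]
  refine Pool.Agent.HilbertReverse.ellipse_of_pencil ho hc hb ?_ hne
  intro a b c ha hb' hc' hcol ℓ₁ ℓ₂ ℓ₃ h1 h2 h3
  exact hyp a b c ha hb' hc' hcol ℓ₁ ℓ₂ ℓ₃ ((hReq _ _ _).mpr h1) ((hReq _ _ _).mpr h2)
    ((hReq _ _ _).mpr h3)

end Pool.Agent.S12899
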