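-- Proof of the frozen statement S14160 (the negation of the problem): a delta-connected continuum X with a
-- two-to-one covering map onto a continuum Y that is not delta-connected.
import Pool.Statements.S14160
import Pool.Agent.DeltaConn.Cover

set_option autoImplicit false
open Pool Pool.MP_ea0cba_gt

namespace Pool.Agent.S14160

/-- The negation of the preceding statement: If f is a local homeomorphism from a metric continuum X onto a metric space Y, and any two points of X lie in a hereditarily decomposable subcontinuum irreducible between them, then the same holds for any two points of Y. -/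
theorem result :
    ¬ (∀ (X Y : Type) [MetricSpace X] [MetricSpace Y] [CompactSpace X] [ConnectedSpace X]
      (f : X → Y), IsLocalHomeomorph f → Function.Surjective f →
      (∀ x y : X, ∃ K : Set X, IsCompact K ∧ IsConnected K ∧ x ∈ K ∧ y ∈ K ∧
        (∀ L : Set X, L ⊆ K → IsCompact L → IsConnected L → x ∈ L → y ∈ L → L = K) ∧
        (∀ M : Set X, M ⊆ K → IsCompact M → IsConnected M → M.Nontrivial →
          ∃ A B : Set X, A ⊆ M ∧ B ⊆ M ∧ A ≠ M ∧ B ≠ M ∧ IsCompact A ∧ IsConnected A ∧
            IsCompact B ∧ IsConnected B ∧ A ∪ B = M)) →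
      (∀ x y : Y, ∃ K : Set Y, IsCompact K ∧ IsConnected K ∧ x ∈ K ∧ y ∈ K ∧
        (∀ L : Set Y, L ⊆ K → IsCompact L → IsConnected L → x ∈ L → y ∈ L → L = K) ∧
        (∀ M : Set Y, M ⊆ K → IsCompact M → IsConnected M → M.Nontrivial →
          ∃ A B : Set Y, A ⊆ M ∧ B ⊆ M ∧ A ≠ M ∧ B ≠ M ∧ IsCompact A ∧ IsConnected A ∧
            IsCompact B ∧ IsConnected B ∧ A ∪ B = M))) := by
  intro H
  -- transfer to metrizable topological spaces
  have transfer : ∀ (X Y : Type) (tX : TopologicalSpace X) (tY : TopologicalSpace Y)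
      (_ : TopologicalSpace.MetrizableSpace X) (_ : TopologicalSpace.MetrizableSpace Y)
      (_ : CompactSpace X) (_ : ConnectedSpace X)
      (f : X → Y), IsLocalHomeomorph f → Function.Surjective f →
      (∀ x y : X, ∃ K : Set X, IsCompact K ∧ IsConnected K ∧ x ∈ K ∧ y ∈ K ∧
        (∀ L : Set X, L ⊆ K → IsCompact L → IsConnected L → x ∈ L → y ∈ L → L = K) ∧
        (∀ M : Set X, M ⊆ K → IsCompact M → IsConnected M → M.Nontrivial →
          ∃ A B : Set X, A ⊆ M ∧ B ⊆ M ∧ A ≠ M ∧ B ≠ M ∧ IsCompact A ∧ IsConnected A ∧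
            IsCompact B ∧ IsConnected B ∧ A ∪ B = M)) →
      (∀ x y : Y, ∃ K : Set Y, IsCompact K ∧ IsConnected K ∧ x ∈ K ∧ y ∈ K ∧
        (∀ L : Set Y, L ⊆ K → IsCompact L → IsConnected L → x ∈ L → y ∈ L → L = K) ∧
        (∀ M : Set Y, M ⊆ K → IsCompact M → IsConnected M → M.Nontrivial →
          ∃ A B : Set Y, A ⊆ M ∧ B ⊆ M ∧ A ≠ M ∧ B ≠ M ∧ IsCompact A ∧ IsConnected A ∧
            IsCompact B ∧ IsConnected B ∧ A ∪ B = M)) := by
    intro X Y tX tY hX hY hcX hconX f hf hsurj hdel
    obtain ⟨mX, hmX⟩ : ∃ m : MetricSpace X,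
        m.toPseudoMetricSpace.toUniformSpace.toTopologicalSpace = tX :=
      ⟨TopologicalSpace.metrizableSpaceMetric X, rfl⟩
    obtain ⟨mY, hmY⟩ : ∃ m : MetricSpace Y,
        m.toPseudoMetricSpace.toUniformSpace.toTopologicalSpace = tY :=
      ⟨TopologicalSpace.metrizableSpaceMetric Y, rfl⟩
    subst hmX
    subst hmY
    exact H X Y f hf hsurj hdel
  exact DeltaConn.not_delta_Y (transfer DeltaConn.Xset DeltaConn.Yset inferInstance inferInstance
    inferInstance inferInstance inferInstance inferInstance DeltaConn.ff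
    DeltaConn.isLocalHomeomorph_ff DeltaConn.surjective_ff DeltaConn.delta_X)

end Pool.Agent.S14160
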