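import Pool.Statements.S14553
import Pool.Agent.SNX.MainE

set_option autoImplicit false
open FirstOrder FirstOrder.Language FirstOrder.Ring
open Pool Pool.MP_32850b_lc

namespace Pool.Agent.S14553

/-- Every ordered field whose ordered-ring theory admits no ict-pattern of depth omega (strongly NIP) has a henselian valuation ring whose residue field is real closed. -/
theorem result :
    ∀ (K : Type) [Field K] [LinearOrder K] [IsStrictOrderedRing K]
      [CompatibleRing K] [Language.order.Structure K] [Language.order.OrderedStructure K],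
      (∀ (M : Type) [(Language.ring.sum Language.order).Structure M],
        (Language.ring.sum Language.order).ElementarilyEquivalent M K →
        ∀ (m : ℕ → ℕ)
          (φ : ∀ i, (Language.ring.sum Language.order).Formula (Unit ⊕ Fin (m i)))
          (a : ∀ i, ℕ → Fin (m i) → M),
          ¬ ∀ η : ℕ → ℕ, ∀ n : ℕ, ∃ x : M, ∀ i < n, ∀ j < n,
            ((φ i).Realize (Sum.elim (fun _ => x) (a i j)) ↔ j = η i)) →
      ∃ O : ValuationSubring K, HenselianLocalRing O ∧
        (∀ (n : ℕ) (f : Fin n → IsLocalRing.ResidueField O), ∑ i, f i ^ 2 ≠ -1) ∧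
        (∀ c : IsLocalRing.ResidueField O, ∃ b, b ^ 2 = c ∨ b ^ 2 = -c) ∧
        (∀ p : Polynomial (IsLocalRing.ResidueField O), Odd p.natDegree → ∃ x, p.IsRoot x) := by
  intro K _ _ _ _ _ _ h
  exact SNX.main K h

end Pool.Agent.S14553
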