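import Pool.Statements.S14718
import Pool.Agent.DMN.EMain

set_option autoImplicit false
open Pool Pool.MP_55b29c_lc

namespace Pool.Agent.S14718

/-- The negation of the preceding statement: For every computable linear order on ℕ: every computable copy has a computable injective order-preserving non-identity self-map iff some convex subset is isomorphic to a ℚ-indexed sum of nonempty finite blocks of bounded size. -/
theorem result :
    ¬ (∀ r : ℕ → ℕ → Bool, Computable₂ r →
    (∀ a, r a a = true) →
    (∀ a b, r a b = true → r b a = true → a = b) →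
    (∀ a b c, r a b = true → r b c = true → r a c = true) →
    (∀ a b, r a b = true ∨ r b a = true) →
    ((∀ s : ℕ → ℕ → Bool, Computable₂ s →
        (∃ e : ℕ ≃ ℕ, ∀ a b, r a b = s (e a) (e b)) →
        ∃ g : ℕ → ℕ, Computable g ∧ Function.Injective g ∧ g ≠ id ∧
          ∀ a b, s a b = true → s (g a) (g b) = true) ↔
      ∃ C : Set ℕ, (∀ a b c, a ∈ C → c ∈ C → r a b = true → r b c = true → b ∈ C) ∧
        ∃ f : ℚ → ℕ, (∀ q, 1 ≤ f q) ∧ BddAbove (Set.range f) ∧
          ∃ e : C ≃ Lex (Σ q : ℚ, Fin (f q)), ∀ a b : C, r a b = true ↔ e a ≤ e b)) :=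
  Pool.Agent.DMN.main_S14718

end Pool.Agent.S14718
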