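import Pool.Statements.S15271
import Pool.Agent.VarSpace.Res

set_option autoImplicit false
open Pool Pool.MP_b75d2f_lc

namespace Pool.Agent.S15271

/-- There is a constant c such that every CNF in n variables with a resolution refutation in variable space V also has a resolution refutation of depth at most (V·(log₂ n + 1))^c. -/
theorem result :
  ∃ c : ℕ, ∀ (n V : ℕ) (F : Finset (Finset (Fin n × Bool))),
    (∀ i : Fin n, ∃ C ∈ F, ∃ b : Bool, (i, b) ∈ C) →
    (∃ (t : ℕ) (M : ℕ → Finset (Finset (Fin n × Bool))),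
      M 0 = ∅ ∧ ∅ ∈ M t ∧
      (∀ i < t,
        (∃ C ∈ F, M (i + 1) = insert C (M i)) ∨
        (∃ C ∈ M i, M (i + 1) = (M i).erase C) ∨
        (∃ C₁ ∈ M i, ∃ C₂ ∈ M i, ∃ x : Fin n, (x, true) ∈ C₁ ∧ (x, false) ∈ C₂ ∧
          M (i + 1) = insert (C₁.erase (x, true) ∪ C₂.erase (x, false)) (M i))) ∧
      ∀ i ≤ t, (((M i).biUnion id).image Prod.fst).card ≤ V) →
    ∃ (D : ℕ) (S : ℕ → Set (Finset (Fin n × Bool))),
      S 0 = (↑F : Set (Finset (Fin n × Bool))) ∧
      (∀ (k : ℕ) (C : Finset (Fin n × Bool)), C ∈ S (k + 1) ↔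
        (C ∈ S k ∨ ∃ C₁ ∈ S k, ∃ C₂ ∈ S k, ∃ x : Fin n, (x, true) ∈ C₁ ∧ (x, false) ∈ C₂ ∧
          C = C₁.erase (x, true) ∪ C₂.erase (x, false))) ∧
      (∅ : Finset (Fin n × Bool)) ∈ S D ∧ D ≤ (V * (Nat.log 2 n + 1)) ^ c := by
  refine ⟨8, ?_⟩
  intro n V F _ hM
  obtain ⟨T, M, hM0, hMT, hstep, hV⟩ := hM
  obtain ⟨hDT, hsingle⟩ := Pool.Agent.VarSpace.depth_of_varSpace n V F T M hM0 hMT hstep hV
  -- the sets of clauses derivable in a given depth
  let S : ℕ → Set (Finset (Fin n × Bool)) := fun k => Nat.rec (↑F : Set (Finset (Fin n × Bool)))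
    (fun _ Sk => {C | C ∈ Sk ∨ ∃ C₁ ∈ Sk, ∃ C₂ ∈ Sk, ∃ x : Fin n, (x, true) ∈ C₁ ∧
      (x, false) ∈ C₂ ∧ C = C₁.erase (x, true) ∪ C₂.erase (x, false)}) k
  have hS0 : S 0 = (↑F : Set (Finset (Fin n × Bool))) := rfl
  have hS : ∀ (k : ℕ) (C : Finset (Fin n × Bool)), C ∈ S (k + 1) ↔
        (C ∈ S k ∨ ∃ C₁ ∈ S k, ∃ C₂ ∈ S k, ∃ x : Fin n, (x, true) ∈ C₁ ∧ (x, false) ∈ C₂ ∧
          C = C₁.erase (x, true) ∪ C₂.erase (x, false)) := fun k C => Iff.rfl
  have hcube : Pool.Agent.VarSpace.cube (fun _ : Fin n => (none : Option Bool)) = Set.univ := by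
    ext α
    simp [Pool.Agent.VarSpace.cube]
  have hfin : ∀ k, Pool.Agent.VarSpace.DT (Pool.Agent.VarSpace.EF F) Pool.Agent.VarSpace.bit k
      Set.univ → (∅ : Finset (Fin n × Bool)) ∈ S k := by
    intro k hk
    rw [← hcube] at hk
    obtain ⟨C, hC, hl⟩ := Pool.Agent.VarSpace.toRes F S (fun C => by rw [hS0]; exact Finset.mem_coe)
      hS k _ hk
    have : C = ∅ := by
      rw [Finset.eq_empty_iff_forall_notMem]
      intro l hlC
      have := hl l hlC
      simp at this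
    rwa [this] at hC
  rcases Nat.lt_or_ge 1 (V * (Nat.log 2 n + 1)) with hL | hL
  · refine ⟨_, S, hS0, hS, hfin _ hDT, ?_⟩
    set L := V * (Nat.log 2 n + 1) with hLdef
    have hVL : V ≤ L := by rw [hLdef]; exact Nat.le_mul_of_pos_right V (by omega)
    have h1 : (1 + L * (3 + 8 * (V + 1))) * V ≤ (1 + L * (3 + 8 * (L + 1))) * L := by gcongr
    refine h1.trans ?_
    have h2 : 1 + L * (3 + 8 * (L + 1)) ≤ 14 * L ^ 2 := by nlinarith
    calc (1 + L * (3 + 8 * (L + 1))) * L ≤ 14 * L ^ 2 * L := Nat.mul_le_mul_right _ h2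
      _ ≤ 2 ^ 5 * L ^ 3 := by nlinarith [Nat.zero_le (L ^ 3), pow_succ L 2]
      _ ≤ L ^ 5 * L ^ 3 := Nat.mul_le_mul_right _ (Nat.pow_le_pow_left hL 5)
      _ = L ^ 8 := by ring
  · rcases Nat.eq_zero_or_pos V with hV0 | hVpos
    · subst hV0
      refine ⟨_, S, hS0, hS, hfin _ hDT, ?_⟩
      simp
    · -- here `n ≤ 1`
      have hlog : Nat.log 2 n + 1 ≤ 1 := by
        by_contra hc
        have : 2 ≤ V * (Nat.log 2 n + 1) := by nlinarith
        omega
      have hn : n < 2 := by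
        by_contra hc
        have : 0 < Nat.log 2 n := Nat.log_pos (by norm_num) (by omega)
        omega
      have hDn : Pool.Agent.VarSpace.DT (Pool.Agent.VarSpace.EF F) Pool.Agent.VarSpace.bit
          (0 + (Finset.univ : Finset (Fin n)).card) Set.univ := by
        refine Pool.Agent.VarSpace.expand F 0 Finset.univ Set.univ fun a => ?_
        refine Pool.Agent.VarSpace.EF_anti F _ _ ?_ (hsingle a)
        rintro α ⟨_, hα⟩
        have : Pool.Agent.VarSpace.win Finset.univ α = a := hα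
        rw [Set.mem_singleton_iff, ← this]
        funext i
        simp [Pool.Agent.VarSpace.win]
      refine ⟨_, S, hS0, hS, hfin _ hDn, ?_⟩
      have h1 : 1 ≤ V * (Nat.log 2 n + 1) := Nat.mul_pos hVpos (by omega)
      have h2 : 1 ≤ (V * (Nat.log 2 n + 1)) ^ 8 := Nat.one_le_pow _ _ h1
      simp only [Finset.card_univ, Fintype.card_fin, zero_add]
      omega

end Pool.Agent.S15271
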