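-- Proof of the Levine-O'Sullivan conjecture on reciprocal sums under the chi-inequality.
import Pool.Statements.S16177
import Pool.Agent.LOS.Core

set_option autoImplicit false
open Pool Pool.MP_189914_nt

namespace Pool.Agent.S16177

open Pool.Agent.LOS Finset

/-- the extension of the greedy sequence by `0` at `0`, as natural numbers -/
def cN (χ : ℕ → ℤ) (k : ℕ) : ℕ := if k = 0 then 0 else (χ k).toNat

lemma isChi_cN (χ : ℕ → ℤ) (h1 : χ 1 = 1)
    (hχ : ∀ i : ℕ, 2 ≤ i →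
        (∀ j : ℕ, 1 ≤ j → j < i → ((j : ℤ) + 1) * ((i : ℤ) - χ j) ≤ χ i) ∧
        (∃ j : ℕ, 1 ≤ j ∧ j < i ∧ χ i = ((j : ℤ) + 1) * ((i : ℤ) - χ j))) :
    IsChi (cN χ) ∧ ∀ k, 1 ≤ k → ((cN χ k : ℕ) : ℤ) = χ k := by
  have hge : ∀ k : ℕ, 1 ≤ k → (k : ℤ) ≤ χ k := by
    intro k hk
    rcases Nat.lt_or_ge k 2 with h2 | h2
    · have : k = 1 := by omega
      subst this
      rw [h1]; norm_num
    · have := (hχ k h2).1 1 le_rfl (by omega)
      rw [h1] at this
      push_cast at this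
      have hk2 : (2 : ℤ) ≤ k := by exact_mod_cast h2
      linarith
  have hcast : ∀ k, 1 ≤ k → ((cN χ k : ℕ) : ℤ) = χ k := by
    intro k hk
    unfold cN
    rw [if_neg (by omega)]
    have := hge k hk
    exact Int.toNat_of_nonneg (by omega)
  have h0 : cN χ 0 = 0 := by unfold cN; simp
  refine ⟨⟨h0, ?_, ?_⟩, hcast⟩
  · intro j k
    rcases Nat.eq_zero_or_pos k with hk | hk
    · rw [hk]; simp
    rcases Nat.eq_zero_or_pos j with hj | hj
    · rw [hj, h0]
      have h2 := hcast k hk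
      have h3 := hge k hk
      omega
    · rcases Nat.lt_or_ge j k with hjk | hjk
      · have h4 := (hχ k (by omega)).1 j hj hjk
        rw [← hcast j hj, ← hcast k hk] at h4
        have h5 : ((j : ℤ) + 1) * k ≤ cN χ k + (j + 1) * cN χ j := by linarith
        exact_mod_cast h5
      · have h6 : k ≤ cN χ j := by
          have h7 := hge j hj
          have h8 := hcast j hj
          omega
        have h9 : (j + 1) * k ≤ (j + 1) * cN χ j := Nat.mul_le_mul_left _ h6
        omega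
  · intro k
    rcases Nat.eq_zero_or_pos k with hk | hk
    · exact ⟨0, by rw [hk, h0]⟩
    rcases Nat.lt_or_ge k 2 with h2 | h2
    · have : k = 1 := by omega
      subst this
      refine ⟨0, ?_⟩
      rw [h0]
      have h3 := hcast 1 le_rfl
      rw [h1] at h3
      omega
    · obtain ⟨j, hj1, hj2, hj3⟩ := (hχ k h2).2
      refine ⟨j, ?_⟩
      rw [← hcast j hj1, ← hcast k hk] at hj3
      have h5 : ((j : ℤ) + 1) * k = cN χ k + (j + 1) * cN χ j := by linarith
      exact_mod_cast h5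

lemma inv_natCast (n : ℕ) (hn : 0 < n) :
    ((n : ENNReal))⁻¹ = ENNReal.ofReal (1 / (n : ℝ)) := by
  have hn' : (0 : ℝ) < n := by exact_mod_cast hn
  rw [one_div, ENNReal.ofReal_inv_of_pos hn', ENNReal.ofReal_natCast]

/-- Let χ be the greedy sequence with χ1 = 1 and χi = max over 1≤j<i of (j+1)(i−χj). Then every integer sequence with a_i + (j+1)a_j ≥ (j+1)i for all i,j ≥ 1 has sum of 1/a_k (possibly infinite) at most the sum of 1/χ_k. -/
theorem result :
    ∀ χ : ℕ → ℤ, χ 1 = 1 →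
      (∀ i : ℕ, 2 ≤ i →
        (∀ j : ℕ, 1 ≤ j → j < i → ((j : ℤ) + 1) * ((i : ℤ) - χ j) ≤ χ i) ∧
        (∃ j : ℕ, 1 ≤ j ∧ j < i ∧ χ i = ((j : ℤ) + 1) * ((i : ℤ) - χ j))) →
      ∀ a : ℕ → ℤ,
        (∀ i j : ℕ, 1 ≤ i → 1 ≤ j → ((j : ℤ) + 1) * (i : ℤ) ≤ a i + ((j : ℤ) + 1) * a j) →
        (∑' k : ℕ, (((a (k + 1)).toNat : ENNReal))⁻¹) ≤
          ∑' k : ℕ, (((χ (k + 1)).toNat : ENNReal))⁻¹ := by
  intro χ h1 hχ a ha
  obtain ⟨hc, hcast⟩ := isChi_cN χ h1 hχ
  -- positivity of `a`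
  have hapos : ∀ k : ℕ, 1 ≤ k → 0 < a k := by
    intro k hk
    have h2 := ha k k hk hk
    have hk' : (1 : ℤ) ≤ k := by exact_mod_cast hk
    by_contra hcon
    push Not at hcon
    nlinarith
  have haN : ∀ k : ℕ, 1 ≤ k → (((a k).toNat : ℕ) : ℤ) = a k := by
    intro k hk
    exact Int.toNat_of_nonneg (hapos k hk).le
  have ha' : ∀ i j : ℕ, 1 ≤ i → 1 ≤ j →
      (j + 1) * i ≤ (a i).toNat + (j + 1) * (a j).toNat := by
    intro i j hi hj
    have h2 := ha i j hi hj
    rw [← haN i hi, ← haN j hj] at h2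
    exact_mod_cast h2
  have hcore := core (cN χ) hc (fun k => (a k).toNat) ha'
  apply ENNReal.tsum_le_of_sum_range_le
  intro N
  refine le_trans ?_ (ENNReal.sum_le_tsum (Finset.range N))
  have e1 : ∀ k ∈ Finset.range N, (((a (k + 1)).toNat : ENNReal))⁻¹ =
      ENNReal.ofReal (1 / (((a (k + 1)).toNat : ℕ) : ℝ)) := by
    intro k _
    apply inv_natCast
    have := hapos (k + 1) (by omega)
    omega
  have e2 : ∀ k ∈ Finset.range N, (((χ (k + 1)).toNat : ENNReal))⁻¹ =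
      ENNReal.ofReal (1 / ((cN χ (k + 1) : ℕ) : ℝ)) := by
    intro k _
    have h3 : cN χ (k + 1) = (χ (k + 1)).toNat := by
      unfold cN; rw [if_neg (by omega)]
    rw [← h3]
    apply inv_natCast
    have h4 := hc.self_le (k + 1)
    omega
  rw [Finset.sum_congr rfl e1, Finset.sum_congr rfl e2,
    ← ENNReal.ofReal_sum_of_nonneg (fun k _ => by positivity),
    ← ENNReal.ofReal_sum_of_nonneg (fun k _ => by positivity)]
  exact ENNReal.ofReal_le_ofReal (hcore N)

end Pool.Agent.S16177
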