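import Pool.Statements.S19475
import Pool.Agent.Talagrand.Final

set_option autoImplicit false
open MeasureTheory ProbabilityTheory
open Pool Pool.MP_9049cc_pr

namespace Pool.Agent.S19475

/-- For every balanced compact set K of real sequences with infinite-product Gaussian measure at least 0.99, the ten-fold Minkowski sum K+…+K contains a compact convex set of Gaussian measure at least 0.01. -/
theorem result :
    ∀ K : Set (ℕ → ℝ), IsCompact K → Balanced ℝ K →
      (99 / 100 : ENNReal) ≤ Measure.infinitePi (fun _ : ℕ => gaussianReal 0 1) K →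
      ∃ C : Set (ℕ → ℝ), IsCompact C ∧ Convex ℝ C ∧
        C ⊆ {x : ℕ → ℝ | ∃ y : Fin 10 → ℕ → ℝ, (∀ i, y i ∈ K) ∧ x = ∑ i, y i} ∧
        (1 / 100 : ENNReal) ≤ Measure.infinitePi (fun _ : ℕ => gaussianReal 0 1) C := by
  intro K hK hbal hKm
  have hKr : (99 / 100 : ℝ) ≤ (Measure.infinitePi (fun _ : ℕ => gaussianReal 0 1)).real K := by
    have h1 := ENNReal.toReal_mono (measure_ne_top _ _) hKm
    rw [ENNReal.toReal_div] at h1
    simpa [Measure.real] using h1
  obtain ⟨C, h1, h2, h3, h4⟩ := Pool.Agent.Talagrand.infinite_dim hK hKr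
  refine ⟨C, h1, h2, ?_, ?_⟩
  · intro x hx
    obtain ⟨⟨a, b, c⟩, ⟨ha, hb, hc⟩, rfl⟩ := h3 hx
    have hneg : ∀ z ∈ K, -z ∈ K := fun z hz => hbal.neg_mem_iff.mpr hz
    have h0 : (0 : ℕ → ℝ) ∈ K := hbal.zero_mem ⟨a, ha⟩
    refine ⟨![a, -b, -b, -b, -b, -c, -c, -c, -c, 0], ?_, ?_⟩
    · intro i
      fin_cases i
      · exact ha
      · exact hneg _ hb
      · exact hneg _ hb
      · exact hneg _ hb
      · exact hneg _ hb
      · exact hneg _ hc
      · exact hneg _ hc
      · exact hneg _ hc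
      · exact hneg _ hc
      · exact h0
    · simp only [Fin.sum_univ_succ, Fin.sum_univ_zero, Matrix.cons_val_zero, Matrix.cons_val_succ]
      ext i
      simp only [Pi.add_apply, Pi.sub_apply, Pi.smul_apply, Pi.neg_apply, Pi.zero_apply,
        smul_eq_mul]
      ring
  · have h5 : ENNReal.ofReal (1 / 100 : ℝ) ≤
        Measure.infinitePi (fun _ : ℕ => gaussianReal 0 1) C := by
      apply ENNReal.ofReal_le_of_le_toReal
      exact h4
    have h6 : (1 / 100 : ENNReal) = ENNReal.ofReal (1 / 100 : ℝ) := by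
      rw [ENNReal.ofReal_div_of_pos (by norm_num)]
      norm_num
    rw [h6]
    exact h5

end Pool.Agent.S19475
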