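import Pool.Statements.S19597
import Pool.Agent.MPba3ff3.Transfer

set_option autoImplicit false
open Pool Pool.MP_ba3ff3_pr

namespace Pool.Agent.S19597

/-- For some λ>0 and some update rule p↦f(p, success) on [0,1], the backlog/probability chain (Poisson(λ) arrivals, slot succeeds iff exactly one backlogged packet transmits) has a discrete stationary probability distribution. -/
theorem result :
    ∃ lam : ℝ, 0 < lam ∧
      ∃ f : ℝ → Bool → ℝ,
        (∀ p ∈ Set.Icc (0:ℝ) 1, ∀ b : Bool, f p b ∈ Set.Icc (0:ℝ) 1) ∧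
        ∃ π : ℕ → ℝ → ℝ,
          (∀ w p, 0 ≤ π w p) ∧
          (∀ w p, π w p ≠ 0 → p ∈ Set.Icc (0:ℝ) 1) ∧
          Summable (fun x : ℕ × ℝ => π x.1 x.2) ∧
          (∑' x : ℕ × ℝ, π x.1 x.2) = 1 ∧
          ∀ w' : ℕ, ∀ p' : ℝ,
            π w' p' = ∑' x : ℕ × ℝ, π x.1 x.2 *
              ((if x.1 ≤ w' + 1 ∧ f x.2 true = p' then
                  ((x.1 : ℝ) * x.2 * (1 - x.2) ^ (x.1 - 1)) *
                    (Real.exp (-lam) * lam ^ (w' + 1 - x.1) / ((w' + 1 - x.1).factorial : ℝ))
                else 0) +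
               (if x.1 ≤ w' ∧ f x.2 false = p' then
                  (1 - (x.1 : ℝ) * x.2 * (1 - x.2) ^ (x.1 - 1)) *
                    (Real.exp (-lam) * lam ^ (w' - x.1) / ((w' - x.1).factorial : ℝ))
                else 0)) := by
  exact Pool.Agent.MPba3ff3.main

end Pool.Agent.S19597
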